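import Pool.Agent.H711R4.Group

/-!
The action of `Γ` on `ℝ⁴`.
-/

namespace H711R4

open Matrix Set

abbrev E4 : Type := EuclideanSpace ℝ (Fin 4)

/-- entries of `A^t` -/
def ar (t : ℤ) (i j : Fin 2) : ℝ := ((AP t i j : ℤ) : ℝ)

lemma ar_add (a b : ℤ) (i j : Fin 2) :
    ar (a + b) i j = ar a i 0 * ar b 0 j + ar a i 1 * ar b 1 j := by
  unfold ar
  rw [AP_add, Matrix.mul_apply, Fin.sum_univ_two]
  push_cast
  ring

lemma ar_zero (i j : Fin 2) : ar 0 i j = if i = j then 1 else 0 := by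
  unfold ar
  rw [AP_zero, Matrix.one_apply]
  split_ifs <;> simp

lemma ar_det (t : ℤ) : ar t 0 0 * ar t 1 1 - ar t 0 1 * ar t 1 0 = 1 := by
  have h : (AP t).det = 1 := (AS ^ t).2
  rw [Matrix.det_fin_two] at h
  unfold ar
  exact_mod_cast h

/-- the linear part of `γ` -/
noncomputable def lp (t : ℤ) (x : E4) : E4 :=
  WithLp.toLp 2 ![x 0, x 1, ar t 0 0 * x 2 + ar t 0 1 * x 3, ar t 1 0 * x 2 + ar t 1 1 * x 3]

/-- the translation part of `γ` -/
noncomputable def tp (g : Gam) : E4 := WithLp.toLp 2 ![(g.s : ℝ), (g.t : ℝ), (g.v 0 : ℝ), (g.v 1 : ℝ)]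

lemma lp_add (t : ℤ) (x y : E4) : lp t (x + y) = lp t x + lp t y := by
  ext i
  fin_cases i <;> simp [lp] <;> ring

lemma lp_smul (t : ℤ) (c : ℝ) (x : E4) : lp t (c • x) = c • lp t x := by
  ext i
  fin_cases i <;> simp [lp] <;> ring

/-- the linear part as a continuous linear map -/
noncomputable def lpL (t : ℤ) : E4 →L[ℝ] E4 :=
  LinearMap.toContinuousLinearMap
    { toFun := lp t, map_add' := lp_add t, map_smul' := fun c x => lp_smul t c x }

lemma lpL_apply (t : ℤ) (x : E4) : lpL t x = lp t x := rfl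

noncomputable instance : SMul Gam E4 := ⟨fun g x => lp g.t x + tp g⟩

lemma smul_def (g : Gam) (x : E4) : g • x = lp g.t x + tp g := rfl

lemma lp_0 (t : ℤ) (x : E4) : lp t x 0 = x 0 := rfl
lemma lp_1 (t : ℤ) (x : E4) : lp t x 1 = x 1 := rfl
lemma lp_2 (t : ℤ) (x : E4) : lp t x 2 = ar t 0 0 * x 2 + ar t 0 1 * x 3 := rfl
lemma lp_3 (t : ℤ) (x : E4) : lp t x 3 = ar t 1 0 * x 2 + ar t 1 1 * x 3 := rfl

lemma smul_0 (g : Gam) (x : E4) : (g • x) 0 = x 0 + g.s := rfl
lemma smul_1 (g : Gam) (x : E4) : (g • x) 1 = x 1 + g.t := rfl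
lemma smul_2 (g : Gam) (x : E4) : (g • x) 2 = ar g.t 0 0 * x 2 + ar g.t 0 1 * x 3 + g.v 0 := rfl
lemma smul_3 (g : Gam) (x : E4) : (g • x) 3 = ar g.t 1 0 * x 2 + ar g.t 1 1 * x 3 + g.v 1 := rfl

lemma mul_v_apply (g h : Gam) (i : Fin 2) :
    (((g * h).v i : ℤ) : ℝ) = g.v i + (ar g.t i 0 * h.v 0 + ar g.t i 1 * h.v 1) := by
  rw [Gam.mul_v]
  simp only [Pi.add_apply, Matrix.mulVec, dotProduct, Fin.sum_univ_two, ar]
  push_cast
  ring

lemma ext4 {x y : E4} (h0 : x 0 = y 0) (h1 : x 1 = y 1) (h2 : x 2 = y 2) (h3 : x 3 = y 3) :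
    x = y := by
  ext i
  fin_cases i
  · exact h0
  · exact h1
  · exact h2
  · exact h3

noncomputable instance : MulAction Gam E4 where
  one_smul x := by
    apply ext4
    · rw [smul_0]; simp
    · rw [smul_1]; simp
    · rw [smul_2, Gam.one_t, ar_zero, ar_zero]; simp
    · rw [smul_3, Gam.one_t, ar_zero, ar_zero]; simp
  mul_smul g h x := by
    apply ext4
    · rw [smul_0, smul_0, smul_0, Gam.mul_s]; push_cast; ring
    · rw [smul_1, smul_1, smul_1, Gam.mul_t]; push_cast; ring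
    · rw [smul_2, smul_2, smul_2, smul_3, mul_v_apply, Gam.mul_t, ar_add, ar_add]; ring
    · rw [smul_3, smul_3, smul_2, smul_3, mul_v_apply, Gam.mul_t, ar_add, ar_add]; ring

lemma hasFDerivAt_smul (g : Gam) (x : E4) : HasFDerivAt (fun y : E4 => g • y) (lpL g.t) x :=
  (lpL g.t).hasFDerivAt.add_const (tp g)

lemma contDiff_smul (g : Gam) : ContDiff ℝ ⊤ (fun y : E4 => g • y) :=
  (lpL g.t).contDiff.add contDiff_const

instance : ContinuousConstSMul Gam E4 := ⟨fun g => (contDiff_smul g).continuous⟩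

lemma smul_free {g h : Gam} {x : E4} (hx : g • x = h • x) : g = h := by
  have h0 := congrFun (congrArg WithLp.ofLp hx) 0
  have h1 := congrFun (congrArg WithLp.ofLp hx) 1
  have h2 := congrFun (congrArg WithLp.ofLp hx) 2
  have h3 := congrFun (congrArg WithLp.ofLp hx) 3
  rw [smul_0, smul_0] at h0
  rw [smul_1, smul_1] at h1
  have hs : g.s = h.s := by exact_mod_cast add_left_cancel h0
  have ht : g.t = h.t := by exact_mod_cast add_left_cancel h1
  rw [smul_2, smul_2, ht] at h2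
  rw [smul_3, smul_3, ht] at h3
  have hv0 : g.v 0 = h.v 0 := by exact_mod_cast add_left_cancel h2
  have hv1 : g.v 1 = h.v 1 := by exact_mod_cast add_left_cancel h3
  ext1
  · exact hs
  · exact ht
  · funext i
    fin_cases i
    · exact hv0
    · exact hv1

instance : IsCancelSMul Gam E4 where
  right_cancel' g h x hx := smul_free hx

lemma coord_le {K : Set E4} (hK : IsCompact K) : ∃ R : ℝ, ∀ x ∈ K, ∀ i, |x i| ≤ R := by
  obtain ⟨R, hR⟩ := hK.isBounded.exists_norm_le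
  refine ⟨R, fun x hx i => ?_⟩
  have h1 : ‖x i‖ ≤ ‖x‖ := PiLp.norm_apply_le x i
  exact (Real.norm_eq_abs _ ▸ h1).trans (hR x hx)

instance : ProperlyDiscontinuousSMul Gam E4 where
  finite_disjoint_inter_image := by
    intro K L hK hL
    obtain ⟨R1, h1⟩ := coord_le hK
    obtain ⟨R2, h2⟩ := coord_le hL
    set B : ℤ := ⌈R1 + R2⌉ with hB
    set C : ℤ → ℤ := fun t => ⌈(|ar t 0 0| + |ar t 0 1| + |ar t 1 0| + |ar t 1 1|) * |R1| + R2⌉
      with hC
    have hfin : (⋃ s ∈ Icc (-B) B, ⋃ t ∈ Icc (-B) B,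
        (fun v : Fin 2 → ℤ => (⟨s, t, v⟩ : Gam)) '' (Icc (fun _ => -C t) (fun _ => C t))).Finite := by
      refine Set.Finite.biUnion (Set.finite_Icc _ _) fun s _ => ?_
      refine Set.Finite.biUnion (Set.finite_Icc _ _) fun t _ => ?_
      exact (Set.finite_Icc _ _).image _
    refine hfin.subset ?_
    rintro g ⟨y, ⟨x, hx, rfl⟩, hy⟩
    have hx' := h1 x hx
    have hy' := h2 _ hy
    have key : ∀ (n : ℤ) (a b : ℝ) (M : ℝ), |a| ≤ M → |b| ≤ R2 → b = a + n →
        |n| ≤ ⌈M + R2⌉ := by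
      intro n a b M ha hb hab
      have : |(n : ℝ)| ≤ M + R2 := by
        have e : (n : ℝ) = b - a := by linarith
        rw [e]
        exact (abs_sub _ _).trans (by linarith)
      have h3 : ((|n| : ℤ) : ℝ) ≤ (⌈M + R2⌉ : ℝ) := by
        push_cast
        exact this.trans (Int.le_ceil _)
      exact_mod_cast h3
    have hs := key g.s (x 0) ((g • x) 0) R1 (hx' 0) (hy' 0) (smul_0 g x)
    have ht := key g.t (x 1) ((g • x) 1) R1 (hx' 1) (hy' 1) (smul_1 g x)
    have hR1 : ∀ i, |x i| ≤ |R1| := fun i => (hx' i).trans (le_abs_self _)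
    have hv0 := key (g.v 0) (ar g.t 0 0 * x 2 + ar g.t 0 1 * x 3) ((g • x) 2)
      ((|ar g.t 0 0| + |ar g.t 0 1| + |ar g.t 1 0| + |ar g.t 1 1|) * |R1|)
      (by
        refine (abs_add_le _ _).trans ?_
        rw [abs_mul, abs_mul]
        have a1 := mul_le_mul_of_nonneg_left (hR1 2) (abs_nonneg (ar g.t 0 0))
        have a2 := mul_le_mul_of_nonneg_left (hR1 3) (abs_nonneg (ar g.t 0 1))
        have a3 := mul_nonneg (abs_nonneg (ar g.t 1 0)) (abs_nonneg R1)
        have a4 := mul_nonneg (abs_nonneg (ar g.t 1 1)) (abs_nonneg R1)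
        nlinarith) (hy' 2) (smul_2 g x)
    have hv1 := key (g.v 1) (ar g.t 1 0 * x 2 + ar g.t 1 1 * x 3) ((g • x) 3)
      ((|ar g.t 0 0| + |ar g.t 0 1| + |ar g.t 1 0| + |ar g.t 1 1|) * |R1|)
      (by
        refine (abs_add_le _ _).trans ?_
        rw [abs_mul, abs_mul]
        have a1 := mul_le_mul_of_nonneg_left (hR1 2) (abs_nonneg (ar g.t 1 0))
        have a2 := mul_le_mul_of_nonneg_left (hR1 3) (abs_nonneg (ar g.t 1 1))
        have a3 := mul_nonneg (abs_nonneg (ar g.t 0 0)) (abs_nonneg R1)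
        have a4 := mul_nonneg (abs_nonneg (ar g.t 0 1)) (abs_nonneg R1)
        nlinarith) (hy' 3) (smul_3 g x)
    simp only [mem_iUnion]
    refine ⟨g.s, abs_le.1 hs, g.t, abs_le.1 ht, g.v, ?_, rfl⟩
    constructor
    · intro i
      fin_cases i
      · exact (abs_le.1 hv0).1
      · exact (abs_le.1 hv1).1
    · intro i
      fin_cases i
      · exact (abs_le.1 hv0).2
      · exact (abs_le.1 hv1).2

end H711R4
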