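import Mathlib

/-!
Alternating algebra on `ℝ⁶` : the six-form `a ∧ b ∧ c` of three bilinear forms evaluated on the
standard basis, and its elementary properties.
-/

namespace H711R4

open Finset

abbrev V : Type := Fin 6 → ℝ

/-- standard basis vectors -/
noncomputable def bv (i : Fin 6) : V := Pi.single i 1

abbrev Bil : Type := V →L[ℝ] V →L[ℝ] ℝ

/-- the tensor product of three bilinear forms. -/
noncomputable def mm (a b c : Bil) : MultilinearMap ℝ (fun _ : Fin 6 => V) ℝ where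
  toFun v := a (v 0) (v 1) * b (v 2) (v 3) * c (v 4) (v 5)
  map_update_add' := by
    intro _ m i x y
    have : ‹DecidableEq (Fin 6)› = instDecidableEqFin 6 := Subsingleton.elim _ _
    subst this
    fin_cases i <;> simp [Function.update] <;> ring
  map_update_smul' := by
    intro _ m i x y
    have : ‹DecidableEq (Fin 6)› = instDecidableEqFin 6 := Subsingleton.elim _ _
    subst this
    fin_cases i <;> simp [Function.update] <;> ring

/-- the tensor product of two linear forms and two bilinear forms. -/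
noncomputable def m1 (z h : V →L[ℝ] ℝ) (b c : Bil) : MultilinearMap ℝ (fun _ : Fin 6 => V) ℝ where
  toFun v := z (v 0) * h (v 1) * b (v 2) (v 3) * c (v 4) (v 5)
  map_update_add' := by
    intro _ m i x y
    have : ‹DecidableEq (Fin 6)› = instDecidableEqFin 6 := Subsingleton.elim _ _
    subst this
    fin_cases i <;> simp [Function.update] <;> ring
  map_update_smul' := by
    intro _ m i x y
    have : ‹DecidableEq (Fin 6)› = instDecidableEqFin 6 := Subsingleton.elim _ _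
    subst this
    fin_cases i <;> simp [Function.update] <;> ring

/-- the alternating form `a ∧ b ∧ c`. -/
noncomputable def TA (a b c : Bil) : V [⋀^Fin 6]→ₗ[ℝ] ℝ := MultilinearMap.alternatization (mm a b c)

/-- the alternating form `z ∧ h ∧ b ∧ c`. -/
noncomputable def UA (z h : V →L[ℝ] ℝ) (b c : Bil) : V [⋀^Fin 6]→ₗ[ℝ] ℝ :=
  MultilinearMap.alternatization (m1 z h b c)

noncomputable def T (a b c : Bil) : ℝ := TA a b c bv

noncomputable def U (z h : V →L[ℝ] ℝ) (b c : Bil) : ℝ := UA z h b c bv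

lemma TA_apply (a b c : Bil) (v : Fin 6 → V) : TA a b c v =
    ∑ σ : Equiv.Perm (Fin 6), ((Equiv.Perm.sign σ : ℤ) : ℝ) *
      (a (v (σ 0)) (v (σ 1)) * b (v (σ 2)) (v (σ 3)) * c (v (σ 4)) (v (σ 5))) := by
  simp [TA, MultilinearMap.alternatization_apply, mm, Units.smul_def]

lemma UA_apply (z h : V →L[ℝ] ℝ) (b c : Bil) (v : Fin 6 → V) : UA z h b c v =
    ∑ σ : Equiv.Perm (Fin 6), ((Equiv.Perm.sign σ : ℤ) : ℝ) *
      (z (v (σ 0)) * h (v (σ 1)) * b (v (σ 2)) (v (σ 3)) * c (v (σ 4)) (v (σ 5))) := by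
  simp [UA, MultilinearMap.alternatization_apply, m1, Units.smul_def]

/-- alternating 6-forms on `ℝ⁶` are multiples of the determinant. -/
lemma alt_eq (f : V [⋀^Fin 6]→ₗ[ℝ] ℝ) (v : Fin 6 → V) :
    f v = f bv * (Pi.basisFun ℝ (Fin 6)).det v := by
  have h := AlternatingMap.eq_smul_basis_det (Pi.basisFun ℝ (Fin 6)) f
  have hb : (⇑(Pi.basisFun ℝ (Fin 6))) = bv := by
    funext i
    simp [bv]
  conv_lhs => rw [h]
  rw [AlternatingMap.smul_apply, smul_eq_mul, hb]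

lemma alt_comp (f : V [⋀^Fin 6]→ₗ[ℝ] ℝ) (L : V →ₗ[ℝ] V) :
    f (fun i => L (bv i)) = f bv * LinearMap.det L := by
  rw [alt_eq f]
  congr 1
  have hb : (fun i => L (bv i)) = L ∘ (Pi.basisFun ℝ (Fin 6)) := by
    funext i
    simp [bv]
  rw [hb, Module.Basis.det_comp, Module.Basis.det_self, mul_one]

/-- reindexing by a fixed permutation. -/
lemma sum_perm_reindex (τ : Equiv.Perm (Fin 6)) (G : (Fin 6 → Fin 6) → ℝ) :
    ∑ σ : Equiv.Perm (Fin 6), ((Equiv.Perm.sign σ : ℤ) : ℝ) * G (fun i => σ i) =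
      ((Equiv.Perm.sign τ : ℤ) : ℝ) *
      ∑ σ : Equiv.Perm (Fin 6), ((Equiv.Perm.sign σ : ℤ) : ℝ) * G (fun i => σ (τ i)) := by
  rw [Finset.mul_sum]
  rw [← Equiv.sum_comp (Equiv.mulRight τ) (fun σ : Equiv.Perm (Fin 6) =>
    ((Equiv.Perm.sign σ : ℤ) : ℝ) * G (fun i => σ i))]
  refine Finset.sum_congr rfl fun σ _ => ?_
  simp only [Equiv.coe_mulRight, Equiv.Perm.sign_mul, Equiv.Perm.coe_mul, Function.comp_apply,
    Units.val_mul, Int.cast_mul]
  ring

lemma T_swap12 (a b c : Bil) : T a b c = T b a c := by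
  unfold T
  rw [TA_apply, TA_apply]
  have := sum_perm_reindex (Equiv.swap 0 2 * Equiv.swap 1 3)
    (fun f => a (bv (f 0)) (bv (f 1)) * b (bv (f 2)) (bv (f 3)) * c (bv (f 4)) (bv (f 5)))
  rw [this]
  have hs : Equiv.Perm.sign ((Equiv.swap 0 2 * Equiv.swap 1 3 : Equiv.Perm (Fin 6))) = 1 := by
    decide
  rw [hs]
  simp only [Units.val_one, Int.cast_one, one_mul]
  refine Finset.sum_congr rfl fun σ _ => ?_
  have h0 : (Equiv.swap 0 2 * Equiv.swap 1 3 : Equiv.Perm (Fin 6)) 0 = 2 := by decide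
  have h1 : (Equiv.swap 0 2 * Equiv.swap 1 3 : Equiv.Perm (Fin 6)) 1 = 3 := by decide
  have h2 : (Equiv.swap 0 2 * Equiv.swap 1 3 : Equiv.Perm (Fin 6)) 2 = 0 := by decide
  have h3 : (Equiv.swap 0 2 * Equiv.swap 1 3 : Equiv.Perm (Fin 6)) 3 = 1 := by decide
  have h4 : (Equiv.swap 0 2 * Equiv.swap 1 3 : Equiv.Perm (Fin 6)) 4 = 4 := by decide
  have h5 : (Equiv.swap 0 2 * Equiv.swap 1 3 : Equiv.Perm (Fin 6)) 5 = 5 := by decide
  rw [h0, h1, h2, h3, h4, h5]
  ring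

lemma T_swap23 (a b c : Bil) : T a b c = T a c b := by
  unfold T
  rw [TA_apply, TA_apply]
  have := sum_perm_reindex (Equiv.swap 2 4 * Equiv.swap 3 5)
    (fun f => a (bv (f 0)) (bv (f 1)) * b (bv (f 2)) (bv (f 3)) * c (bv (f 4)) (bv (f 5)))
  rw [this]
  have hs : Equiv.Perm.sign ((Equiv.swap 2 4 * Equiv.swap 3 5 : Equiv.Perm (Fin 6))) = 1 := by
    decide
  rw [hs]
  simp only [Units.val_one, Int.cast_one, one_mul]
  refine Finset.sum_congr rfl fun σ _ => ?_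
  have h0 : (Equiv.swap 2 4 * Equiv.swap 3 5 : Equiv.Perm (Fin 6)) 0 = 0 := by decide
  have h1 : (Equiv.swap 2 4 * Equiv.swap 3 5 : Equiv.Perm (Fin 6)) 1 = 1 := by decide
  have h2 : (Equiv.swap 2 4 * Equiv.swap 3 5 : Equiv.Perm (Fin 6)) 2 = 4 := by decide
  have h3 : (Equiv.swap 2 4 * Equiv.swap 3 5 : Equiv.Perm (Fin 6)) 3 = 5 := by decide
  have h4 : (Equiv.swap 2 4 * Equiv.swap 3 5 : Equiv.Perm (Fin 6)) 4 = 2 := by decide
  have h5 : (Equiv.swap 2 4 * Equiv.swap 3 5 : Equiv.Perm (Fin 6)) 5 = 3 := by decide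
  rw [h0, h1, h2, h3, h4, h5]
  ring

lemma T_add (a a' b c : Bil) : T (a + a') b c = T a b c + T a' b c := by
  unfold T
  simp only [TA_apply]
  rw [← Finset.sum_add_distrib]
  refine Finset.sum_congr rfl fun σ _ => ?_
  simp only [add_apply]
  ring

lemma T_smul (r : ℝ) (a b c : Bil) : T (r • a) b c = r * T a b c := by
  unfold T
  simp only [TA_apply]
  rw [Finset.mul_sum]
  refine Finset.sum_congr rfl fun σ _ => ?_
  simp only [smul_apply, smul_eq_mul]
  ring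

/-- two forms supported on the same set of at most three indices have zero product. -/
lemma T_zero_of_support (a b c : Bil) (S : Finset (Fin 6)) (hS : S.card ≤ 3)
    (ha : ∀ i j, (i ∉ S ∨ j ∉ S) → a (bv i) (bv j) = 0)
    (hb : ∀ i j, (i ∉ S ∨ j ∉ S) → b (bv i) (bv j) = 0) : T a b c = 0 := by
  unfold T
  rw [TA_apply]
  refine Finset.sum_eq_zero fun σ _ => ?_
  by_cases h01 : σ 0 ∉ S ∨ σ 1 ∉ S
  · rw [ha _ _ h01]; ring
  by_cases h23 : σ 2 ∉ S ∨ σ 3 ∉ S
  · rw [hb _ _ h23]; ring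
  exfalso
  push Not at h01 h23
  have hsub : (Finset.image σ {0, 1, 2, 3}) ⊆ S := by
    intro x hx
    rw [Finset.mem_image] at hx
    obtain ⟨y, hy, rfl⟩ := hx
    fin_cases hy
    · exact h01.1
    · exact h01.2
    · exact h23.1
    · exact h23.2
  have hc := Finset.card_le_card hsub
  rw [Finset.card_image_of_injective _ σ.injective] at hc
  have : ({0, 1, 2, 3} : Finset (Fin 6)).card = 4 := by decide
  omega

/-- the integer version of `T` for integer matrices. -/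
def Tz (a b c : Fin 6 → Fin 6 → ℤ) : ℤ :=
  ∑ σ : Equiv.Perm (Fin 6), (Equiv.Perm.sign σ : ℤ) * (a (σ 0) (σ 1) * b (σ 2) (σ 3) * c (σ 4) (σ 5))

def Az : Fin 6 → Fin 6 → ℤ := fun i j =>
  if i = 0 ∧ j = 1 then 1 else if i = 1 ∧ j = 0 then -1 else 0
def Sz : Fin 6 → Fin 6 → ℤ := fun i j =>
  if i = 5 ∧ j = 4 then 1 else if i = 4 ∧ j = 5 then -1 else 0
def Ez (k l : Fin 6) : Fin 6 → Fin 6 → ℤ := fun i j => if i = k ∧ j = l then 1 else 0
def Jz : Fin 6 → Fin 6 → ℤ := fun i j =>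
  if (i = 0 ∧ j = 1) ∨ (i = 2 ∧ j = 3) ∨ (i = 4 ∧ j = 5) then 1
  else if (i = 1 ∧ j = 0) ∨ (i = 3 ∧ j = 2) ∨ (i = 5 ∧ j = 4) then -1 else 0

set_option maxRecDepth 100000 in
lemma Tz_J : Tz Jz Jz Jz = 48 := by decide +kernel

set_option maxRecDepth 100000 in
lemma Tz_table : ∀ k l : Fin 6, Tz Az (Ez k l) Sz =
    if k = 2 ∧ l = 3 then -4 else if k = 3 ∧ l = 2 then 4 else 0 := by decide +kernel

/-- evaluation of the product of `ds∧dt`, a general form and `dφ∧dθ`. -/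
lemma T_eval (a b c : Bil)
    (ha : ∀ i j, a (bv i) (bv j) = ((Az i j : ℤ) : ℝ))
    (hc : ∀ i j, c (bv i) (bv j) = ((Sz i j : ℤ) : ℝ)) :
    T a b c = 4 * (b (bv 3) (bv 2) - b (bv 2) (bv 3)) := by
  unfold T
  rw [TA_apply]
  have key : ∀ σ : Equiv.Perm (Fin 6), ((Equiv.Perm.sign σ : ℤ) : ℝ) *
      (a (bv (σ 0)) (bv (σ 1)) * b (bv (σ 2)) (bv (σ 3)) * c (bv (σ 4)) (bv (σ 5))) =
      ∑ k : Fin 6, ∑ l : Fin 6, b (bv k) (bv l) * (((Equiv.Perm.sign σ : ℤ) *
        (Az (σ 0) (σ 1) * Ez k l (σ 2) (σ 3) * Sz (σ 4) (σ 5)) : ℤ) : ℝ) := by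
    intro σ
    have h1 : ∀ k l : Fin 6, b (bv k) (bv l) * (((Equiv.Perm.sign σ : ℤ) *
        (Az (σ 0) (σ 1) * Ez k l (σ 2) (σ 3) * Sz (σ 4) (σ 5)) : ℤ) : ℝ) =
        if l = σ 3 then (if k = σ 2 then b (bv k) (bv l) * (((Equiv.Perm.sign σ : ℤ) *
        (Az (σ 0) (σ 1) * Sz (σ 4) (σ 5)) : ℤ) : ℝ) else 0) else 0 := by
      intro k l
      unfold Ez
      by_cases hk : k = σ 2
      · by_cases hl : l = σ 3
        · simp [hk, hl]
        · have : ¬ (σ 3 = l) := fun h => hl h.symm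
          simp [hl, this]
      · have : ¬ (σ 2 = k) := fun h => hk h.symm
        simp [hk, this]
    simp_rw [h1]
    rw [ha, hc]
    simp only [Finset.sum_ite_eq', Finset.mem_univ, if_true]
    push_cast
    ring
  rw [Finset.sum_congr rfl (fun σ _ => key σ)]
  rw [Finset.sum_comm]
  have h2 : ∀ k : Fin 6, ∑ σ : Equiv.Perm (Fin 6), ∑ l : Fin 6, b (bv k) (bv l) *
      (((Equiv.Perm.sign σ : ℤ) * (Az (σ 0) (σ 1) * Ez k l (σ 2) (σ 3) * Sz (σ 4) (σ 5)) : ℤ) : ℝ) =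
      ∑ l : Fin 6, b (bv k) (bv l) * ((Tz Az (Ez k l) Sz : ℤ) : ℝ) := by
    intro k
    rw [Finset.sum_comm]
    refine Finset.sum_congr rfl fun l _ => ?_
    rw [← Finset.mul_sum]
    unfold Tz
    push_cast
    rfl
  simp_rw [h2, Tz_table]
  simp [Fin.sum_univ_six]
  ring

end H711R4
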