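import Pool.Agent.H711R4.Alt

/-!
Degenerate and nondegenerate forms on `ℝ⁶`.
-/

namespace H711R4

open Finset

lemma sum_perm_zero (τ : Equiv.Perm (Fin 6)) (hτ : Equiv.Perm.sign τ = -1)
    (G : (Fin 6 → Fin 6) → ℝ) (hG : ∀ f : Fin 6 → Fin 6, G (fun i => f (τ i)) = G f) :
    ∑ σ : Equiv.Perm (Fin 6), ((Equiv.Perm.sign σ : ℤ) : ℝ) * G (fun i => σ i) = 0 := by
  have h := sum_perm_reindex τ G
  rw [hτ] at h
  have h2 : ∑ σ : Equiv.Perm (Fin 6), ((Equiv.Perm.sign σ : ℤ) : ℝ) * G (fun i => σ (τ i)) =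
      ∑ σ : Equiv.Perm (Fin 6), ((Equiv.Perm.sign σ : ℤ) : ℝ) * G (fun i => σ i) := by
    refine Finset.sum_congr rfl fun σ _ => ?_
    rw [hG (fun i => σ i)]
  rw [h2] at h
  push_cast at h
  linarith

/-- a decomposable two-form squares to zero. -/
lemma T_rank_two (a k : Bil) (x y : V →L[ℝ] ℝ) (hk : ∀ u v, k u v = x u * y v - x v * y u) :
    T a k k = 0 := by
  unfold T
  rw [TA_apply]
  have h1 := sum_perm_zero (Equiv.swap 2 4) (by decide) (fun f =>
    a (bv (f 0)) (bv (f 1)) * (x (bv (f 2)) * y (bv (f 3)) * (x (bv (f 4)) * y (bv (f 5)))))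
    (by
      intro f
      have e0 : (Equiv.swap (2 : Fin 6) 4) 0 = 0 := by decide
      have e1 : (Equiv.swap (2 : Fin 6) 4) 1 = 1 := by decide
      have e2 : (Equiv.swap (2 : Fin 6) 4) 2 = 4 := by decide
      have e3 : (Equiv.swap (2 : Fin 6) 4) 3 = 3 := by decide
      have e4 : (Equiv.swap (2 : Fin 6) 4) 4 = 2 := by decide
      have e5 : (Equiv.swap (2 : Fin 6) 4) 5 = 5 := by decide
      simp only [e0, e1, e2, e3, e4, e5]
      ring)
  have h2 := sum_perm_zero (Equiv.swap 2 5) (by decide) (fun f =>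
    a (bv (f 0)) (bv (f 1)) * (x (bv (f 2)) * y (bv (f 3)) * (x (bv (f 5)) * y (bv (f 4)))))
    (by
      intro f
      have e0 : (Equiv.swap (2 : Fin 6) 5) 0 = 0 := by decide
      have e1 : (Equiv.swap (2 : Fin 6) 5) 1 = 1 := by decide
      have e2 : (Equiv.swap (2 : Fin 6) 5) 2 = 5 := by decide
      have e3 : (Equiv.swap (2 : Fin 6) 5) 3 = 3 := by decide
      have e4 : (Equiv.swap (2 : Fin 6) 5) 4 = 4 := by decide
      have e5 : (Equiv.swap (2 : Fin 6) 5) 5 = 2 := by decide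
      simp only [e0, e1, e2, e3, e4, e5]
      ring)
  have h3 := sum_perm_zero (Equiv.swap 3 4) (by decide) (fun f =>
    a (bv (f 0)) (bv (f 1)) * (x (bv (f 3)) * y (bv (f 2)) * (x (bv (f 4)) * y (bv (f 5)))))
    (by
      intro f
      have e0 : (Equiv.swap (3 : Fin 6) 4) 0 = 0 := by decide
      have e1 : (Equiv.swap (3 : Fin 6) 4) 1 = 1 := by decide
      have e2 : (Equiv.swap (3 : Fin 6) 4) 2 = 2 := by decide
      have e3 : (Equiv.swap (3 : Fin 6) 4) 3 = 4 := by decide
      have e4 : (Equiv.swap (3 : Fin 6) 4) 4 = 3 := by decide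
      have e5 : (Equiv.swap (3 : Fin 6) 4) 5 = 5 := by decide
      simp only [e0, e1, e2, e3, e4, e5]
      ring)
  have h4 := sum_perm_zero (Equiv.swap 3 5) (by decide) (fun f =>
    a (bv (f 0)) (bv (f 1)) * (x (bv (f 3)) * y (bv (f 2)) * (x (bv (f 5)) * y (bv (f 4)))))
    (by
      intro f
      have e0 : (Equiv.swap (3 : Fin 6) 5) 0 = 0 := by decide
      have e1 : (Equiv.swap (3 : Fin 6) 5) 1 = 1 := by decide
      have e2 : (Equiv.swap (3 : Fin 6) 5) 2 = 2 := by decide
      have e3 : (Equiv.swap (3 : Fin 6) 5) 3 = 5 := by decide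
      have e4 : (Equiv.swap (3 : Fin 6) 5) 4 = 4 := by decide
      have e5 : (Equiv.swap (3 : Fin 6) 5) 5 = 3 := by decide
      simp only [e0, e1, e2, e3, e4, e5]
      ring)
  have hsum : ∑ σ : Equiv.Perm (Fin 6), ((Equiv.Perm.sign σ : ℤ) : ℝ) *
      (a (bv (σ 0)) (bv (σ 1)) * k (bv (σ 2)) (bv (σ 3)) * k (bv (σ 4)) (bv (σ 5))) =
      (∑ σ : Equiv.Perm (Fin 6), ((Equiv.Perm.sign σ : ℤ) : ℝ) * (a (bv (σ 0)) (bv (σ 1)) *
        (x (bv (σ 2)) * y (bv (σ 3)) * (x (bv (σ 4)) * y (bv (σ 5)))))) -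
      (∑ σ : Equiv.Perm (Fin 6), ((Equiv.Perm.sign σ : ℤ) : ℝ) * (a (bv (σ 0)) (bv (σ 1)) *
        (x (bv (σ 2)) * y (bv (σ 3)) * (x (bv (σ 5)) * y (bv (σ 4)))))) -
      (∑ σ : Equiv.Perm (Fin 6), ((Equiv.Perm.sign σ : ℤ) : ℝ) * (a (bv (σ 0)) (bv (σ 1)) *
        (x (bv (σ 3)) * y (bv (σ 2)) * (x (bv (σ 4)) * y (bv (σ 5)))))) +
      (∑ σ : Equiv.Perm (Fin 6), ((Equiv.Perm.sign σ : ℤ) : ℝ) * (a (bv (σ 0)) (bv (σ 1)) *
        (x (bv (σ 3)) * y (bv (σ 2)) * (x (bv (σ 5)) * y (bv (σ 4)))))) := by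
    rw [← Finset.sum_sub_distrib, ← Finset.sum_sub_distrib, ← Finset.sum_add_distrib]
    refine Finset.sum_congr rfl fun σ _ => ?_
    rw [hk, hk]
    ring
  rw [hsum]
  simp only at h1 h2 h3 h4
  rw [h1, h2, h3, h4]
  ring

/-- on a symplectic basis the cube is `48`. -/
lemma TA_symplectic (w : Bil) (v : Fin 6 → V)
    (hv : ∀ i j, w (v i) (v j) = ((Jz i j : ℤ) : ℝ)) : TA w w w v = 48 := by
  rw [TA_apply]
  simp_rw [hv]
  have := Tz_J
  unfold Tz at this
  exact_mod_cast this

/-- nondegenerate alternating forms have nonzero cube. -/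
lemma T_ne_zero (w : Bil) (halt : ∀ u, w u u = 0) (hnd : ∀ u, u ≠ 0 → ∃ v, w u v ≠ 0) :
    T w w w ≠ 0 := by
  intro h0
  have hskew : ∀ u v, w u v = - w v u := by
    intro u v
    have h := halt (u + v)
    simp only [map_add, add_apply] at h
    rw [halt u, halt v] at h
    linarith
  have hpair : ∀ u, u ≠ 0 → ∃ v, w u v = 1 := by
    intro u hu
    obtain ⟨v, hv⟩ := hnd u hu
    refine ⟨(w u v)⁻¹ • v, ?_⟩
    rw [map_smul, smul_eq_mul, inv_mul_cancel₀ hv]
  -- the span of k < 6 vectors is not everything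
  have hspan : ∀ (S : Finset V), S.card < 6 → ∃ u : V, u ∉ Submodule.span ℝ (S : Set V) := by
    intro S hS
    by_contra hcon
    push Not at hcon
    have htop : Submodule.span ℝ (S : Set V) = ⊤ := by
      rw [Submodule.eq_top_iff']
      exact hcon
    have h1 := finrank_span_finset_le_card (R := ℝ) S
    rw [Set.finrank, htop, finrank_top] at h1
    simp at h1
    omega
  -- choose the basis
  obtain ⟨v0, hv0⟩ := hspan ∅ (by simp)
  have hv0' : v0 ≠ 0 := by
    rintro rfl
    exact hv0 (Submodule.zero_mem _)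
  obtain ⟨v1, h01⟩ := hpair v0 hv0'
  have h10 : w v1 v0 = -1 := by rw [hskew, h01]
  -- projection orthogonal to v0, v1
  obtain ⟨u, hu⟩ := hspan {v0, v1} (by
    calc ({v0, v1} : Finset V).card ≤ 2 := Finset.card_le_two
      _ < 6 := by norm_num)
  set v2 : V := u - w u v1 • v0 + w u v0 • v1 with hv2
  have hv2ne : v2 ≠ 0 := by
    intro h
    apply hu
    have : u = w u v1 • v0 - w u v0 • v1 := by
      have : u - w u v1 • v0 + w u v0 • v1 = 0 := by rw [← hv2]; exact h
      have h3 : u = (u - w u v1 • v0 + w u v0 • v1) + (w u v1 • v0 - w u v0 • v1) := by abel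
      rw [this, zero_add] at h3
      exact h3
    rw [this]
    apply Submodule.sub_mem
    · apply Submodule.smul_mem
      apply Submodule.subset_span
      simp
    · apply Submodule.smul_mem
      apply Submodule.subset_span
      simp
  have h20 : w v2 v0 = 0 := by
    rw [hv2]
    simp only [map_add, map_sub, map_smul, add_apply, sub_apply, smul_apply, smul_eq_mul]
    rw [halt v0, h10]
    ring
  have h21 : w v2 v1 = 0 := by
    rw [hv2]
    simp only [map_add, map_sub, map_smul, add_apply, sub_apply, smul_apply, smul_eq_mul]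
    rw [halt v1, h01]
    ring
  have h02 : w v0 v2 = 0 := by rw [hskew, h20, neg_zero]
  have h12 : w v1 v2 = 0 := by rw [hskew, h21, neg_zero]
  obtain ⟨x, hx⟩ := hpair v2 hv2ne
  set v3 : V := x - w x v1 • v0 + w x v0 • v1 with hv3
  have h30 : w v3 v0 = 0 := by
    rw [hv3]
    simp only [map_add, map_sub, map_smul, add_apply, sub_apply, smul_apply, smul_eq_mul]
    rw [halt v0, h10]
    ring
  have h31 : w v3 v1 = 0 := by
    rw [hv3]
    simp only [map_add, map_sub, map_smul, add_apply, sub_apply, smul_apply, smul_eq_mul]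
    rw [halt v1, h01]
    ring
  have h23 : w v2 v3 = 1 := by
    rw [hv3]
    simp only [map_add, map_sub, map_smul, smul_eq_mul]
    rw [h20, h21, hx]
    ring
  have h03 : w v0 v3 = 0 := by rw [hskew, h30, neg_zero]
  have h13 : w v1 v3 = 0 := by rw [hskew, h31, neg_zero]
  have h32 : w v3 v2 = -1 := by rw [hskew, h23]
  obtain ⟨y, hy⟩ := hspan {v0, v1, v2, v3} (by
    calc ({v0, v1, v2, v3} : Finset V).card ≤ 4 := Finset.card_le_four
      _ < 6 := by norm_num)
  set v4 : V := y - w y v1 • v0 + w y v0 • v1 - w y v3 • v2 + w y v2 • v3 with hv4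
  have hv4ne : v4 ≠ 0 := by
    intro h
    apply hy
    have : y = w y v1 • v0 - w y v0 • v1 + w y v3 • v2 - w y v2 • v3 := by
      have h2 : y - w y v1 • v0 + w y v0 • v1 - w y v3 • v2 + w y v2 • v3 = 0 := by
        rw [← hv4]; exact h
      have h3 : y = (y - w y v1 • v0 + w y v0 • v1 - w y v3 • v2 + w y v2 • v3) +
          (w y v1 • v0 - w y v0 • v1 + w y v3 • v2 - w y v2 • v3) := by abel
      rw [h2, zero_add] at h3
      exact h3
    rw [this]
    apply Submodule.sub_mem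
    · apply Submodule.add_mem
      · apply Submodule.sub_mem
        · apply Submodule.smul_mem
          apply Submodule.subset_span
          simp
        · apply Submodule.smul_mem
          apply Submodule.subset_span
          simp
      · apply Submodule.smul_mem
        apply Submodule.subset_span
        simp
    · apply Submodule.smul_mem
      apply Submodule.subset_span
      simp
  have orth : ∀ z : V, (w (z - w z v1 • v0 + w z v0 • v1 - w z v3 • v2 + w z v2 • v3) v0 = 0) ∧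
      (w (z - w z v1 • v0 + w z v0 • v1 - w z v3 • v2 + w z v2 • v3) v1 = 0) ∧
      (w (z - w z v1 • v0 + w z v0 • v1 - w z v3 • v2 + w z v2 • v3) v2 = 0) ∧
      (w (z - w z v1 • v0 + w z v0 • v1 - w z v3 • v2 + w z v2 • v3) v3 = 0) := by
    intro z
    simp only [map_add, map_sub, map_smul, add_apply, sub_apply, smul_apply, smul_eq_mul]
    refine ⟨?_, ?_, ?_, ?_⟩
    · rw [halt v0, h10, h20, h30]; ring
    · rw [halt v1, h01, h21, h31]; ring
    · rw [halt v2, h02, h12, h32]; ring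
    · rw [halt v3, h03, h13, h23]; ring
  obtain ⟨h40, h41, h42, h43⟩ := orth y
  rw [← hv4] at h40 h41 h42 h43
  have h04 : w v0 v4 = 0 := by rw [hskew, h40, neg_zero]
  have h14 : w v1 v4 = 0 := by rw [hskew, h41, neg_zero]
  have h24 : w v2 v4 = 0 := by rw [hskew, h42, neg_zero]
  have h34 : w v3 v4 = 0 := by rw [hskew, h43, neg_zero]
  obtain ⟨z, hz⟩ := hpair v4 hv4ne
  obtain ⟨h50, h51, h52, h53⟩ := orth z
  set v5 : V := z - w z v1 • v0 + w z v0 • v1 - w z v3 • v2 + w z v2 • v3 with hv5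
  have h05 : w v0 v5 = 0 := by rw [hskew, h50, neg_zero]
  have h15 : w v1 v5 = 0 := by rw [hskew, h51, neg_zero]
  have h25 : w v2 v5 = 0 := by rw [hskew, h52, neg_zero]
  have h35 : w v3 v5 = 0 := by rw [hskew, h53, neg_zero]
  have h45 : w v4 v5 = 1 := by
    rw [hv5]
    simp only [map_add, map_sub, map_smul, smul_eq_mul]
    rw [h40, h41, h42, h43, hz]
    ring
  have h54 : w v5 v4 = -1 := by rw [hskew, h45]
  have h48 := TA_symplectic w ![v0, v1, v2, v3, v4, v5] (by
    intro i j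
    fin_cases i <;> fin_cases j <;>
    simp [Jz, halt, h01, h02, h03, h04, h05, h10, h12, h13, h14, h15, h20, h21, h23, h24, h25,
      h30, h31, h32, h34, h35, h40, h41, h42, h43, h45, h50, h51, h52, h53, h54])
  rw [alt_eq] at h48
  have : TA w w w bv = 0 := h0
  rw [this, zero_mul] at h48
  norm_num at h48

end H711R4
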