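import Pool.Agent.H711R4.Fin1

/-!
The standard area form on `S²`.
-/

open scoped Manifold ContDiff
open Set Filter Topology Real

namespace H711R4

open FourSix

noncomputable def c3 (i : Fin 3) : E3 →L[ℝ] ℝ := EuclideanSpace.proj i

/-- `(u, v) ↦ det (x, u, v)` -/
noncomputable def vol3 (x : E3) : E3 →L[ℝ] E3 →L[ℝ] ℝ :=
  c3 0 x • gwedge (c3 1) (c3 2) + c3 1 x • gwedge (c3 2) (c3 0) + c3 2 x • gwedge (c3 0) (c3 1)

lemma vol3_apply (x u v : E3) : vol3 x u v = x 0 * (u 1 * v 2 - v 1 * u 2) +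
    x 1 * (u 2 * v 0 - v 2 * u 0) + x 2 * (u 0 * v 1 - v 0 * u 1) := by
  have h : ∀ i (y : E3), c3 i y = y i := fun i y => rfl
  simp only [vol3, add_apply, smul_apply, gwedge_apply, h, smul_eq_mul]
  ring

lemma vol3_contDiffAt (x : E3) : ContDiffAt ℝ ∞ vol3 x := by
  refine contDiffAt_clm_apply' fun u => contDiffAt_clm_apply' fun v => ?_
  simp_rw [vol3_apply]
  have h : ∀ i : Fin 3, ContDiffAt ℝ ∞ (fun y : E3 => y i) x := fun i => (c3 i).contDiff.contDiffAt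
  exact (((h 0).mul contDiffAt_const).add ((h 1).mul contDiffAt_const)).add
    ((h 2).mul contDiffAt_const)

/-- the same, as a form on the manifold `ℝ³`. -/
noncomputable def vol3F : Form 𝓘(ℝ, E3) E3 := fun x => (vol3 x : E3 →L[ℝ] E3 →L[ℝ] ℝ)

/-- the standard area form on the sphere. -/
noncomputable def sig0 : Form (𝓡 2) S2 := pullback (I := 𝓡 2) (Subtype.val : S2 → E3) vol3F

lemma sig0_apply (q : S2) (u v : E2) : (sig0 q : E2 →L[ℝ] E2 →L[ℝ] ℝ) u v =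
    vol3 q ((mfderiv (𝓡 2) 𝓘(ℝ, E3) (Subtype.val : S2 → E3) q : E2 →L[ℝ] E3) u)
      ((mfderiv (𝓡 2) 𝓘(ℝ, E3) (Subtype.val : S2 → E3) q : E2 →L[ℝ] E3) v) := rfl

lemma closed_plane (B : E2 → E2 →L[ℝ] E2 →L[ℝ] ℝ) (hB : ∀ z v, B z v v = 0) (z : E2)
    (hd : DifferentiableAt ℝ B z) (u v w : E2) :
    fderiv ℝ B z u v w + fderiv ℝ B z v w u + fderiv ℝ B z w u v = 0 := by
  have halt : ∀ a v, fderiv ℝ B z a v v = 0 := by
    intro a v
    have h1 : HasFDerivAt (fun x => B x v v) _ z := hasFDerivAt_coef_gen B z hd v v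
    have h2 : (fun x => B x v v) = fun _ => (0 : ℝ) := funext fun x => hB x v
    rw [h2] at h1
    have h3 := congrArg (fun (L : E2 →L[ℝ] ℝ) => L a) (h1.unique (hasFDerivAt_const (0 : ℝ) z))
    simpa using h3
  have hlin : ∀ a : E2, fderiv ℝ B z a (EuclideanSpace.single 0 1) (EuclideanSpace.single 1 1) =
      a 0 * fderiv ℝ B z (EuclideanSpace.single 0 1) (EuclideanSpace.single 0 1)
        (EuclideanSpace.single 1 1) +
      a 1 * fderiv ℝ B z (EuclideanSpace.single 1 1) (EuclideanSpace.single 0 1)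
        (EuclideanSpace.single 1 1) := by
    intro a
    have ha : a = a 0 • EuclideanSpace.single 0 (1 : ℝ) +
        a 1 • EuclideanSpace.single 1 (1 : ℝ) := by
      ext i
      fin_cases i <;> simp
    conv_lhs => rw [ha]
    simp only [map_add, map_smul, add_apply, smul_apply, smul_eq_mul]
  rw [bil_plane _ (halt u) v w, bil_plane _ (halt v) w u, bil_plane _ (halt w) u v,
    hlin u, hlin v, hlin w]
  ring

lemma sig0_nondeg (q : S2) (v : E2) (hv : v ≠ 0) :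
    ∃ w : E2, (sig0 q : E2 →L[ℝ] E2 →L[ℝ] ℝ) v w ≠ 0 := by
  set ι : E2 →L[ℝ] E3 := mfderiv (𝓡 2) 𝓘(ℝ, E3) (Subtype.val : S2 → E3) q with hι
  set a : E3 := ι v with ha
  have hinj : Function.Injective ι := mfderiv_coe_sphere_injective (n := 2) q
  have ha0 : a ≠ 0 := by
    intro h
    exact hv (hinj (by rw [map_zero]; exact h))
  have hrange : ι.range = (Submodule.span ℝ {(q : E3)})ᗮ := range_mfderiv_coe_sphere (n := 2) q
  have hmem : ∀ y : E3, y ∈ (Submodule.span ℝ {(q : E3)})ᗮ ↔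
      (q : E3) 0 * y 0 + (q : E3) 1 * y 1 + (q : E3) 2 * y 2 = 0 := by
    intro y
    rw [Submodule.mem_orthogonal_singleton_iff_inner_right, PiLp.inner_apply,
      Fin.sum_univ_three]
    simp [mul_comm]
  have haq : (q : E3) 0 * a 0 + (q : E3) 1 * a 1 + (q : E3) 2 * a 2 = 0 := by
    rw [← hmem, ← hrange]
    exact ⟨v, rfl⟩
  set n : E3 := WithLp.toLp 2 ![(q : E3) 1 * a 2 - (q : E3) 2 * a 1,
    (q : E3) 2 * a 0 - (q : E3) 0 * a 2, (q : E3) 0 * a 1 - (q : E3) 1 * a 0] with hn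
  have n0 : n 0 = (q : E3) 1 * a 2 - (q : E3) 2 * a 1 := rfl
  have n1 : n 1 = (q : E3) 2 * a 0 - (q : E3) 0 * a 2 := rfl
  have n2 : n 2 = (q : E3) 0 * a 1 - (q : E3) 1 * a 0 := rfl
  have hnq : n ∈ ι.range := by
    rw [hrange, hmem, n0, n1, n2]
    ring
  obtain ⟨w, hw⟩ := hnq
  refine ⟨w, ?_⟩
  have hval : (sig0 q : E2 →L[ℝ] E2 →L[ℝ] ℝ) v w = vol3 q a n := by
    have h1 : (sig0 q : E2 →L[ℝ] E2 →L[ℝ] ℝ) v w = vol3 q (ι v) (ι w) := sig0_apply q v w
    have h2 : ι w = n := hw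
    exact h1.trans (congrArg (vol3 q a) h2)
  have hq1 : (q : E3) 0 ^ 2 + (q : E3) 1 ^ 2 + (q : E3) 2 ^ 2 = 1 := by
    have := q.2
    rw [mem_sphere_zero_iff_norm, EuclideanSpace.norm_eq, Real.sqrt_eq_one] at this
    simpa [Fin.sum_univ_three] using this
  have hvol : vol3 q a n = a 0 ^ 2 + a 1 ^ 2 + a 2 ^ 2 := by
    rw [vol3_apply, n0, n1, n2]
    linear_combination (a 0 ^ 2 + a 1 ^ 2 + a 2 ^ 2) * hq1 -
      ((q : E3) 0 * a 0 + (q : E3) 1 * a 1 + (q : E3) 2 * a 2) * haq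
  have hne : a 0 ^ 2 + a 1 ^ 2 + a 2 ^ 2 ≠ 0 := by
    intro h
    apply ha0
    have h0 : a 0 = 0 := by nlinarith [sq_nonneg (a 0), sq_nonneg (a 1), sq_nonneg (a 2)]
    have h1 : a 1 = 0 := by nlinarith [sq_nonneg (a 0), sq_nonneg (a 1), sq_nonneg (a 2)]
    have h2 : a 2 = 0 := by nlinarith [sq_nonneg (a 0), sq_nonneg (a 1), sq_nonneg (a 2)]
    ext i
    fin_cases i
    · exact h0
    · exact h1
    · exact h2
  have hfin : (sig0 q : E2 →L[ℝ] E2 →L[ℝ] ℝ) v w ≠ 0 := by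
    rw [hval, hvol]
    exact hne
  exact hfin

theorem sig0_symplectic : IsSymplectic sig0 := by
  have halt : ∀ (q : S2) (v : E2), (sig0 q : E2 →L[ℝ] E2 →L[ℝ] ℝ) v v = 0 := by
    intro q v
    rw [sig0_apply, vol3_apply]
    ring
  -- local expression
  have hloc : ∀ (q : S2), ∀ z ∈ (extChartAt (𝓡 2) q).target,
      inChart sig0 q z = vpull ((Subtype.val : S2 → E3) ∘ (extChartAt (𝓡 2) q).symm) vol3 z ∧
      ContDiffAt ℝ ∞ ((Subtype.val : S2 → E3) ∘ (extChartAt (𝓡 2) q).symm) z := by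
    intro q z hz
    have h1 : ContMDiffAt 𝓘(ℝ, E2) (𝓡 2) ∞ (extChartAt (𝓡 2) q).symm z :=
      (contMDiffOn_extChartAt_symm (I := 𝓡 2) (n := ∞) q).contMDiffAt
        ((isOpen_extChartAt_target (I := 𝓡 2) q).mem_nhds hz)
    have h2 : ContMDiffAt (𝓡 2) 𝓘(ℝ, E3) ∞ (Subtype.val : S2 → E3)
        ((extChartAt (𝓡 2) q).symm z) := contMDiff_coe_sphere (m := ∞) _
    have h3 : ContMDiffAt 𝓘(ℝ, E2) 𝓘(ℝ, E3) ∞
        ((Subtype.val : S2 → E3) ∘ (extChartAt (𝓡 2) q).symm) z := h2.comp z h1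
    refine ⟨?_, h3.contDiffAt⟩
    have h4 : inChart sig0 q z =
        plot ((Subtype.val : S2 → E3) ∘ (extChartAt (𝓡 2) q).symm) vol3F z :=
      plot_pullback (I := 𝓡 2) (I' := 𝓘(ℝ, E3)) (extChartAt (𝓡 2) q).symm
        (Subtype.val : S2 → E3) vol3F z (h1.mdifferentiableAt (by simp))
        (h2.mdifferentiableAt (by simp))
    rw [h4]
    ext u v
    rw [vpull_apply]
    have h5 := plot_apply ((Subtype.val : S2 → E3) ∘ (extChartAt (𝓡 2) q).symm) vol3F z u v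
    rw [mfderiv_eq_fderiv] at h5
    exact h5
  have hsm : ∀ (q : S2), ∀ z ∈ (extChartAt (𝓡 2) q).target,
      ContDiffAt ℝ ∞ (inChart sig0 q) z := by
    intro q z hz
    have h1 : inChart sig0 q =ᶠ[𝓝 z]
        vpull ((Subtype.val : S2 → E3) ∘ (extChartAt (𝓡 2) q).symm) vol3 := by
      filter_upwards [(isOpen_extChartAt_target (I := 𝓡 2) q).mem_nhds hz] with y hy
      exact (hloc q y hy).1
    exact (contDiffAt_vpull _ _ z (vol3_contDiffAt _) (hloc q z hz).2).congr_of_eventuallyEq h1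
  refine ⟨halt, ?_, fun q z hz => (hsm q z hz).contDiffWithinAt, ?_⟩
  · intro q v hv
    exact sig0_nondeg q v hv
  · intro q z hz u v w
    refine closed_plane (inChart sig0 q) ?_ z ((hsm q z hz).differentiableAt (by simp)) u v w
    intro z v
    rw [inChart_apply]
    exact halt _ _

end H711R4
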