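import Pool.Agent.H711R4.Stokes

/-!
Integration over boxes: one coordinate at a time; invariance under shears.
-/

namespace H711R4

open Finset MeasureTheory Set

lemma insertNth_add_single {n : ℕ} (i : Fin (n + 1)) (u v : ℝ) (y : Fin n → ℝ) :
    (i.insertNth (u + v) y : Fin (n + 1) → ℝ) = i.insertNth u y + v • Pi.single i (1 : ℝ) := by
  funext j
  refine Fin.succAboveCases i ?_ ?_ j
  · simp
  · intro k
    simp

lemma continuous_insertNth {n : ℕ} (i : Fin (n + 1)) :
    Continuous (fun q : ℝ × (Fin n → ℝ) => (i.insertNth q.1 q.2 : Fin (n + 1) → ℝ)) := by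
  refine continuous_pi fun j => ?_
  refine Fin.succAboveCases i ?_ ?_ j
  · simp only [Fin.insertNth_apply_same]
    exact continuous_fst
  · intro k
    simp only [Fin.insertNth_apply_succAbove]
    exact (continuous_apply k).comp continuous_snd

lemma Icc_preimage {n : ℕ} (i : Fin (n + 1)) (a b : Fin (n + 1) → ℝ) :
    (MeasurableEquiv.piFinSuccAbove (fun _ => ℝ) i).symm ⁻¹' (Icc a b) =
      (Icc (a i) (b i)) ×ˢ (Icc (a ∘ i.succAbove) (b ∘ i.succAbove)) := by
  ext ⟨u, y⟩
  simp only [Set.mem_preimage, Set.mem_Icc, Set.mem_prod, Pi.le_def,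
    MeasurableEquiv.piFinSuccAbove_symm_apply, Function.comp_apply]
  constructor
  · rintro ⟨h1, h2⟩
    refine ⟨⟨?_, ?_⟩, ?_, ?_⟩
    · simpa using h1 i
    · simpa using h2 i
    · intro k
      simpa using h1 (i.succAbove k)
    · intro k
      simpa using h2 (i.succAbove k)
  · rintro ⟨⟨h1, h2⟩, h3, h4⟩
    constructor
    · intro j
      refine Fin.succAboveCases i ?_ ?_ j
      · simpa using h1
      · intro k
        simpa using h3 k
    · intro j
      refine Fin.succAboveCases i ?_ ?_ j
      · simpa using h2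
      · intro k
        simpa using h4 k

/-- integrate one coordinate first. -/
lemma coord_int {n : ℕ} (i : Fin (n + 1)) (a b : Fin (n + 1) → ℝ) (hab : a ≤ b)
    (F : (Fin (n + 1) → ℝ) → ℝ) (hF : Continuous F) :
    ∫ x in Icc a b, F x = ∫ y in Icc (a ∘ i.succAbove) (b ∘ i.succAbove),
      ∫ u in (a i)..(b i), F (i.insertNth u y) := by
  have hmp := (volume_preserving_piFinSuccAbove (fun _ : Fin (n + 1) => ℝ) i).symm
  have h1 := hmp.setIntegral_preimage_emb
    (MeasurableEquiv.piFinSuccAbove (fun _ => ℝ) i).symm.measurableEmbedding F (Icc a b)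
  rw [← h1, Icc_preimage]
  have hvol : (volume : Measure (ℝ × (Fin n → ℝ))) = (volume : Measure ℝ).prod volume := rfl
  rw [hvol]
  have hcont : Continuous (fun q : ℝ × (Fin n → ℝ) =>
      F ((MeasurableEquiv.piFinSuccAbove (fun _ => ℝ) i).symm q)) :=
    hF.comp (continuous_insertNth i)
  have hint : IntegrableOn (fun q : ℝ × (Fin n → ℝ) =>
      F ((MeasurableEquiv.piFinSuccAbove (fun _ => ℝ) i).symm q))
      ((Icc (a i) (b i)) ×ˢ (Icc (a ∘ i.succAbove) (b ∘ i.succAbove)))
      ((volume : Measure ℝ).prod volume) := by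
    apply ContinuousOn.integrableOn_compact
    · exact isCompact_Icc.prod isCompact_Icc
    · exact hcont.continuousOn
  rw [← Measure.prod_restrict] at *
  have h2 := MeasureTheory.integral_prod_symm
    (fun q : ℝ × (Fin n → ℝ) => F ((MeasurableEquiv.piFinSuccAbove (fun _ => ℝ) i).symm q))
    (μ := (volume : Measure ℝ).restrict (Icc (a i) (b i)))
    (ν := (volume : Measure (Fin n → ℝ)).restrict (Icc (a ∘ i.succAbove) (b ∘ i.succAbove)))
    (by
      unfold IntegrableOn at hint
      rwa [Measure.prod_restrict])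
  rw [h2]
  refine integral_congr_ae (Filter.Eventually.of_forall fun y => ?_)
  simp only
  rw [intervalIntegral.integral_of_le (hab i), ← integral_Icc_eq_integral_Ioc]
  rfl

/-- a shear in a periodic coordinate does not change the integral over the box. -/
lemma shear_int {n : ℕ} (i : Fin (n + 1)) (a b : Fin (n + 1) → ℝ) (hab : a ≤ b)
    (hi : b i = a i + 1)
    (F : (Fin (n + 1) → ℝ) → ℝ) (hF : Continuous F)
    (hper : ∀ x, F (x + Pi.single i (1 : ℝ)) = F x)
    (g : (Fin (n + 1) → ℝ) → ℝ) (hg : Continuous g)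
    (hgi : ∀ u y, g (i.insertNth u y) = g (i.insertNth 0 y)) :
    ∫ x in Icc a b, F (x + g x • Pi.single i (1 : ℝ)) = ∫ x in Icc a b, F x := by
  rw [coord_int i a b hab F hF, coord_int i a b hab
    (fun x => F (x + g x • Pi.single i (1 : ℝ)))
    (hF.comp (continuous_id.add (hg.smul continuous_const)))]
  refine integral_congr_ae (Filter.Eventually.of_forall fun y => ?_)
  simp only
  have h1 : ∀ u : ℝ, (i.insertNth u y : Fin (n + 1) → ℝ) + g (i.insertNth u y) •
      Pi.single i (1 : ℝ) = i.insertNth (u + g (i.insertNth 0 y)) y := by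
    intro u
    rw [insertNth_add_single, hgi u y]
  simp_rw [h1]
  have hp : Function.Periodic (fun u : ℝ => F (i.insertNth u y)) 1 := by
    intro u
    simp only
    have := hper (i.insertNth u y)
    rw [← this]
    congr 1
    rw [insertNth_add_single, one_smul]
  rw [intervalIntegral.integral_comp_add_right (fun u => F (i.insertNth u y))]
  rw [hi]
  have := hp.intervalIntegral_add_eq (a i + g (i.insertNth 0 y)) (a i)
  rw [← this]
  congr 1
  ring

end H711R4
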