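import Pool.Agent.H711R4.Param

/-!
Averaging closed two-forms over periodic translations (in a general normed space).
-/

namespace H711R4

open MeasureTheory Set Filter Topology
open scoped ContDiff

section avg

variable {E : Type} [NormedAddCommGroup E] [NormedSpace ℝ E] [ProperSpace E]
variable (e : E)

omit [ProperSpace E] in
/-- derivative of a coefficient of a form -/
lemma hasFDerivAt_coef_gen (W : E → E →L[ℝ] E →L[ℝ] ℝ) (q : E) (hb : DifferentiableAt ℝ W q)
    (x y : E) : HasFDerivAt (fun q => W q x y) ((ContinuousLinearMap.apply ℝ ℝ y).comp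
          ((ContinuousLinearMap.apply ℝ (E →L[ℝ] ℝ) x).comp (fderiv ℝ W q))) q := by
  have h0 : HasFDerivAt (fun p => W p x)
      ((ContinuousLinearMap.apply ℝ (E →L[ℝ] ℝ) x).comp (fderiv ℝ W q)) q := by
    have h := hb.hasFDerivAt.clm_apply (hasFDerivAt_const x q)
    refine h.congr_fderiv ?_
    ext u v
    simp
  exact (ContinuousLinearMap.apply ℝ ℝ y).hasFDerivAt.comp q h0

/-- derivative of a coefficient of a form -/
lemma hasFDerivAt_coef' (W : E → E →L[ℝ] E →L[ℝ] ℝ) (q : E) (hb : DifferentiableAt ℝ W q)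
    (x y : E) : HasFDerivAt (fun q => W q x y) ((ContinuousLinearMap.apply ℝ ℝ y).comp
          ((ContinuousLinearMap.apply ℝ (E →L[ℝ] ℝ) x).comp (fderiv ℝ W q))) q := by
  have h0 : HasFDerivAt (fun p => W p x)
      ((ContinuousLinearMap.apply ℝ (E →L[ℝ] ℝ) x).comp (fderiv ℝ W q)) q := by
    have h := hb.hasFDerivAt.clm_apply (hasFDerivAt_const x q)
    refine h.congr_fderiv ?_
    ext u v
    simp
  exact (ContinuousLinearMap.apply ℝ ℝ y).hasFDerivAt.comp q h0

lemma fderiv_contr (W : E → E →L[ℝ] E →L[ℝ] ℝ) (q : E) (hb : DifferentiableAt ℝ W q)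
    (x u v : E) : fderiv ℝ (fun q => W q x) q u v = fderiv ℝ W q u x v := by
  have h0 : HasFDerivAt (fun p => W p x)
      ((ContinuousLinearMap.apply ℝ (E →L[ℝ] ℝ) x).comp (fderiv ℝ W q)) q := by
    have h := hb.hasFDerivAt.clm_apply (hasFDerivAt_const x q)
    refine h.congr_fderiv ?_
    ext u v
    simp
  rw [h0.fderiv]
  simp

/-- wedge product of two linear forms -/
noncomputable def gwedge (x y : E →L[ℝ] ℝ) : E →L[ℝ] E →L[ℝ] ℝ := x.smulRight y - y.smulRight x

lemma gwedge_apply (x y : E →L[ℝ] ℝ) (u v : E) : gwedge x y u v = x u * y v - y u * x v := by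
  simp [gwedge]

lemma contDiff_gwedge (x : E →L[ℝ] ℝ) (y : E → E →L[ℝ] ℝ) (hy : ContDiff ℝ ∞ y) :
    ContDiff ℝ ∞ (fun p => gwedge x (y p)) := by
  unfold gwedge
  exact (contDiff_const.smulRight hy).sub (hy.smulRight contDiff_const)

lemma fderiv_gwedge (x : E →L[ℝ] ℝ) (y : E → E →L[ℝ] ℝ) (hy : ContDiff ℝ ∞ y) (p u v w : E) :
    fderiv ℝ (fun p => gwedge x (y p)) p u v w = x v * fderiv ℝ y p u w - fderiv ℝ y p u v * x w := by
  have hd := (contDiff_gwedge x y hy).differentiable (by simp) p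
  have h1 := hasFDerivAt_coef' (fun p => gwedge x (y p)) p hd v w
  have hyd := hy.differentiable (by simp) p
  have hyc : ∀ z, HasFDerivAt (fun q => y q z) ((ContinuousLinearMap.apply ℝ ℝ z).comp
      (fderiv ℝ y p)) p := fun z =>
    (ContinuousLinearMap.apply ℝ ℝ z).hasFDerivAt.comp _ hyd.hasFDerivAt
  have h2 := ((hyc w).const_mul (x v)).sub ((hyc v).mul_const (x w))
  have e : (fun p => gwedge x (y p) v w) = fun p => x v * y p w - y p v * x w := by
    funext p
    exact gwedge_apply _ _ _ _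
  rw [e] at h1
  have h3 := congrArg (fun (L : E →L[ℝ] ℝ) => L u) (h1.unique h2)
  simp only [ContinuousLinearMap.coe_comp, Function.comp_apply, ContinuousLinearMap.apply_apply,
    sub_apply, smul_apply, smul_eq_mul] at h3
  rw [h3]
  simp [mul_comm]

lemma closed_gwedge (x : E →L[ℝ] ℝ) (y : E → E →L[ℝ] ℝ) (hy : ContDiff ℝ ∞ y)
    (hs : ∀ p u v, fderiv ℝ y p u v = fderiv ℝ y p v u) (p u v w : E) :
    fderiv ℝ (fun p => gwedge x (y p)) p u v w + fderiv ℝ (fun p => gwedge x (y p)) p v w u +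
      fderiv ℝ (fun p => gwedge x (y p)) p w u v = 0 := by
  rw [fderiv_gwedge x y hy, fderiv_gwedge x y hy, fderiv_gwedge x y hy]
  rw [hs p v u, hs p w u, hs p w v]
  ring

lemma fderiv_sum3 (W X : E → E →L[ℝ] E →L[ℝ] ℝ) (a b : ℝ) (hW : ContDiff ℝ ∞ W)
    (hX : ContDiff ℝ ∞ X) (p u v w : E) :
    fderiv ℝ (fun p => a • W p + b • X p) p u v w =
      a * fderiv ℝ W p u v w + b * fderiv ℝ X p u v w := by
  have h1 : HasFDerivAt (fun p => a • W p + b • X p) (a • fderiv ℝ W p + b • fderiv ℝ X p) p :=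
    (((hW.differentiable (by simp) p).hasFDerivAt).const_smul a).add
      (((hX.differentiable (by simp) p).hasFDerivAt).const_smul b)
  rw [h1.fderiv]
  simp

lemma hasDerivAt_coef_line (W : E → E →L[ℝ] E →L[ℝ] ℝ) (hW : Differentiable ℝ W)
    (p v x y : E) (r : ℝ) :
    HasDerivAt (fun r : ℝ => W (p + r • v) x y) (fderiv ℝ W (p + r • v) v x y) r := by
  have h1 : HasDerivAt (fun r : ℝ => p + r • v) v r := by
    have := ((hasDerivAt_id r).smul_const v).const_add p
    simpa using this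
  have h2 := (hasFDerivAt_coef' W (p + r • v) (hW _) x y)
  have h3 := h2.comp_hasDerivAt r h1
  exact h3

lemma hasDerivAt_lin_line (h : E → E →L[ℝ] ℝ) (hh : Differentiable ℝ h)
    (p v x : E) (r : ℝ) :
    HasDerivAt (fun r : ℝ => h (p + r • v) x) (fderiv ℝ h (p + r • v) v x) r := by
  have h1 : HasDerivAt (fun r : ℝ => p + r • v) v r := by
    have := ((hasDerivAt_id r).smul_const v).const_add p
    simpa using this
  have h2 : HasFDerivAt (fun q => h q x) ((ContinuousLinearMap.apply ℝ ℝ x).comp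
      (fderiv ℝ h (p + r • v))) (p + r • v) :=
    (ContinuousLinearMap.apply ℝ ℝ x).hasFDerivAt.comp _ (hh _).hasFDerivAt
  have h3 := h2.comp_hasDerivAt r h1
  exact h3

/-- average over the translations by `r • e`, `0 ≤ r ≤ 1`. -/
noncomputable def gavg (W : E → E →L[ℝ] E →L[ℝ] ℝ) (p : E) : E →L[ℝ] E →L[ℝ] ℝ :=
  ∫ r in (0 : ℝ)..1, W (p + r • e)

/-- the primitive of `W - gavg e W`. -/
noncomputable def gprim (W : E → E →L[ℝ] E →L[ℝ] ℝ) (p : E) : E →L[ℝ] ℝ :=
  ∫ r in (0 : ℝ)..1, (r - 1) • W (p + r • e) e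

lemma contDiff_avgInt (W : E → E →L[ℝ] E →L[ℝ] ℝ) (hW : ContDiff ℝ ∞ W) :
    ContDiff ℝ ∞ (fun q : E × ℝ => W (q.1 + q.2 • e)) := by
  have : ContDiff ℝ ∞ (fun q : E × ℝ => q.1 + q.2 • e) := by fun_prop
  exact hW.comp this

lemma contDiff_primInt (W : E → E →L[ℝ] E →L[ℝ] ℝ) (hW : ContDiff ℝ ∞ W) :
    ContDiff ℝ ∞ (fun q : E × ℝ => (q.2 - 1) • W (q.1 + q.2 • e) e) := by
  have h2 : ContDiff ℝ ∞ (fun q : E × ℝ => q.2 - 1) := by fun_prop
  exact h2.smul ((contDiff_avgInt e W hW).clm_apply contDiff_const)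

lemma contDiff_gavg (W : E → E →L[ℝ] E →L[ℝ] ℝ) (hW : ContDiff ℝ ∞ W) :
    ContDiff ℝ ∞ (gavg e W) :=
  contDiff_param (fun q : E × ℝ => W (q.1 + q.2 • e)) (contDiff_avgInt e W hW)

lemma contDiff_gprim (W : E → E →L[ℝ] E →L[ℝ] ℝ) (hW : ContDiff ℝ ∞ W) :
    ContDiff ℝ ∞ (gprim e W) :=
  contDiff_param (fun q : E × ℝ => (q.2 - 1) • W (q.1 + q.2 • e) e) (contDiff_primInt e W hW)

omit [ProperSpace E] in
lemma cont_line (W : E → E →L[ℝ] E →L[ℝ] ℝ) (hW : Continuous W) (p : E) :
    Continuous (fun r : ℝ => W (p + r • e)) := by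
  have : Continuous (fun r : ℝ => p + r • e) := by fun_prop
  exact hW.comp this

lemma gavg_apply (W : E → E →L[ℝ] E →L[ℝ] ℝ) (hW : Continuous W) (p u v : E) :
    gavg e W p u v = ∫ r in (0 : ℝ)..1, W (p + r • e) u v := by
  unfold gavg
  rw [ContinuousLinearMap.intervalIntegral_apply ((cont_line e W hW p).intervalIntegrable _ _)]
  rw [ContinuousLinearMap.intervalIntegral_apply
    (((cont_line e W hW p).clm_apply continuous_const).intervalIntegrable _ _)]

lemma gprim_apply (W : E → E →L[ℝ] E →L[ℝ] ℝ) (hW : Continuous W) (p v : E) :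
    gprim e W p v = ∫ r in (0 : ℝ)..1, (r - 1) * W (p + r • e) e v := by
  unfold gprim
  have hc : Continuous (fun r : ℝ => (r - 1) • W (p + r • e) e) := by
    have h1 : Continuous (fun r : ℝ => r - 1) := by fun_prop
    exact h1.smul ((cont_line e W hW p).clm_apply continuous_const)
  rw [ContinuousLinearMap.intervalIntegral_apply (hc.intervalIntegrable _ _)]
  rfl

lemma fderiv_gavg (W : E → E →L[ℝ] E →L[ℝ] ℝ) (hW : ContDiff ℝ ∞ W) (p u v w : E) :
    fderiv ℝ (gavg e W) p u v w = ∫ r in (0 : ℝ)..1, fderiv ℝ W (p + r • e) u v w := by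
  have hF := contDiff_avgInt e W hW
  have h0 := fderiv_param _ hF p u
  have hc := fderiv_param' _ hF p u
  have h1 : fderiv ℝ (gavg e W) p u = ∫ r in (0 : ℝ)..1,
      fderiv ℝ (fun y => (fun q : E × ℝ => W (q.1 + q.2 • e)) (y, r)) p u := h0
  rw [h1]
  rw [ContinuousLinearMap.intervalIntegral_apply (hc.intervalIntegrable _ _)]
  rw [ContinuousLinearMap.intervalIntegral_apply
    ((hc.clm_apply continuous_const).intervalIntegrable _ _)]
  refine intervalIntegral.integral_congr fun r _ => ?_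
  have h1 : HasFDerivAt (fun q : E => q + r • e) (ContinuousLinearMap.id ℝ E) p :=
    (hasFDerivAt_id p).add_const (r • e)
  have h2 := HasFDerivAt.comp (g := W) (f := fun q : E => q + r • e) p
    ((hW.differentiable (by simp) (p + r • e)).hasFDerivAt) h1
  have h3 : fderiv ℝ (fun y => (fun q : E × ℝ => W (q.1 + q.2 • e)) (y, r)) p = _ := h2.fderiv
  rw [h3]
  rfl

lemma fderiv_gprim (W : E → E →L[ℝ] E →L[ℝ] ℝ) (hW : ContDiff ℝ ∞ W) (p u v : E) :
    fderiv ℝ (gprim e W) p u v = ∫ r in (0 : ℝ)..1, (r - 1) * fderiv ℝ W (p + r • e) u e v := by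
  have hF := contDiff_primInt e W hW
  have h0 := fderiv_param _ hF p u
  have hc := fderiv_param' _ hF p u
  have h1 : fderiv ℝ (gprim e W) p u = ∫ r in (0 : ℝ)..1,
      fderiv ℝ (fun y => (fun q : E × ℝ => (q.2 - 1) • W (q.1 + q.2 • e) e) (y, r)) p u := h0
  rw [h1]
  rw [ContinuousLinearMap.intervalIntegral_apply (hc.intervalIntegrable _ _)]
  refine intervalIntegral.integral_congr fun r _ => ?_
  have h1 : HasFDerivAt (fun q : E => q + r • e) (ContinuousLinearMap.id ℝ E) p :=
    (hasFDerivAt_id p).add_const (r • e)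
  have h2 := HasFDerivAt.comp (g := W) (f := fun q : E => q + r • e) p
    ((hW.differentiable (by simp) (p + r • e)).hasFDerivAt) h1
  have h3 := (h2.clm_apply (hasFDerivAt_const e p)).const_smul (r - 1)
  have h4 : fderiv ℝ (fun y => (fun q : E × ℝ => (q.2 - 1) • W (q.1 + q.2 • e) e) (y, r)) p = _ :=
    h3.fderiv
  rw [h4]
  simp

/-- `W - gavg e W` is the exterior derivative of `gprim e W`. -/
lemma d1_gprim (W : E → E →L[ℝ] E →L[ℝ] ℝ) (hW : ContDiff ℝ ∞ W)
    (sW : ∀ p u v, W p u v = - W p v u)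
    (cW : ∀ p u v w, fderiv ℝ W p u v w + fderiv ℝ W p v w u + fderiv ℝ W p w u v = 0)
    (p u v : E) : fderiv ℝ (gprim e W) p u v - fderiv ℝ (gprim e W) p v u =
      W p u v - gavg e W p u v := by
  have hWc := hW.continuous
  have hWd := hW.continuous_fderiv (n := ∞) (by simp)
  have hsk : ∀ q a x y, fderiv ℝ W q a x y = - fderiv ℝ W q a y x := by
    intro q a x y
    have h1 := hasFDerivAt_coef' W q (hW.differentiable (by simp) q) x y
    have h2 := hasFDerivAt_coef' W q (hW.differentiable (by simp) q) y x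
    have e : (fun q => W q x y) = fun q => - W q y x := by
      funext q
      exact sW q x y
    rw [e] at h1
    have h3 := h1.unique h2.neg
    have h4 := congrArg (fun (L : E →L[ℝ] ℝ) => L a) h3
    simpa using h4
  rw [fderiv_gprim e W hW, fderiv_gprim e W hW, gavg_apply e W hWc]
  have hl : Continuous (fun r : ℝ => p + r • e) := by fun_prop
  have c2 : ∀ x y z, Continuous (fun r : ℝ => fderiv ℝ W (p + r • e) x y z) := fun x y z =>
      (((hWd.comp hl).clm_apply continuous_const).clm_apply continuous_const).clm_apply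
        continuous_const
  have c1 : ∀ x y, Continuous (fun r : ℝ => W (p + r • e) x y) := fun x y =>
      ((hWc.comp hl).clm_apply continuous_const).clm_apply continuous_const
  have c0 : Continuous (fun r : ℝ => r - 1) := by fun_prop
  have c3 : ∀ x y z, Continuous (fun r : ℝ => (r - 1) * fderiv ℝ W (p + r • e) x y z) :=
    fun x y z => c0.mul (c2 x y z)
  rw [← intervalIntegral.integral_sub ((c3 _ _ _).intervalIntegrable _ _)
    ((c3 _ _ _).intervalIntegrable _ _)]
  have hg : ∀ r : ℝ, HasDerivAt (fun r => (r - 1) * W (p + r • e) u v)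
      (W (p + r • e) u v + (r - 1) * fderiv ℝ W (p + r • e) e u v) r := by
    intro r
    have h1 : HasDerivAt (fun r : ℝ => r - 1) 1 r := (hasDerivAt_id r).sub_const 1
    have h2 := hasDerivAt_coef_line W (hW.differentiable (by simp)) p e u v r
    exact (h1.mul h2).congr_deriv (by ring)
  have hint : IntervalIntegrable (fun r => W (p + r • e) u v +
      (r - 1) * fderiv ℝ W (p + r • e) e u v) volume 0 1 :=
    ((c1 _ _).add (c3 _ _ _)).intervalIntegrable _ _
  have hftc := intervalIntegral.integral_eq_sub_of_hasDerivAt (fun r _ => hg r) hint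
  rw [intervalIntegral.integral_add ((c1 _ _).intervalIntegrable _ _)
    ((c3 _ _ _).intervalIntegrable _ _)] at hftc
  have hcongr : ∀ r : ℝ, (r - 1) * fderiv ℝ W (p + r • e) u e v -
      (r - 1) * fderiv ℝ W (p + r • e) v e u = (r - 1) * fderiv ℝ W (p + r • e) e u v := by
    intro r
    have hcl := cW (p + r • e) e u v
    rw [hsk (p + r • e) u v e] at hcl
    linear_combination (-(r - 1)) * hcl
  simp_rw [hcongr]
  simp only [one_smul, zero_smul, add_zero, sub_self, zero_mul, zero_sub] at hftc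
  linarith

lemma gavg_skew (W : E → E →L[ℝ] E →L[ℝ] ℝ) (hW : Continuous W)
    (sW : ∀ p u v, W p u v = - W p v u) (p u v : E) : gavg e W p u v = - gavg e W p v u := by
  rw [gavg_apply e W hW, gavg_apply e W hW, ← intervalIntegral.integral_neg]
  refine intervalIntegral.integral_congr fun r _ => ?_
  exact sW _ _ _

lemma gavg_closed (W : E → E →L[ℝ] E →L[ℝ] ℝ) (hW : ContDiff ℝ ∞ W)
    (cW : ∀ p u v w, fderiv ℝ W p u v w + fderiv ℝ W p v w u + fderiv ℝ W p w u v = 0)
    (p u v w : E) : fderiv ℝ (gavg e W) p u v w + fderiv ℝ (gavg e W) p v w u +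
      fderiv ℝ (gavg e W) p w u v = 0 := by
  have hWd := hW.continuous_fderiv (n := ∞) (by simp)
  have hl : Continuous (fun r : ℝ => p + r • e) := by fun_prop
  have c2 : ∀ x y z, Continuous (fun r : ℝ => fderiv ℝ W (p + r • e) x y z) := fun x y z =>
      (((hWd.comp hl).clm_apply continuous_const).clm_apply continuous_const).clm_apply
        continuous_const
  rw [fderiv_gavg e W hW, fderiv_gavg e W hW, fderiv_gavg e W hW]
  rw [← intervalIntegral.integral_add ((c2 _ _ _).intervalIntegrable _ _)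
    ((c2 _ _ _).intervalIntegrable _ _)]
  have c3 : Continuous (fun r : ℝ => fderiv ℝ W (p + r • e) u v w +
      fderiv ℝ W (p + r • e) v w u) := (c2 _ _ _).add (c2 _ _ _)
  rw [← intervalIntegral.integral_add (c3.intervalIntegrable _ _)
    ((c2 _ _ _).intervalIntegrable _ _)]
  have : ∀ r : ℝ, fderiv ℝ W (p + r • e) u v w + fderiv ℝ W (p + r • e) v w u +
      fderiv ℝ W (p + r • e) w u v = 0 := fun r => cW _ _ _ _
  simp_rw [this]
  simp

/-- the average of a periodic form is invariant in the direction of the period. -/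
lemma gavg_inv (W : E → E →L[ℝ] E →L[ℝ] ℝ) (hW : ContDiff ℝ ∞ W)
    (hper : ∀ p, W (p + e) = W p) (p u v : E) : fderiv ℝ (gavg e W) p e u v = 0 := by
  have hWd := hW.continuous_fderiv (n := ∞) (by simp)
  have hl : Continuous (fun r : ℝ => p + r • e) := by fun_prop
  have c2 : ∀ x y z, Continuous (fun r : ℝ => fderiv ℝ W (p + r • e) x y z) := fun x y z =>
      (((hWd.comp hl).clm_apply continuous_const).clm_apply continuous_const).clm_apply
        continuous_const
  rw [fderiv_gavg e W hW]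
  rw [intervalIntegral.integral_eq_sub_of_hasDerivAt
    (fun r _ => hasDerivAt_coef_line W (hW.differentiable (by simp)) p e u v r)
    ((c2 _ _ _).intervalIntegrable _ _)]
  simp [hper]

end avg

end H711R4
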