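import Pool.Agent.H711R4.Stokes7
import Pool.Agent.H711R4.Gen

/-!
Admissible closed two-forms on `ℝ⁶` and their averages.
-/

namespace H711R4

open MeasureTheory Set Real
open scoped ContDiff

/-- smooth closed skew forms with the symmetries of the pull back of a form on `S¹ × Y × S²`. -/
structure Good (W : V → Bil) : Prop where
  smooth : ContDiff ℝ ∞ W
  skew : Skew W
  closed : Closed2 W
  inv : Inv2 W

/-- translation vectors compatible with all symmetries -/
structure Dir (e : V) : Prop where
  L : Lc e = e
  five : e 5 = 0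

lemma dir0 : Dir (bv 0) := by
  constructor
  · rw [Lc_apply]; funext i; fin_cases i <;> simp [bv]
  · simp [bv]

lemma dir4 : Dir ((2 * π) • bv 4) := by
  constructor
  · rw [Lc_apply]; funext i; fin_cases i <;> simp [bv]
  · simp [bv]

lemma good_avg (W : V → Bil) (hW : Good W) (e : V) (he : Dir e) : Good (gavg e W) := by
  have hc : Continuous W := hW.smooth.continuous
  have hper : ∀ t : V, (∀ p, W (p + t) = W p) → ∀ p, gavg e W (p + t) = gavg e W p := by
    intro t ht p
    unfold gavg
    refine intervalIntegral.integral_congr fun r _ => ?_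
    have : p + t + r • e = (p + r • e) + t := by abel
    show W (p + t + r • e) = W (p + r • e)
    rw [this, ht]
  refine ⟨contDiff_gavg e W hW.smooth, gavg_skew e W hc hW.skew,
    gavg_closed e W hW.smooth hW.closed, ?_⟩
  refine ⟨hper _ hW.inv.per0, hper _ hW.inv.per2, hper _ hW.inv.per3, hper _ hW.inv.per4, ?_, ?_⟩
  · intro p u v
    rw [gavg_apply e W hc, gavg_apply e W hc]
    refine intervalIntegral.integral_congr fun r _ => ?_
    have : Lc p + bv 1 + r • e = Lc (p + r • e) + bv 1 := by
      rw [map_add, map_smul, he.L]; abel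
    show W (Lc p + bv 1 + r • e) (Lc u) (Lc v) = W (p + r • e) u v
    rw [this, hW.inv.tw]
  · intro p hp v
    rw [gavg_apply e W hc]
    have : ∀ r : ℝ, W (p + r • e) (bv 4) v = 0 := by
      intro r
      apply hW.inv.pole
      have : (p + r • e) 5 = p 5 := by simp [he.five]
      rw [this]
      exact hp
    simp_rw [this]
    simp

lemma inv_prim (W : V → Bil) (hW : Good W) (e : V) (he : Dir e) : Inv1 (gprim e W) := by
  have hc : Continuous W := hW.smooth.continuous
  have hper : ∀ t : V, (∀ p, W (p + t) = W p) → ∀ p, gprim e W (p + t) = gprim e W p := by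
    intro t ht p
    unfold gprim
    refine intervalIntegral.integral_congr fun r _ => ?_
    have : p + t + r • e = (p + r • e) + t := by abel
    show (r - 1) • W (p + t + r • e) e = (r - 1) • W (p + r • e) e
    rw [this, ht]
  refine ⟨hper _ hW.inv.per0, hper _ hW.inv.per2, hper _ hW.inv.per3, hper _ hW.inv.per4, ?_, ?_⟩
  · intro p v
    rw [gprim_apply e W hc, gprim_apply e W hc]
    refine intervalIntegral.integral_congr fun r _ => ?_
    have : Lc p + bv 1 + r • e = Lc (p + r • e) + bv 1 := by
      rw [map_add, map_smul, he.L]; abel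
    show (r - 1) * W (Lc p + bv 1 + r • e) e (Lc v) = (r - 1) * W (p + r • e) e v
    have h2 := hW.inv.tw (p + r • e) e v
    rw [he.L] at h2
    rw [this, h2]
  · intro p hp
    rw [gprim_apply e W hc]
    have : ∀ r : ℝ, W (p + r • e) e (bv 4) = 0 := by
      intro r
      rw [hW.skew, hW.inv.pole, neg_zero]
      have : (p + r • e) 5 = p 5 := by simp [he.five]
      rw [this]
      exact hp
    simp_rw [this]
    simp

lemma d1_prim (W : V → Bil) (hW : Good W) (e : V) (p : V) :
    d1 (gprim e W) p = W p - gavg e W p := by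
  ext u v
  have h := d1_gprim e W hW.smooth hW.skew hW.closed p u v
  rw [d1_apply, h]
  rfl

/-- primitives of closed one-forms. -/
lemma exists_primitive (h : V → Lin) (hh : ContDiff ℝ ∞ h)
    (hs : ∀ p u v, fderiv ℝ h p u v = fderiv ℝ h p v u) :
    ∃ F : V → ℝ, (∀ p, HasFDerivAt F (h p) p) ∧ ContDiff ℝ ∞ F := by
  obtain ⟨F, hF⟩ := Convex.exists_forall_hasFDerivAt_of_fderiv_symmetric
    (convex_univ : Convex ℝ (univ : Set V)) isOpen_univ
    (hh.differentiable (by simp)).differentiableOn (fun a _ x y => hs a x y)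
  have hF' : ∀ p, HasFDerivAt F (h p) p := fun p => hF p (mem_univ p)
  refine ⟨F, hF', ?_⟩
  rw [contDiff_infty_iff_fderiv]
  refine ⟨fun p => (hF' p).differentiableAt, ?_⟩
  have : fderiv ℝ F = h := by
    funext p
    exact (hF' p).fderiv
  rw [this]
  exact hh

/-- a function whose differential is translation invariant is quasi periodic. -/
lemma shift_const (h : V → Lin) (F : V → ℝ) (hF : ∀ p, HasFDerivAt F (h p) p) (t : V)
    (ht : ∀ p, h (p + t) = h p) (p : V) : F (p + t) - F p = F t - F 0 := by
  have hd : ∀ p, HasFDerivAt (fun p => F (p + t) - F p) (0 : V →L[ℝ] ℝ) p := by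
    intro p
    have h1 : HasFDerivAt (fun p : V => p + t) (ContinuousLinearMap.id ℝ V) p :=
      (hasFDerivAt_id p).add_const t
    have h2 : HasFDerivAt (fun p => F (p + t)) ((h (p + t)).comp (ContinuousLinearMap.id ℝ V)) p :=
      (hF (p + t)).comp p h1
    have h3 := h2.sub (hF p)
    rw [ht] at h3
    refine h3.congr_fderiv ?_
    ext v
    simp
  have hconst := is_const_of_fderiv_eq_zero (𝕜 := ℝ) (f := fun p => F (p + t) - F p)
    (fun p => (hd p).differentiableAt) (fun p => (hd p).fderiv) p 0
  simpa using hconst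

lemma twist_const (h : V → Lin) (F : V → ℝ) (hF : ∀ p, HasFDerivAt F (h p) p)
    (ht : ∀ p v, h (Lc p + bv 1) (Lc v) = h p v) (p : V) :
    F (Lc p + bv 1) - F p = F (bv 1) - F 0 := by
  have hd : ∀ p, HasFDerivAt (fun p => F (Lc p + bv 1) - F p) (0 : V →L[ℝ] ℝ) p := by
    intro p
    have h1 : HasFDerivAt (fun p : V => Lc p + bv 1) Lc p := (Lc.hasFDerivAt).add_const (bv 1)
    have h2 : HasFDerivAt (fun p => F (Lc p + bv 1)) ((h (Lc p + bv 1)).comp Lc) p :=
      (hF (Lc p + bv 1)).comp p h1
    have h3 := h2.sub (hF p)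
    refine h3.congr_fderiv ?_
    ext v
    simp [ht]
  have hconst := is_const_of_fderiv_eq_zero (𝕜 := ℝ) (f := fun p => F (Lc p + bv 1) - F p)
    (fun p => (hd p).differentiableAt) (fun p => (hd p).fderiv) p 0
  simpa using hconst

/-- the differential vanishing along a segment. -/
lemma seg_const (h : V → Lin) (F : V → ℝ) (hF : ∀ p, HasFDerivAt F (h p) p) (p v : V)
    (hv : ∀ r : ℝ, h (p + r • v) v = 0) : F (p + v) = F p := by
  have hd : ∀ r : ℝ, HasDerivAt (fun r : ℝ => F (p + r • v)) 0 r := by
    intro r
    have h1 : HasDerivAt (fun r : ℝ => p + r • v) v r := by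
      have := ((hasDerivAt_id r).smul_const v).const_add p
      simpa using this
    have h2 := (hF (p + r • v)).comp_hasDerivAt r h1
    rw [hv r] at h2
    exact h2
  have hconst := is_const_of_deriv_eq_zero (f := fun r : ℝ => F (p + r • v))
    (fun r => (hd r).differentiableAt) (fun r => (hd r).deriv) 1 0
  simpa using hconst

noncomputable def AA : Bil := gwedge (pr 0) (pr 1)
noncomputable def SS : Bil := gwedge (pr 5) (pr 4)

end H711R4
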