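import Pool.Agent.H711R4.Decomp

/-!
The decomposition of an admissible closed two-form.
-/

namespace H711R4

open MeasureTheory Set Real
open scoped ContDiff

lemma Good.comb {W X : V → Bil} (hW : Good W) (hX : Good X) (a b : ℝ) :
    Good (fun p => a • W p + b • X p) := by
  refine ⟨(hW.smooth.const_smul a).add (hX.smooth.const_smul b), ?_, ?_, ?_⟩
  · intro p u v
    simp only [add_apply, smul_apply, smul_eq_mul]
    rw [hW.skew p u v, hX.skew p u v]
    ring
  · intro p u v w
    rw [fderiv_sum3 W X a b hW.smooth hX.smooth, fderiv_sum3 W X a b hW.smooth hX.smooth,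
      fderiv_sum3 W X a b hW.smooth hX.smooth]
    linear_combination a * hW.closed p u v w + b * hX.closed p u v w
  · refine ⟨?_, ?_, ?_, ?_, ?_, ?_⟩
    · intro p; rw [hW.inv.per0, hX.inv.per0]
    · intro p; rw [hW.inv.per2, hX.inv.per2]
    · intro p; rw [hW.inv.per3, hX.inv.per3]
    · intro p; rw [hW.inv.per4, hX.inv.per4]
    · intro p u v
      simp only [add_apply, smul_apply, smul_eq_mul]
      rw [hW.inv.tw, hX.inv.tw]
    · intro p hp v
      simp only [add_apply, smul_apply, smul_eq_mul]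
      rw [hW.inv.pole p hp, hX.inv.pole p hp]
      ring

/-- linear forms invariant under the gluing map. -/
lemma pr_Lc (i : Fin 6) (hi : i = 0 ∨ i = 1 ∨ i = 4 ∨ i = 5) (v : V) : pr i (Lc v) = pr i v := by
  rw [Lc_apply]
  rcases hi with rfl | rfl | rfl | rfl <;> simp [pr]

lemma good_wedge (i : Fin 6) (hi : i = 0 ∨ i = 1 ∨ i = 4 ∨ i = 5) (y : V → Lin)
    (hy : ContDiff ℝ ∞ y)
    (hs : ∀ p u v, fderiv ℝ y p u v = fderiv ℝ y p v u)
    (p0 : ∀ p, y (p + bv 0) = y p) (p2 : ∀ p, y (p + bv 2) = y p) (p3 : ∀ p, y (p + bv 3) = y p)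
    (p4 : ∀ p, y (p + (2 * π) • bv 4) = y p) (tw : ∀ p v, y (Lc p + bv 1) (Lc v) = y p v)
    (pole : ∀ p : V, (p 5 = 0 ∨ p 5 = π) → ∀ v, pr i (bv 4) * y p v - y p (bv 4) * pr i v = 0) :
    Good (fun p => gwedge (pr i) (y p)) := by
  refine ⟨contDiff_gwedge (pr i) y hy, ?_, closed_gwedge (pr i) y hy hs, ?_⟩
  · intro p u v
    simp only [gwedge_apply]
    ring
  · refine ⟨?_, ?_, ?_, ?_, ?_, ?_⟩
    · intro p; rw [p0]
    · intro p; rw [p2]
    · intro p; rw [p3]
    · intro p; rw [p4]
    · intro p u v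
      rw [gwedge_apply, gwedge_apply, tw, tw, pr_Lc i hi, pr_Lc i hi]
    · intro p hp v
      rw [gwedge_apply]
      exact pole p hp v

lemma good_AA : Good (fun _ => AA) := by
  refine good_wedge 0 (by simp) (fun _ => pr 1) contDiff_const ?_ (fun _ => rfl) (fun _ => rfl)
    (fun _ => rfl) (fun _ => rfl) ?_ ?_
  · intro p u v
    simp
  · intro p v
    exact pr_Lc 1 (by simp) v
  · intro p _ v
    simp [pr_bv]

/-- the form `sin φ dφ ∧ dθ`. -/
lemma good_SS : Good (fun p : V => sin (p 5) • SS) := by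
  have e : (fun p : V => sin (p 5) • SS) =
      fun p : V => gwedge (pr 4) ((- sin (p 5)) • pr 5) := by
    funext p
    ext u v
    rw [SS, smul_apply, smul_apply, gwedge_apply, gwedge_apply]
    simp only [smul_apply, smul_eq_mul]
    ring
  rw [e]
  have hsm : ContDiff ℝ ∞ (fun p : V => (- sin (p 5)) • pr 5) := by
    have h1 : ContDiff ℝ ∞ (fun p : V => - sin (p 5)) := by
      have : ContDiff ℝ ∞ (fun p : V => p 5) := by fun_prop
      exact (Real.contDiff_sin.comp this).neg
    exact h1.smul contDiff_const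
  refine good_wedge 4 (by simp) _ hsm ?_ ?_ ?_ ?_ ?_ ?_ ?_
  · intro p u v
    have h5 : HasFDerivAt (fun p : V => p 5) (pr 5) p := (pr 5).hasFDerivAt
    have h1 : HasFDerivAt (fun p : V => - sin (p 5)) (-(cos (p 5) • pr 5)) p := (h5.sin).neg
    have h2 := (h1.smul_const (pr 5)).fderiv
    rw [h2]
    simp only [ContinuousLinearMap.smulRight_apply, neg_apply, smul_apply, smul_eq_mul]
    ring
  · intro p; simp [bv]
  · intro p; simp [bv]
  · intro p; simp [bv]
  · intro p; simp [bv]
  · intro p v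
    simp only [smul_apply, smul_eq_mul]
    rw [pr_Lc 5 (by simp)]
    simp [Lc_apply, bv]
  · intro p hp v
    have hs : sin (p 5) = 0 := by
      rcases hp with h | h
      · rw [h, sin_zero]
      · rw [h, sin_pi]
    simp [hs]

lemma fderiv_skew (W : V → Bil) (hW : Good W) (q a x y : V) :
    fderiv ℝ W q a x y = - fderiv ℝ W q a y x := by
  have h1 := hasFDerivAt_coef' W q (hW.smooth.differentiable (by simp) q) x y
  have h2 := hasFDerivAt_coef' W q (hW.smooth.differentiable (by simp) q) y x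
  have e : (fun q => W q x y) = fun q => - W q y x := by
    funext q
    exact hW.skew q x y
  rw [e] at h1
  have h3 := h1.unique h2.neg
  have h4 := congrArg (fun (L : V →L[ℝ] ℝ) => L a) h3
  simpa using h4

theorem decomp (W : V → Bil) (hW : Good W) : ∃ (a c : ℝ) (R : V → Bil) (h : V → Lin),
    ContDiff ℝ ∞ h ∧ Inv1 h ∧ Good R ∧ (∀ p u, R p (bv 0) u = 0) ∧ (∀ p u, R p (bv 4) u = 0) ∧
    ∀ p, W p = a • AA + c • (sin (p 5) • SS) + R p + d1 h p := by
  set W1 := gavg ((2 * π) • bv 4) W with hW1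
  have g1 : Good W1 := good_avg W hW _ dir4
  set W2 := gavg (bv 0) W1 with hW2
  have g2 : Good W2 := good_avg W1 g1 _ dir0
  have inv1 : ∀ p u v, fderiv ℝ W1 p (bv 4) u v = 0 := by
    intro p u v
    have := gavg_inv ((2 * π) • bv 4) W hW.smooth hW.inv.per4 p u v
    rw [← hW1] at this
    simp only [map_smul, smul_apply, smul_eq_mul] at this
    have hpi : (2 * π : ℝ) ≠ 0 := by positivity
    exact (mul_eq_zero.1 this).resolve_left hpi
  have inv0 : ∀ p u v, fderiv ℝ W2 p (bv 0) u v = 0 := by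
    intro p u v
    exact gavg_inv (bv 0) W1 g1.smooth g1.inv.per0 p u v
  have inv4 : ∀ p u v, fderiv ℝ W2 p (bv 4) u v = 0 := by
    intro p u v
    rw [hW2, fderiv_gavg (bv 0) W1 g1.smooth]
    simp_rw [inv1]
    simp
  have hd2 : Differentiable ℝ W2 := g2.smooth.differentiable (by simp)
  -- the two closed one-forms
  set la : V → Lin := fun p => W2 p (bv 0) with hla
  set mu : V → Lin := fun p => W2 p (bv 4) with hmu
  have sla : ContDiff ℝ ∞ la := g2.smooth.clm_apply contDiff_const
  have smu : ContDiff ℝ ∞ mu := g2.smooth.clm_apply contDiff_const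
  have symla : ∀ p u v, fderiv ℝ la p u v = fderiv ℝ la p v u := by
    intro p u v
    rw [hla, fderiv_contr W2 p (hd2 p), fderiv_contr W2 p (hd2 p)]
    have h1 := g2.closed p (bv 0) u v
    rw [inv0, fderiv_skew W2 g2 p u v (bv 0)] at h1
    linarith
  have symmu : ∀ p u v, fderiv ℝ mu p u v = fderiv ℝ mu p v u := by
    intro p u v
    rw [hmu, fderiv_contr W2 p (hd2 p), fderiv_contr W2 p (hd2 p)]
    have h1 := g2.closed p (bv 4) u v
    rw [inv4, fderiv_skew W2 g2 p u v (bv 4)] at h1
    linarith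
  -- `W2 (e0, e4) = 0`
  have h04 : ∀ p, W2 p (bv 4) (bv 0) = 0 := by
    have hder : ∀ p, HasFDerivAt (fun p => W2 p (bv 4) (bv 0)) (0 : V →L[ℝ] ℝ) p := by
      intro p
      have h1 := hasFDerivAt_coef' W2 p (hd2 p) (bv 4) (bv 0)
      refine h1.congr_fderiv ?_
      ext1 v
      simp only [ContinuousLinearMap.coe_comp, Function.comp_apply,
        ContinuousLinearMap.apply_apply, zero_apply]
      have h2 := g2.closed p v (bv 4) (bv 0)
      rw [inv4, inv0] at h2
      linarith
    intro p
    have hc := is_const_of_fderiv_eq_zero (𝕜 := ℝ) (f := fun p => W2 p (bv 4) (bv 0))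
      (fun p => (hder p).differentiableAt) (fun p => (hder p).fderiv) p 0
    rw [hc]
    exact g2.inv.pole 0 (Or.inl rfl) _
  have h40 : ∀ p, W2 p (bv 0) (bv 4) = 0 := by
    intro p
    rw [g2.skew, h04, neg_zero]
  have h00 : ∀ p u, W2 p u u = 0 := by
    intro p u
    have := g2.skew p u u
    linarith
  obtain ⟨K0, hK0, sK0⟩ := exists_primitive la sla symla
  obtain ⟨M0, hM0, sM0⟩ := exists_primitive mu smu symmu
  -- periods of K0
  have twla : ∀ p v, la (Lc p + bv 1) (Lc v) = la p v := by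
    intro p v
    have := g2.inv.tw p (bv 0) v
    rw [dir0.L] at this
    exact this
  have twmu : ∀ p v, mu (Lc p + bv 1) (Lc v) = mu p v := by
    intro p v
    have := g2.inv.tw p (bv 4) v
    have h4 : Lc (bv 4) = bv 4 := by
      rw [Lc_apply]; funext i; fin_cases i <;> simp [bv]
    rw [h4] at this
    exact this
  set a := K0 (bv 1) - K0 0 with ha
  have Ktw : ∀ p, K0 (Lc p + bv 1) = K0 p + a := by
    intro p
    have := twist_const la K0 hK0 twla p
    linarith
  set c2 := K0 (bv 2) - K0 0 with hc2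
  set c3 := K0 (bv 3) - K0 0 with hc3
  have K2 : ∀ p, K0 (p + bv 2) = K0 p + c2 := by
    intro p
    have := shift_const la K0 hK0 (bv 2) (fun p => by simp only [hla]; rw [g2.inv.per2]) p
    linarith
  have K3 : ∀ p, K0 (p + bv 3) = K0 p + c3 := by
    intro p
    have := shift_const la K0 hK0 (bv 3) (fun p => by simp only [hla]; rw [g2.inv.per3]) p
    linarith
  have K2n : ∀ (n : ℕ) p, K0 (p + (n : ℝ) • bv 2) = K0 p + n * c2 := by
    intro n p
    induction n with
    | zero => simp
    | succ k ih =>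
      have : p + ((k + 1 : ℕ) : ℝ) • bv 2 = (p + (k : ℝ) • bv 2) + bv 2 := by
        push_cast
        rw [add_smul, one_smul, add_assoc]
      rw [this, K2, ih]
      push_cast
      ring
  have K3n : ∀ (n : ℕ) p, K0 (p + (n : ℝ) • bv 3) = K0 p + n * c3 := by
    intro n p
    induction n with
    | zero => simp
    | succ k ih =>
      have : p + ((k + 1 : ℕ) : ℝ) • bv 3 = (p + (k : ℝ) • bv 3) + bv 3 := by
        push_cast
        rw [add_smul, one_smul, add_assoc]
      rw [this, K3, ih]
      push_cast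
      ring
  have L2 : Lc (bv 2) = ((3 : ℕ) : ℝ) • bv 2 + ((5 : ℕ) : ℝ) • bv 3 := by
    rw [Lc_apply]; funext i; fin_cases i <;> simp [bv]
  have L3 : Lc (bv 3) = ((10 : ℕ) : ℝ) • bv 2 + ((17 : ℕ) : ℝ) • bv 3 := by
    rw [Lc_apply]; funext i; fin_cases i <;> simp [bv]
  have rel2 : c2 = 3 * c2 + 5 * c3 := by
    have h1 := Ktw (bv 2)
    rw [L2] at h1
    have h2 : ((3 : ℕ) : ℝ) • bv 2 + ((5 : ℕ) : ℝ) • bv 3 + bv 1 =
        (bv 1 + ((3 : ℕ) : ℝ) • bv 2) + ((5 : ℕ) : ℝ) • bv 3 := by abel
    rw [h2, K3n, K2n] at h1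
    push_cast at h1
    linarith
  have rel3 : c3 = 10 * c2 + 17 * c3 := by
    have h1 := Ktw (bv 3)
    rw [L3] at h1
    have h2 : ((10 : ℕ) : ℝ) • bv 2 + ((17 : ℕ) : ℝ) • bv 3 + bv 1 =
        (bv 1 + ((10 : ℕ) : ℝ) • bv 2) + ((17 : ℕ) : ℝ) • bv 3 := by abel
    rw [h2, K3n, K2n] at h1
    push_cast at h1
    linarith
  have hc2z : c2 = 0 := by linarith
  have hc3z : c3 = 0 := by linarith
  have K00 : ∀ p, K0 (p + bv 0) = K0 p := by
    intro p
    refine seg_const la K0 hK0 p (bv 0) ?_
    intro r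
    exact h00 _ _
  have K4 : ∀ p, K0 (p + (2 * π) • bv 4) = K0 p := by
    intro p
    refine seg_const la K0 hK0 p ((2 * π) • bv 4) ?_
    intro r
    simp only [hla, map_smul, h40, smul_zero]
  -- M
  set cM := M0 (π • bv 5) - M0 0 with hcM
  have M5 : ∀ p : V, p 5 = 0 → M0 p = M0 0 := by
    intro p hp
    have := seg_const mu M0 hM0 0 p (by
      intro r
      apply g2.inv.pole
      left
      simp [hp])
    rwa [zero_add] at this
  have Mpi : ∀ p : V, p 5 = π → M0 p = M0 (π • bv 5) := by
    intro p hp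
    have := seg_const mu M0 hM0 (π • bv 5) (p - π • bv 5) (by
      intro r
      apply g2.inv.pole
      right
      simp [hp, bv])
    rwa [add_sub_cancel] at this
  have Mper : ∀ t : V, t 5 = 0 → (∀ p, mu (p + t) = mu p) → ∀ p, M0 (p + t) = M0 p := by
    intro t ht hper p
    have := shift_const mu M0 hM0 t hper p
    rw [M5 t ht] at this
    linarith
  have Mtw : ∀ p, M0 (Lc p + bv 1) = M0 p := by
    intro p
    have := twist_const mu M0 hM0 twmu p
    rw [M5 (bv 1) (by simp [bv])] at this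
    linarith
  -- the correction one-forms
  set h1 : V → Lin := fun p => (a * p 1 - K0 p) • pr 0 with hh1
  set h2 : V → Lin := fun p => (cM * ((1 - cos (p 5)) / 2) - (M0 p - M0 0)) • pr 4 with hh2
  have sh1 : ContDiff ℝ ∞ h1 := by
    have : ContDiff ℝ ∞ (fun p : V => a * p 1 - K0 p) := by
      have h0 : ContDiff ℝ ∞ (fun p : V => a * p 1) := by fun_prop
      exact h0.sub sK0
    exact this.smul contDiff_const
  have sh2 : ContDiff ℝ ∞ h2 := by
    have : ContDiff ℝ ∞ (fun p : V => cM * ((1 - cos (p 5)) / 2) - (M0 p - M0 0)) := by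
      have h5 : ContDiff ℝ ∞ (fun p : V => p 5) := by fun_prop
      have h0 : ContDiff ℝ ∞ (fun p : V => cM * ((1 - cos (p 5)) / 2)) :=
        contDiff_const.mul ((contDiff_const.sub (Real.contDiff_cos.comp h5)).div_const 2)
      exact h0.sub (sM0.sub contDiff_const)
    exact this.smul contDiff_const
  have dh1 : ∀ p, d1 h1 p = a • gwedge (pr 1) (pr 0) - gwedge (la p) (pr 0) := by
    intro p
    have e1 : HasFDerivAt (fun p : V => p 1) (pr 1) p := (pr 1).hasFDerivAt
    have e2 := ((e1.const_mul a).sub (hK0 p)).smul_const (pr 0)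
    have e3 : fderiv ℝ h1 p = _ := e2.fderiv
    ext u v
    rw [d1_apply, e3]
    simp only [ContinuousLinearMap.smulRight_apply, sub_apply, smul_apply, smul_eq_mul,
      gwedge_apply]
    ring
  have dh2 : ∀ p : V, d1 h2 p = (cM / 2) • (sin (p 5) • SS) - gwedge (mu p) (pr 4) := by
    intro p
    have e1 : HasFDerivAt (fun p : V => p 5) (pr 5) p := (pr 5).hasFDerivAt
    have e2 : HasFDerivAt (fun p : V => cM * ((1 - cos (p 5)) / 2))
        ((cM * (sin (p 5) / 2)) • pr 5) p := by
      have hfun : (fun p : V => cM * ((1 - cos (p 5)) / 2)) =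
          fun p : V => cM * ((1 - cos (p 5)) * 2⁻¹) := by
        funext p
        ring
      rw [hfun]
      have h0 := (((e1.cos).const_sub 1).mul_const (2⁻¹ : ℝ)).const_mul cM
      refine h0.congr_fderiv ?_
      ext v
      simp only [smul_apply, smul_eq_mul, neg_apply]
      ring
    have e3 := (e2.sub ((hM0 p).sub_const (M0 0))).smul_const (pr 4)
    have e4 : fderiv ℝ h2 p = _ := e3.fderiv
    ext u v
    rw [d1_apply, e4]
    simp only [ContinuousLinearMap.smulRight_apply, sub_apply, smul_apply, smul_eq_mul,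
      gwedge_apply, SS]
    ring
  have ih1 : Inv1 h1 := by
    refine ⟨?_, ?_, ?_, ?_, ?_, ?_⟩
    · intro p
      simp only [hh1, K00]
      simp [bv]
    · intro p
      simp only [hh1, K2, hc2z, add_zero]
      simp [bv]
    · intro p
      simp only [hh1, K3, hc3z, add_zero]
      simp [bv]
    · intro p
      simp only [hh1, K4]
      simp [bv]
    · intro p v
      simp only [hh1, Ktw, smul_apply]
      rw [pr_Lc 0 (by simp)]
      congr 1
      simp [Lc_apply, bv]
      ring
    · intro p _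
      simp only [hh1, smul_apply, pr_bv]
      simp
  have ih2 : Inv1 h2 := by
    refine ⟨?_, ?_, ?_, ?_, ?_, ?_⟩
    · intro p
      simp only [hh2]
      rw [Mper (bv 0) (by simp [bv]) (fun p => by simp only [hmu]; rw [g2.inv.per0])]
      simp [bv]
    · intro p
      simp only [hh2]
      rw [Mper (bv 2) (by simp [bv]) (fun p => by simp only [hmu]; rw [g2.inv.per2])]
      simp [bv]
    · intro p
      simp only [hh2]
      rw [Mper (bv 3) (by simp [bv]) (fun p => by simp only [hmu]; rw [g2.inv.per3])]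
      simp [bv]
    · intro p
      simp only [hh2]
      rw [Mper ((2 * π) • bv 4) (by simp [bv]) (fun p => by simp only [hmu]; rw [g2.inv.per4])]
      simp [bv]
    · intro p v
      simp only [hh2, Mtw, smul_apply]
      rw [pr_Lc 4 (by simp)]
      congr 1
      simp [Lc_apply, bv]
    · intro p hp
      simp only [hh2, smul_apply, pr_bv]
      rcases hp with hp | hp
      · rw [M5 p hp, hp]
        simp
      · rw [Mpi p hp, hp]
        simp [hcM]
  -- the remainder
  have g3 : Good (fun p => gwedge (pr 0) (la p)) := by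
    refine good_wedge 0 (by simp) la sla symla ?_ ?_ ?_ ?_ twla ?_
    · intro p; simp only [hla]; rw [g2.inv.per0]
    · intro p; simp only [hla]; rw [g2.inv.per2]
    · intro p; simp only [hla]; rw [g2.inv.per3]
    · intro p; simp only [hla]; rw [g2.inv.per4]
    · intro p _ v
      simp only [hla, h40, pr_bv]
      simp
  have g4 : Good (fun p => gwedge (pr 4) (mu p)) := by
    refine good_wedge 4 (by simp) mu smu symmu ?_ ?_ ?_ ?_ twmu ?_
    · intro p; simp only [hmu]; rw [g2.inv.per0]
    · intro p; simp only [hmu]; rw [g2.inv.per2]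
    · intro p; simp only [hmu]; rw [g2.inv.per3]
    · intro p; simp only [hmu]; rw [g2.inv.per4]
    · intro p hp v
      simp only [hmu]
      rw [g2.inv.pole p hp, g2.inv.pole p hp]
      simp
  set R : V → Bil := fun p => (1 : ℝ) • ((1 : ℝ) • W2 p + (-1 : ℝ) • gwedge (pr 0) (la p)) +
    (-1 : ℝ) • gwedge (pr 4) (mu p) with hR
  have gR : Good R := (g2.comb g3 1 (-1)).comb g4 1 (-1)
  set h : V → Lin := fun p => gprim ((2 * π) • bv 4) W p + gprim (bv 0) W1 p + h1 p + h2 p with hh
  have sp1 : ContDiff ℝ ∞ (gprim ((2 * π) • bv 4) W) := contDiff_gprim _ W hW.smooth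
  have sp2 : ContDiff ℝ ∞ (gprim (bv 0) W1) := contDiff_gprim _ W1 g1.smooth
  have ip1 : Inv1 (gprim ((2 * π) • bv 4) W) := inv_prim W hW _ dir4
  have ip2 : Inv1 (gprim (bv 0) W1) := inv_prim W1 g1 _ dir0
  refine ⟨a, -(cM / 2), R, h, ?_, ?_, gR, ?_, ?_, ?_⟩
  · exact ((sp1.add sp2).add sh1).add sh2
  · refine ⟨?_, ?_, ?_, ?_, ?_, ?_⟩
    · intro p; simp only [hh]; rw [ip1.per0, ip2.per0, ih1.per0, ih2.per0]
    · intro p; simp only [hh]; rw [ip1.per2, ip2.per2, ih1.per2, ih2.per2]
    · intro p; simp only [hh]; rw [ip1.per3, ip2.per3, ih1.per3, ih2.per3]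
    · intro p; simp only [hh]; rw [ip1.per4, ip2.per4, ih1.per4, ih2.per4]
    · intro p v
      simp only [hh, add_apply]
      rw [ip1.tw, ip2.tw, ih1.tw, ih2.tw]
    · intro p hp
      simp only [hh, add_apply]
      rw [ip1.pole p hp, ip2.pole p hp, ih1.pole p hp, ih2.pole p hp]
      ring
  · intro p u
    simp only [hR, add_apply, smul_apply, smul_eq_mul, gwedge_apply, hla, hmu, pr_bv, h00, h04]
    simp
  · intro p u
    simp only [hR, add_apply, smul_apply, smul_eq_mul, gwedge_apply, hla, hmu, pr_bv, h00, h40]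
    simp
  · intro p
    have hdh : d1 h p = d1 (gprim ((2 * π) • bv 4) W) p + d1 (gprim (bv 0) W1) p + d1 h1 p +
        d1 h2 p := by
      have e1 := (sp1.differentiable (by simp) p).hasFDerivAt
      have e2 := (sp2.differentiable (by simp) p).hasFDerivAt
      have e3 := (sh1.differentiable (by simp) p).hasFDerivAt
      have e4 := (sh2.differentiable (by simp) p).hasFDerivAt
      have e5 : fderiv ℝ h p = _ := (((e1.add e2).add e3).add e4).fderiv
      ext u v
      simp only [add_apply, d1_apply]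
      rw [e5]
      simp only [add_apply]
      ring
    rw [hdh, d1_prim W hW, d1_prim W1 g1, dh1, dh2, ← hW1, ← hW2]
    ext u v
    simp only [hR, add_apply, sub_apply, smul_apply, smul_eq_mul, gwedge_apply, AA, SS]
    ring

end H711R4
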