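import Mathlib

/-!
# Two-forms, symplectic forms and deformation equivalence on smooth manifolds

Everything is stated for manifolds without boundary, modelled on a finite dimensional real normed
space `E` by a model with corners `I` (for us `𝓡 4`, `𝓡 2` and their product).
-/

open scoped Manifold ContDiff
open Set

namespace FourSix

section

variable {E : Type} [NormedAddCommGroup E] [NormedSpace ℝ E] {H : Type} [TopologicalSpace H]
  (I : ModelWithCorners ℝ E H) (M : Type) [TopologicalSpace M] [ChartedSpace H M]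

/-- A field of bilinear forms: for every point `p` a bilinear form on the tangent space at `p`. -/
abbrev Form : Type := ∀ p : M, TangentSpace I p →L[ℝ] TangentSpace I p →L[ℝ] ℝ

end

section

variable {E : Type} [NormedAddCommGroup E] [NormedSpace ℝ E] {H : Type} [TopologicalSpace H]
  {I : ModelWithCorners ℝ E H} {M : Type} [TopologicalSpace M] [ChartedSpace H M]
  {E' : Type} [NormedAddCommGroup E'] [NormedSpace ℝ E'] {H' : Type} [TopologicalSpace H']
  {I' : ModelWithCorners ℝ E' H'} {M' : Type} [TopologicalSpace M'] [ChartedSpace H' M']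

/-- The pull back `f^* η`, `(f^* η)_p (v, w) = η_{f p} (df_p v, df_p w)`. -/
noncomputable def pullback (f : M → M') (η : Form I' M') : Form I M := fun p =>
  ContinuousLinearMap.bilinearComp (E := E') (F := E') (G := ℝ) (E' := E) (F' := E) (η (f p))
    (mfderiv I I' f p) (mfderiv I I' f p)

/-- The expression of the form `η` in the chart around `p₀`: the pull back of `η` by the inverse
of the chart `extChartAt I p₀`, a map from (an open subset of) the model space `E` to `M`. -/
noncomputable def inChart (η : Form I M) (p₀ : M) : E → E →L[ℝ] E →L[ℝ] ℝ :=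
  pullback (I := 𝓘(ℝ, E)) (extChartAt I p₀).symm η

/-- `η` is a symplectic form: at every point it is alternating and nondegenerate, and in all the
charts it is smooth and closed (`dη = 0`, written out on three vectors of the model space). -/
structure IsSymplectic (η : Form I M) : Prop where
  alternating : ∀ p v, η p v v = 0
  nondegenerate : ∀ p v, v ≠ 0 → ∃ w, η p v w ≠ 0
  smooth : ∀ p₀ : M, ContDiffOn ℝ ∞ (inChart η p₀) (extChartAt I p₀).target
  closed : ∀ p₀ : M, ∀ x ∈ (extChartAt I p₀).target, ∀ u v w : E,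
    fderiv ℝ (inChart η p₀) x u v w + fderiv ℝ (inChart η p₀) x v w u +
      fderiv ℝ (inChart η p₀) x w u v = 0

/-- A family `Ω t`, `t ∈ [0,1]`, of forms is smooth: in all charts `(t, x) ↦ (Ω t)(x)` is
smooth. -/
def SmoothFamily (Ω : ℝ → Form I M) : Prop :=
  ∀ p₀ : M, ContDiffOn ℝ ∞ (fun z : ℝ × E => inChart (Ω z.1) p₀ z.2)
    (Icc (0 : ℝ) 1 ×ˢ (extChartAt I p₀).target)

/-- A family `Ω t`, `t ∈ [0,1]`, of forms is continuous (in the `C⁰` sense): in all charts
`(t, x) ↦ (Ω t)(x)` is continuous. -/
def ContinuousFamily (Ω : ℝ → Form I M) : Prop :=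
  ∀ p₀ : M, ContinuousOn (fun z : ℝ × E => inChart (Ω z.1) p₀ z.2)
    (Icc (0 : ℝ) 1 ×ˢ (extChartAt I p₀).target)

/-- `(M, η)` and `(M', η')` are symplectically deformation equivalent: there are a diffeomorphism
`φ : M → M'` and a smooth family `Ω t`, `t ∈ [0,1]`, of symplectic forms on `M` from `η` to
`φ^* η'`. -/
def DeformationEquivalent (η : Form I M) (η' : Form I' M') : Prop :=
  ∃ (φ : M ≃ₘ⟮I, I'⟯ M') (Ω : ℝ → Form I M), SmoothFamily Ω ∧
    (∀ t ∈ Icc (0 : ℝ) 1, IsSymplectic (Ω t)) ∧ Ω 0 = η ∧ Ω 1 = pullback φ η'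

/-- The same with a continuous family (in the weakest sense: `C⁰`) of symplectic forms. -/
def ContDeformationEquivalent (η : Form I M) (η' : Form I' M') : Prop :=
  ∃ (φ : M ≃ₘ⟮I, I'⟯ M') (Ω : ℝ → Form I M), ContinuousFamily Ω ∧
    (∀ t ∈ Icc (0 : ℝ) 1, IsSymplectic (Ω t)) ∧ Ω 0 = η ∧ Ω 1 = pullback φ η'

/-- The form `pr₁^* η + pr₂^* σ` on the product `M × M'`. -/
noncomputable def prodForm (η : Form I M) (σ : Form I' M') : Form (I.prod I') (M × M') := fun p =>
  pullback (I := I.prod I') (Prod.fst : M × M' → M) η p +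
    pullback (I := I.prod I') (Prod.snd : M × M' → M') σ p

end

end FourSix
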