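import Pool.Agent.H711R4.Public

/-!
# Closed symplectic four-manifolds and their products with the two-sphere
-/

open scoped Manifold ContDiff
open Set

namespace FourSix

section

variable {E : Type} [NormedAddCommGroup E] [NormedSpace ℝ E] {H : Type} [TopologicalSpace H]
  {I : ModelWithCorners ℝ E H} {M : Type} [TopologicalSpace M] [ChartedSpace H M]

lemma inChart_neg (η : Form I M) (p : M) : inChart (-η) p = fun x => - inChart η p x := by
  funext x
  refine ContinuousLinearMap.ext fun u => ContinuousLinearMap.ext fun v => ?_
  rfl

lemma IsSymplectic.neg [I.Boundaryless] {η : Form I M} (h : IsSymplectic η) :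
    IsSymplectic (-η) := by
  have hdiff : ∀ p : M, ∀ x ∈ (extChartAt I p).target, DifferentiableAt ℝ (inChart η p) x :=
    fun p x hx => ((h.smooth p).contDiffAt
      ((isOpen_extChartAt_target (I := I) p).mem_nhds hx)).differentiableAt (by simp)
  refine ⟨?_, ?_, ?_, ?_⟩
  · intro p v
    have h1 : -(η p v v) = 0 := by rw [h.alternating p v, neg_zero]
    exact h1
  · intro p v hv
    obtain ⟨w, hw⟩ := h.nondegenerate p v hv
    refine ⟨w, ?_⟩
    have h1 : -(η p v w) ≠ 0 := neg_ne_zero.2 hw
    exact h1
  · intro p
    rw [inChart_neg]
    exact (h.smooth p).neg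
  · intro p x hx u v w
    rw [inChart_neg]
    have hd : DifferentiableAt ℝ (inChart η p) x := hdiff p x hx
    have hd2 : DifferentiableAt ℝ (fun x => - inChart η p x) x :=
      ((h.smooth p).neg.contDiffAt
        ((isOpen_extChartAt_target (I := I) p).mem_nhds hx)).differentiableAt (by simp)
    have key : ∀ u v w, fderiv ℝ (fun x => - inChart η p x) x u v w =
        - (fderiv ℝ (inChart η p) x u v w) := by
      intro u v w
      have h1 := H711R4.hasFDerivAt_coef_gen (fun x => - inChart η p x) x hd2 v w
      have h2 := (H711R4.hasFDerivAt_coef_gen (inChart η p) x hd v w).neg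
      have h3 := congrArg (fun (L : E →L[ℝ] ℝ) => L u) (h1.unique h2)
      exact h3
    rw [key, key, key]
    have h2 := h.closed p x hx u v w
    linarith

lemma Symplectic.neg [FiniteDimensional ℝ E] [I.Boundaryless] {η : Form I M}
    (h : Symplectic η) : Symplectic (negF η) :=
  symplectic_iff.2 (symplectic_iff.1 h).neg

end

/-- A closed symplectic four-manifold: a compact (Hausdorff, second countable) smooth manifold
modelled on `ℝ⁴`, without boundary, with a symplectic form. -/
structure Symp4 where
  /-- the manifold -/
  X : Type
  /-- its topology -/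
  [top : TopologicalSpace X]
  /-- its charts -/
  [charts : ChartedSpace (EuclideanSpace ℝ (Fin 4)) X]
  [smooth : IsManifold (𝓡 4) ∞ X]
  [compact : CompactSpace X]
  [hausdorff : T2Space X]
  [countable : SecondCountableTopology X]
  /-- the symplectic form -/
  form : Form (𝓡 4) X
  symp : Symplectic form

attribute [instance] Symp4.top Symp4.charts Symp4.smooth Symp4.compact Symp4.hausdorff
  Symp4.countable

/-- The same manifold with the negative of the symplectic form. -/
noncomputable def Symp4.neg (A : Symp4) : Symp4 where
  X := A.X
  form := negF A.form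
  symp := A.symp.neg

/-- Diffeomorphic four-manifolds. -/
def Diffeo (A B : Symp4) : Prop := Nonempty (A.X ≃ₘ⟮𝓡 4, 𝓡 4⟯ B.X)

/-- The two-sphere: the unit sphere of `ℝ³`, with the manifold structure of Mathlib. -/
abbrev Sphere2 : Type := Metric.sphere (0 : EuclideanSpace ℝ (Fin 3)) 1

/-- A symplectic form (area form) on the two-sphere. -/
structure Area where
  /-- the form -/
  form : Form (𝓡 2) Sphere2
  symp : Symplectic form

/-- The product form `ω × σ` on `X × S²` is symplectic. -/
def TimesSymplectic (A : Symp4) (σ : Area) : Prop := ProdSymplectic A.form σ.form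

/-- The products `(X × S², ω_X × σ)` and `(Y × S², ω_Y × σ')` are deformation equivalent. -/
def TimesDefEquiv (A B : Symp4) (σ σ' : Area) : Prop :=
  ProdDefEquiv A.form B.form σ.form σ'.form

end FourSix
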