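import Pool.Agent.H711R4.Gen

/-!
Stokes' theorem on a rectangle for one-forms on a normed space.
-/

namespace H711R4

open MeasureTheory Set
open scoped ContDiff

variable {E : Type} [NormedAddCommGroup E] [NormedSpace ℝ E]

lemma rect_stokes (h : E → E →L[ℝ] ℝ) (hh : ContDiff ℝ 1 h) (p0 v1 v2 : E) (a b : ℝ) :
    ∫ x in (0 : ℝ)..a, ∫ y in (0 : ℝ)..b, (fderiv ℝ h (p0 + x • v1 + y • v2) v1 v2 -
      fderiv ℝ h (p0 + x • v1 + y • v2) v2 v1) =
    ((∫ y in (0 : ℝ)..b, h (p0 + a • v1 + y • v2) v2) -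
      ∫ y in (0 : ℝ)..b, h (p0 + y • v2) v2) -
    ((∫ x in (0 : ℝ)..a, h (p0 + x • v1 + b • v2) v1) -
      ∫ x in (0 : ℝ)..a, h (p0 + x • v1) v1) := by
  set q : ℝ × ℝ → E := fun z => p0 + z.1 • v1 + z.2 • v2 with hq
  have hqd : ∀ z, HasFDerivAt q ((ContinuousLinearMap.fst ℝ ℝ ℝ).smulRight v1 +
      (ContinuousLinearMap.snd ℝ ℝ ℝ).smulRight v2) z := by
    intro z
    have h1 : HasFDerivAt (fun z : ℝ × ℝ => z.1) (ContinuousLinearMap.fst ℝ ℝ ℝ) z :=
      hasFDerivAt_fst
    have h2 : HasFDerivAt (fun z : ℝ × ℝ => z.2) (ContinuousLinearMap.snd ℝ ℝ ℝ) z :=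
      hasFDerivAt_snd
    exact ((h1.smul_const v1).const_add p0).add (h2.smul_const v2)
  have hqc : Continuous q := by
    rw [hq]; fun_prop
  have hd : ∀ p, DifferentiableAt ℝ h p := fun p => hh.differentiable one_ne_zero p
  have hfd := hh.continuous_fderiv one_ne_zero
  have hcoef : ∀ (w : E) (z : ℝ × ℝ), HasFDerivAt (fun z => h (q z) w)
      (((ContinuousLinearMap.apply ℝ ℝ w).comp (fderiv ℝ h (q z))).comp
        ((ContinuousLinearMap.fst ℝ ℝ ℝ).smulRight v1 +
      (ContinuousLinearMap.snd ℝ ℝ ℝ).smulRight v2)) z := by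
    intro w z
    have h1 : HasFDerivAt (fun p => h p w) ((ContinuousLinearMap.apply ℝ ℝ w).comp
        (fderiv ℝ h (q z))) (q z) :=
      (ContinuousLinearMap.apply ℝ ℝ w).hasFDerivAt.comp _ (hd _).hasFDerivAt
    exact HasFDerivAt.comp (f := q) z h1 (hqd z)
  have hcont : ∀ w : E, Continuous (fun z => h (q z) w) := fun w =>
    (hh.continuous.comp hqc).clm_apply continuous_const
  have key := integral2_divergence_prod_of_hasFDerivAt_off_countable
    (fun z => h (q z) v2) (fun z => - h (q z) v1)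
    (fun z => ((ContinuousLinearMap.apply ℝ ℝ v2).comp (fderiv ℝ h (q z))).comp
        ((ContinuousLinearMap.fst ℝ ℝ ℝ).smulRight v1 +
      (ContinuousLinearMap.snd ℝ ℝ ℝ).smulRight v2))
    (fun z => - (((ContinuousLinearMap.apply ℝ ℝ v1).comp (fderiv ℝ h (q z))).comp
        ((ContinuousLinearMap.fst ℝ ℝ ℝ).smulRight v1 +
      (ContinuousLinearMap.snd ℝ ℝ ℝ).smulRight v2)))
    0 0 a b ∅ countable_empty (hcont v2).continuousOn (hcont v1).neg.continuousOn
    (fun z _ => hcoef v2 z) (fun z _ => (hcoef v1 z).neg) (by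
      apply ContinuousOn.integrableOn_compact (isCompact_uIcc.prod isCompact_uIcc)
      apply Continuous.continuousOn
      have e : (fun z : ℝ × ℝ => (((ContinuousLinearMap.apply ℝ ℝ v2).comp
          (fderiv ℝ h (q z))).comp ((ContinuousLinearMap.fst ℝ ℝ ℝ).smulRight v1 +
          (ContinuousLinearMap.snd ℝ ℝ ℝ).smulRight v2)) (1, 0) +
          (- (((ContinuousLinearMap.apply ℝ ℝ v1).comp (fderiv ℝ h (q z))).comp
          ((ContinuousLinearMap.fst ℝ ℝ ℝ).smulRight v1 +
          (ContinuousLinearMap.snd ℝ ℝ ℝ).smulRight v2))) (0, 1)) =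
          fun z => fderiv ℝ h (q z) v1 v2 - fderiv ℝ h (q z) v2 v1 := by
        funext z
        simp [sub_eq_add_neg]
      rw [e]
      exact (((hfd.comp hqc).clm_apply continuous_const).clm_apply continuous_const).sub
        (((hfd.comp hqc).clm_apply continuous_const).clm_apply continuous_const))
  have e : ∀ x y : ℝ, (((ContinuousLinearMap.apply ℝ ℝ v2).comp
          (fderiv ℝ h (q (x, y)))).comp ((ContinuousLinearMap.fst ℝ ℝ ℝ).smulRight v1 +
          (ContinuousLinearMap.snd ℝ ℝ ℝ).smulRight v2)) (1, 0) +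
          (- (((ContinuousLinearMap.apply ℝ ℝ v1).comp (fderiv ℝ h (q (x, y)))).comp
          ((ContinuousLinearMap.fst ℝ ℝ ℝ).smulRight v1 +
          (ContinuousLinearMap.snd ℝ ℝ ℝ).smulRight v2))) (0, 1) =
          fderiv ℝ h (q (x, y)) v1 v2 - fderiv ℝ h (q (x, y)) v2 v1 := by
    intro x y
    simp [sub_eq_add_neg]
  simp_rw [e] at key
  have e2 : ∀ x y : ℝ, q (x, y) = p0 + x • v1 + y • v2 := fun x y => rfl
  simp_rw [e2] at key
  rw [key]
  simp only [intervalIntegral.integral_neg, zero_smul, add_zero]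
  ring

end H711R4
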