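import Pool.Agent.H711R4.Decomp2
import Pool.Agent.H711R4.Rect

/-!
Evaluation of `∫ W ∧ W ∧ W` and `∫ ds ∧ dt ∧ W ∧ W`.
-/

namespace H711R4

open MeasureTheory Set Real
open scoped ContDiff

/-- the integral over the fibre torus. -/
noncomputable def bI (W : V → Bil) : ℝ :=
  ∫ x in (0 : ℝ)..1, ∫ y in (0 : ℝ)..1, W (0 + x • bv 2 + y • bv 3) (bv 2) (bv 3)

/-- the integral over the sphere. -/
noncomputable def cI (W : V → Bil) : ℝ :=
  ∫ x in (0 : ℝ)..1, ∫ y in (0 : ℝ)..π,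
    W (0 + x • ((2 * π) • bv 4) + y • bv 5) ((2 * π) • bv 4) (bv 5)

lemma bI_d1 (h : V → Lin) (hh : ContDiff ℝ ∞ h) (ih : Inv1 h) : bI (d1 h) = 0 := by
  unfold bI
  simp_rw [d1_apply]
  rw [rect_stokes h (hh.of_le (by simp)) 0 (bv 2) (bv 3) 1 1]
  have e1 : ∀ y : ℝ, h (0 + (1 : ℝ) • bv 2 + y • bv 3) = h (0 + y • bv 3) := by
    intro y
    have : (0 : V) + (1 : ℝ) • bv 2 + y • bv 3 = (0 + y • bv 3) + bv 2 := by
      rw [one_smul]; abel
    rw [this, ih.per2]
  have e2 : ∀ x : ℝ, h (0 + x • bv 2 + (1 : ℝ) • bv 3) = h (0 + x • bv 2) := by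
    intro x
    rw [one_smul, ih.per3]
  simp_rw [e1, e2]
  ring

lemma cI_d1 (h : V → Lin) (hh : ContDiff ℝ ∞ h) (ih : Inv1 h) : cI (d1 h) = 0 := by
  unfold cI
  simp_rw [d1_apply]
  rw [rect_stokes h (hh.of_le (by simp)) 0 ((2 * π) • bv 4) (bv 5) 1 π]
  have e1 : ∀ y : ℝ, h (0 + (1 : ℝ) • ((2 * π) • bv 4) + y • bv 5) = h (0 + y • bv 5) := by
    intro y
    have : (0 : V) + (1 : ℝ) • ((2 * π) • bv 4) + y • bv 5 = (0 + y • bv 5) + (2 * π) • bv 4 := by
      rw [one_smul]; abel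
    rw [this, ih.per4]
  have e2 : ∀ x : ℝ, h (0 + x • ((2 * π) • bv 4) + π • bv 5) ((2 * π) • bv 4) = 0 := by
    intro x
    rw [map_smul, ih.pole, smul_zero]
    right
    simp [bv]
  have e3 : ∀ x : ℝ, h (0 + x • ((2 * π) • bv 4)) ((2 * π) • bv 4) = 0 := by
    intro x
    rw [map_smul, ih.pole, smul_zero]
    left
    simp [bv]
  simp_rw [e1, e2, e3]
  simp

lemma cont_coef (W : V → Bil) (hW : Continuous W) (u v : V) : Continuous (fun p => W p u v) :=
  (hW.clm_apply continuous_const).clm_apply continuous_const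

lemma cont_T (a b c : V → Bil) (ha : Continuous a) (hb : Continuous b) (hc : Continuous c) :
    Continuous (fun p => T (a p) (b p) (c p)) := by
  simp_rw [T_apply]
  refine continuous_finsetSum _ fun σ _ => ?_
  exact continuous_const.mul (((cont_coef a ha _ _).mul (cont_coef b hb _ _)).mul
    (cont_coef c hc _ _))

lemma cont_d1 (h : V → Lin) (hh : ContDiff ℝ ∞ h) : Continuous (d1 h) := by
  have := hh.continuous_fderiv (n := ∞) (by simp)
  unfold d1
  have h2 : Continuous (fun p => (fderiv ℝ h p).flip) :=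
    (ContinuousLinearMap.flipₗᵢ ℝ V V ℝ).continuous.comp this
  exact this.sub h2

lemma integrable_T (a b c : V → Bil) (ha : Continuous a) (hb : Continuous b) (hc : Continuous c) :
    IntegrableOn (fun p => T (a p) (b p) (c p)) (Icc 0 hi) :=
  (cont_T a b c ha hb hc).continuousOn.integrableOn_compact isCompact_Icc

/-- replacing the first factor by a cohomologous one. -/
lemma int_replace (W W0 b c : V → Bil) (h : V → Lin) (hh : ContDiff ℝ ∞ h) (ih : Inv1 h)
    (hW : ∀ p, W p = W0 p + d1 h p) (hW0 : Continuous W0) (gb : Good b) (gc : Good c) :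
    ∫ p in Icc 0 hi, T (W p) (b p) (c p) = ∫ p in Icc 0 hi, T (W0 p) (b p) (c p) := by
  simp_rw [hW, T_add]
  rw [integral_add (integrable_T W0 b c hW0 gb.smooth.continuous gc.smooth.continuous)
    (integrable_T (d1 h) b c (cont_d1 h hh) gb.smooth.continuous gc.smooth.continuous)]
  rw [stokes h b c (hh.of_le (by simp)) (gb.smooth.of_le (by simp)) (gc.smooth.of_le (by simp))
    ih gb.inv gc.inv gb.skew gc.skew gb.closed gc.closed, add_zero]

lemma T_missing (a b c : Bil) (k : Fin 6) (ha : ∀ u, a (bv k) u = 0) (ha' : ∀ u, a u (bv k) = 0)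
    (hb : ∀ u, b (bv k) u = 0) (hb' : ∀ u, b u (bv k) = 0)
    (hc : ∀ u, c (bv k) u = 0) (hc' : ∀ u, c u (bv k) = 0) : T a b c = 0 := by
  rw [T_apply]
  refine Finset.sum_eq_zero fun σ _ => ?_
  obtain ⟨j, hj⟩ := σ.surjective k
  fin_cases j
  · have : σ 0 = k := hj
    rw [this, ha]; ring
  · have : σ 1 = k := hj
    rw [this, ha']; ring
  · have : σ 2 = k := hj
    rw [this, hb]; ring
  · have : σ 3 = k := hj
    rw [this, hb']; ring
  · have : σ 4 = k := hj
    rw [this, hc]; ring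
  · have : σ 5 = k := hj
    rw [this, hc']; ring

lemma AA_bv (i j : Fin 6) : AA (bv i) (bv j) = ((Az i j : ℤ) : ℝ) := by
  rw [AA, gwedge_apply, pr_bv, pr_bv, pr_bv, pr_bv]
  fin_cases i <;> fin_cases j <;> simp [Az]

lemma SS_bv (i j : Fin 6) : SS (bv i) (bv j) = ((Sz i j : ℤ) : ℝ) := by
  rw [SS, gwedge_apply, pr_bv, pr_bv, pr_bv, pr_bv]
  fin_cases i <;> fin_cases j <;> simp [Sz]

lemma T_AA_AA (x : Bil) : T AA AA x = 0 := by
  have h : ∀ i j : Fin 6, (i ∉ ({0, 1} : Finset (Fin 6)) ∨ j ∉ ({0, 1} : Finset (Fin 6))) →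
      AA (bv i) (bv j) = 0 := by
    intro i j hij
    rw [AA_bv]
    revert hij
    fin_cases i <;> fin_cases j <;> simp [Az]
  exact T_zero_of_support AA AA x {0, 1} (by decide) h h

lemma T_SS_SS (x : Bil) : T SS SS x = 0 := by
  have h : ∀ i j : Fin 6, (i ∉ ({4, 5} : Finset (Fin 6)) ∨ j ∉ ({4, 5} : Finset (Fin 6))) →
      SS (bv i) (bv j) = 0 := by
    intro i j hij
    rw [SS_bv]
    revert hij
    fin_cases i <;> fin_cases j <;> simp [Sz]
  exact T_zero_of_support SS SS x {4, 5} (by decide) h h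

lemma AA_4 (u : V) : AA (bv 4) u = 0 := by simp [AA, gwedge_apply, pr_bv]
lemma AA_4' (u : V) : AA u (bv 4) = 0 := by simp [AA, gwedge_apply, pr_bv]
lemma SS_0 (u : V) : SS (bv 0) u = 0 := by simp [SS, gwedge_apply, pr_bv]
lemma SS_0' (u : V) : SS u (bv 0) = 0 := by simp [SS, gwedge_apply, pr_bv]

lemma T_add' (a b b' c : Bil) : T a (b + b') c = T a b c + T a b' c := by
  rw [T_swap12, T_add, T_swap12 b, T_swap12 b']

lemma T_smul' (r : ℝ) (a b c : Bil) : T a (r • b) c = r * T a b c := by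
  rw [T_swap12, T_smul, T_swap12 b]

lemma T_add'' (a b c c' : Bil) : T a b (c + c') = T a b c + T a b c' := by
  rw [T_swap23, T_add', T_swap23 a c, T_swap23 a c']

lemma T_smul'' (r : ℝ) (a b c : Bil) : T a b (r • c) = r * T a b c := by
  rw [T_swap23, T_smul', T_swap23 a c]

lemma T_cube (a s : ℝ) (R : Bil) (h0 : ∀ u, R (bv 0) u = 0) (h0' : ∀ u, R u (bv 0) = 0)
    (h4 : ∀ u, R (bv 4) u = 0) (h4' : ∀ u, R u (bv 4) = 0) :
    T (a • AA + s • SS + R) (a • AA + s • SS + R) (a • AA + s • SS + R) =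
      6 * a * s * T AA R SS := by
  have z1 : ∀ x, T AA AA x = 0 := T_AA_AA
  have z2 : ∀ x, T AA x AA = 0 := fun x => by rw [T_swap23, z1]
  have z3 : ∀ x, T x AA AA = 0 := fun x => by rw [T_swap12, z2]
  have y1 : ∀ x, T SS SS x = 0 := T_SS_SS
  have y2 : ∀ x, T SS x SS = 0 := fun x => by rw [T_swap23, y1]
  have y3 : ∀ x, T x SS SS = 0 := fun x => by rw [T_swap12, y2]
  have r0 : T R R R = 0 := T_missing R R R 0 h0 h0' h0 h0' h0 h0'
  have r1 : T R R AA = 0 := T_missing R R AA 4 h4 h4' h4 h4' AA_4 AA_4'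
  have r2 : T R AA R = 0 := by rw [T_swap23, r1]
  have r3 : T AA R R = 0 := by rw [T_swap12, r2]
  have s1 : T R R SS = 0 := T_missing R R SS 0 h0 h0' h0 h0' SS_0 SS_0'
  have s2 : T R SS R = 0 := by rw [T_swap23, s1]
  have s3 : T SS R R = 0 := by rw [T_swap12, s2]
  have t1 : T AA SS R = T AA R SS := T_swap23 _ _ _
  have t2 : T R AA SS = T AA R SS := T_swap12 _ _ _
  have t3 : T R SS AA = T AA R SS := by rw [T_swap23, t2]
  have t4 : T SS R AA = T AA R SS := by rw [T_swap12, t3]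
  have t5 : T SS AA R = T AA R SS := by rw [T_swap23, t4]
  simp only [T_add, T_add', T_add'', T_smul, T_smul', T_smul'', z1, z2, z3, y1, y2, y3, r0, r1, r2,
    r3, s1, s2, s3, t1, t2, t3, t4, t5]
  ring

lemma T_AA_sq (a s : ℝ) (R : Bil)
    (h4 : ∀ u, R (bv 4) u = 0) (h4' : ∀ u, R u (bv 4) = 0) :
    T AA (a • AA + s • SS + R) (a • AA + s • SS + R) =
      2 * s * T AA R SS := by
  have z1 : ∀ x, T AA AA x = 0 := T_AA_AA
  have z2 : ∀ x, T AA x AA = 0 := fun x => by rw [T_swap23, z1]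
  have y1 : ∀ x, T SS SS x = 0 := T_SS_SS
  have y2 : ∀ x, T SS x SS = 0 := fun x => by rw [T_swap23, y1]
  have y3 : ∀ x, T x SS SS = 0 := fun x => by rw [T_swap12, y2]
  have r1 : T R R AA = 0 := T_missing R R AA 4 h4 h4' h4 h4' AA_4 AA_4'
  have r2 : T R AA R = 0 := by rw [T_swap23, r1]
  have r3 : T AA R R = 0 := by rw [T_swap12, r2]
  have t1 : T AA SS R = T AA R SS := T_swap23 _ _ _
  simp only [T_add', T_add'', T_smul', T_smul'', z1, z2, y3, r3, t1]
  ring

end H711R4
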