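import Pool.Agent.H711R4.Eval

/-!
Evaluation of `∫ W ∧ W ∧ W` and `∫ ds ∧ dt ∧ W ∧ W`, conclusion.
-/

namespace H711R4

open MeasureTheory Set Real
open scoped ContDiff

lemma swap_box (G : V → ℝ → ℝ) (hG : Continuous (Function.uncurry G)) :
    ∫ x in (0 : ℝ)..1, ∫ p in Icc 0 hi, G p x = ∫ p in Icc 0 hi, ∫ x in (0 : ℝ)..1, G p x := by
  rw [intervalIntegral.integral_of_le zero_le_one]
  have : ∀ p, ∫ x in (0 : ℝ)..1, G p x = ∫ x in Ioc 0 1, G p x := fun p =>
    intervalIntegral.integral_of_le zero_le_one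
  simp_rw [this]
  refine integral_integral_swap ?_
  have hint : IntegrableOn (Function.uncurry fun (x : ℝ) (p : V) => G p x)
      (Icc (0 : ℝ) 1 ×ˢ Icc 0 hi) ((volume : Measure ℝ).prod (volume : Measure V)) := by
    apply ContinuousOn.integrableOn_compact (isCompact_Icc.prod isCompact_Icc)
    exact (hG.comp (continuous_snd.prodMk continuous_fst)).continuousOn
  have h2 : IntegrableOn (Function.uncurry fun (x : ℝ) (p : V) => G p x)
      (Ioc (0 : ℝ) 1 ×ˢ Icc 0 hi) ((volume : Measure ℝ).prod (volume : Measure V)) :=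
    hint.mono_set (prod_mono Ioc_subset_Icc_self subset_rfl)
  unfold IntegrableOn at h2
  rwa [← Measure.prod_restrict] at h2

lemma shift_box (F : V → ℝ) (hF : Continuous F) (i : Fin 6) (hi1 : hi i = 1)
    (hper : ∀ p, F (p + bv i) = F p) (t : ℝ) :
    ∫ p in Icc 0 hi, F (p + t • bv i) = ∫ p in Icc 0 hi, F p := by
  have := shear_int (n := 5) i 0 hi hi_nonneg (by simp [hi1]) F hF hper (fun _ => t)
    continuous_const (fun _ _ => rfl)
  exact this

lemma avg_box (F : V → ℝ) (hF : Continuous F) (i : Fin 6) (hi1 : hi i = 1)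
    (hper : ∀ p, F (p + bv i) = F p) :
    ∫ p in Icc 0 hi, F p = ∫ p in Icc 0 hi, ∫ t in (0 : ℝ)..1, F (p + t • bv i) := by
  rw [← swap_box (fun p t => F (p + t • bv i))
    (hF.comp (continuous_fst.add (continuous_snd.smul continuous_const)))]
  have : ∀ t : ℝ, ∫ p in Icc 0 hi, F (p + t • bv i) = ∫ p in Icc 0 hi, F p :=
    shift_box F hF i hi1 hper
  simp_rw [this]
  simp

lemma fiber_const (R : V → Bil) (gR : Good R) (p : V) :
    gavg (bv 2) (gavg (bv 3) R) p (bv 2) (bv 3) = gavg (bv 2) (gavg (bv 3) R) 0 (bv 2) (bv 3) := by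
  set W1 := gavg (bv 3) R with hW1
  have s1 : ContDiff ℝ ∞ W1 := contDiff_gavg _ R gR.smooth
  have k1 : ∀ p u v, W1 p u v = - W1 p v u := gavg_skew _ R gR.smooth.continuous gR.skew
  have c1 : ∀ p u v w, fderiv ℝ W1 p u v w + fderiv ℝ W1 p v w u + fderiv ℝ W1 p w u v = 0 :=
    gavg_closed _ R gR.smooth gR.closed
  have i1 : ∀ p u v, fderiv ℝ W1 p (bv 3) u v = 0 := gavg_inv _ R gR.smooth gR.inv.per3
  have per1 : ∀ p, W1 (p + bv 2) = W1 p := by
    intro p
    rw [hW1]
    unfold gavg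
    refine intervalIntegral.integral_congr fun r _ => ?_
    have : p + bv 2 + r • bv 3 = (p + r • bv 3) + bv 2 := by abel
    show R (p + bv 2 + r • bv 3) = R (p + r • bv 3)
    rw [this, gR.inv.per2]
  set W2 := gavg (bv 2) W1 with hW2
  have s2 : ContDiff ℝ ∞ W2 := contDiff_gavg _ W1 s1
  have c2 : ∀ p u v w, fderiv ℝ W2 p u v w + fderiv ℝ W2 p v w u + fderiv ℝ W2 p w u v = 0 :=
    gavg_closed _ W1 s1 c1
  have i2 : ∀ p u v, fderiv ℝ W2 p (bv 2) u v = 0 := gavg_inv _ W1 s1 per1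
  have i3 : ∀ p u v, fderiv ℝ W2 p (bv 3) u v = 0 := by
    intro p u v
    rw [hW2, fderiv_gavg (bv 2) W1 s1]
    simp_rw [i1]
    simp
  have hd2 : Differentiable ℝ W2 := s2.differentiable (by simp)
  have hder : ∀ p, HasFDerivAt (fun p => W2 p (bv 2) (bv 3)) (0 : V →L[ℝ] ℝ) p := by
    intro p
    have h1 := hasFDerivAt_coef' W2 p (hd2 p) (bv 2) (bv 3)
    refine h1.congr_fderiv ?_
    ext1 v
    simp only [ContinuousLinearMap.coe_comp, Function.comp_apply,
      ContinuousLinearMap.apply_apply, zero_apply]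
    have h2 := c2 p v (bv 2) (bv 3)
    rw [i2, i3] at h2
    linarith
  exact is_const_of_fderiv_eq_zero (𝕜 := ℝ) (f := fun p => W2 p (bv 2) (bv 3))
    (fun p => (hder p).differentiableAt) (fun p => (hder p).fderiv) p 0

lemma gavg2_apply (R : V → Bil) (gR : Good R) (p : V) :
    gavg (bv 2) (gavg (bv 3) R) p (bv 2) (bv 3) =
      ∫ x in (0 : ℝ)..1, ∫ y in (0 : ℝ)..1, R (p + x • bv 2 + y • bv 3) (bv 2) (bv 3) := by
  have s1 : ContDiff ℝ ∞ (gavg (bv 3) R) := contDiff_gavg _ R gR.smooth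
  rw [gavg_apply _ _ s1.continuous]
  refine intervalIntegral.integral_congr fun x _ => ?_
  show gavg (bv 3) R (p + x • bv 2) (bv 2) (bv 3) = _
  rw [gavg_apply _ _ gR.smooth.continuous]

lemma box_avg (R : V → Bil) (gR : Good R) :
    ∫ p in Icc 0 hi, sin (p 5) * R p (bv 2) (bv 3) = bI R * ∫ p in Icc 0 hi, sin (p 5) := by
  have hRc := cont_coef R gR.smooth.continuous (bv 2) (bv 3)
  have hs : Continuous (fun p : V => sin (p 5)) := by fun_prop
  have h3 := avg_box (fun p => sin (p 5) * R p (bv 2) (bv 3)) (hs.mul hRc) 3 (by simp [hi])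
    (by
      intro p
      rw [gR.inv.per3]
      simp [bv])
  rw [h3]
  have e3 : ∀ (p : V) (t : ℝ), (p + t • bv 3) 5 = p 5 := by
    intro p t; simp [bv]
  have e2 : ∀ (p : V) (t : ℝ), (p + t • bv 2) 5 = p 5 := by
    intro p t; simp [bv]
  have s1 : ContDiff ℝ ∞ (gavg (bv 3) R) := contDiff_gavg _ R gR.smooth
  have f3 : ∀ p : V, ∫ t in (0 : ℝ)..1, sin ((p + t • bv 3) 5) * R (p + t • bv 3) (bv 2) (bv 3) =
      sin (p 5) * gavg (bv 3) R p (bv 2) (bv 3) := by
    intro p
    simp_rw [e3]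
    rw [intervalIntegral.integral_const_mul, gavg_apply _ _ gR.smooth.continuous]
  simp_rw [f3]
  have per1 : ∀ p, gavg (bv 3) R (p + bv 2) = gavg (bv 3) R p := by
    intro p
    unfold gavg
    refine intervalIntegral.integral_congr fun r _ => ?_
    have : p + bv 2 + r • bv 3 = (p + r • bv 3) + bv 2 := by abel
    show R (p + bv 2 + r • bv 3) = R (p + r • bv 3)
    rw [this, gR.inv.per2]
  have h2 := avg_box (fun p => sin (p 5) * gavg (bv 3) R p (bv 2) (bv 3))
    (hs.mul (cont_coef _ s1.continuous _ _)) 2 (by simp [hi])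
    (by
      intro p
      rw [per1]
      simp [bv])
  rw [h2]
  have f2 : ∀ p : V, ∫ t in (0 : ℝ)..1, sin ((p + t • bv 2) 5) *
      gavg (bv 3) R (p + t • bv 2) (bv 2) (bv 3) = bI R * sin (p 5) := by
    intro p
    simp_rw [e2]
    rw [intervalIntegral.integral_const_mul, ← gavg_apply _ _ s1.continuous, fiber_const R gR p,
      gavg2_apply R gR 0]
    unfold bI
    ring
  simp_rw [f2]
  rw [integral_const_mul]

lemma kappa_pos : 0 < ∫ p in Icc 0 hi, sin (p 5) := by
  have hs : Continuous (fun p : V => sin (p 5)) := by fun_prop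
  rw [coord_int (n := 5) 5 0 hi hi_nonneg (fun p => sin (p 5)) hs]
  have e : ∀ (u : ℝ) (y : Fin 5 → ℝ), (Fin.insertNth (5 : Fin 6) u y : V) 5 = u := by
    intro u y
    simp
  simp_rw [e]
  have h5 : hi 5 = π := by simp [hi]
  have : ∫ u in ((0 : V) 5)..(hi 5), sin u = 2 := by
    rw [h5, Pi.zero_apply, integral_sin]
    norm_num
  rw [this, setIntegral_const]
  have hv : 0 < (volume.real (Icc ((0 : V) ∘ Fin.succAbove 5) (hi ∘ Fin.succAbove 5))) := by
    rw [Measure.real, Real.volume_Icc_pi_toReal]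
    · refine Finset.prod_pos fun i _ => ?_
      have := Real.pi_pos
      fin_cases i
      · have : Fin.succAbove 5 (0 : Fin 5) = (0 : Fin 6) := by decide
        simp [this, hi]
      · have : Fin.succAbove 5 (1 : Fin 5) = (1 : Fin 6) := by decide
        simp [this, hi]
      · have : Fin.succAbove 5 (2 : Fin 5) = (2 : Fin 6) := by decide
        simp [this, hi]
      · have : Fin.succAbove 5 (3 : Fin 5) = (3 : Fin 6) := by decide
        simp [this, hi]
      · have h4 : Fin.succAbove 5 (4 : Fin 5) = (4 : Fin 6) := by decide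
        simp [h4, hi]
        exact this
    · intro i
      exact hi_nonneg _
  rw [smul_eq_mul]
  positivity

lemma bI_add (W X : V → Bil) (hW : Continuous W) (hX : Continuous X) :
    bI (fun p => W p + X p) = bI W + bI X := by
  unfold bI
  have hl : ∀ x : ℝ, Continuous (fun y : ℝ => (0 : V) + x • bv 2 + y • bv 3) := by
    intro x; fun_prop
  have hl2 : Continuous (fun z : ℝ × ℝ => (0 : V) + z.1 • bv 2 + z.2 • bv 3) := by fun_prop
  have h1 : ∀ (Y : V → Bil), Continuous Y → ∀ x : ℝ,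
      Continuous (fun y : ℝ => Y (0 + x • bv 2 + y • bv 3) (bv 2) (bv 3)) := fun Y hY x =>
    (cont_coef Y hY _ _).comp (hl x)
  have h2 : ∀ (Y : V → Bil), Continuous Y → Continuous (fun x : ℝ =>
      ∫ y in (0 : ℝ)..1, Y (0 + x • bv 2 + y • bv 3) (bv 2) (bv 3)) := fun Y hY =>
    intervalIntegral.continuous_parametric_intervalIntegral_of_continuous'
      (f := fun x y => Y (0 + x • bv 2 + y • bv 3) (bv 2) (bv 3))
      ((cont_coef Y hY _ _).comp hl2) 0 1
  simp only [add_apply]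
  rw [← intervalIntegral.integral_add ((h2 W hW).intervalIntegrable _ _)
    ((h2 X hX).intervalIntegrable _ _)]
  refine intervalIntegral.integral_congr fun x _ => ?_
  exact intervalIntegral.integral_add ((h1 W hW x).intervalIntegrable _ _)
    ((h1 X hX x).intervalIntegrable _ _)

lemma cI_add (W X : V → Bil) (hW : Continuous W) (hX : Continuous X) :
    cI (fun p => W p + X p) = cI W + cI X := by
  unfold cI
  have hl : ∀ x : ℝ, Continuous (fun y : ℝ => (0 : V) + x • ((2 * π) • bv 4) + y • bv 5) := by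
    intro x; fun_prop
  have hl2 : Continuous (fun z : ℝ × ℝ => (0 : V) + z.1 • ((2 * π) • bv 4) + z.2 • bv 5) := by
    fun_prop
  have h1 : ∀ (Y : V → Bil), Continuous Y → ∀ x : ℝ,
      Continuous (fun y : ℝ => Y (0 + x • ((2 * π) • bv 4) + y • bv 5) ((2 * π) • bv 4) (bv 5)) :=
    fun Y hY x => (cont_coef Y hY _ _).comp (hl x)
  have h2 : ∀ (Y : V → Bil), Continuous Y → Continuous (fun x : ℝ =>
      ∫ y in (0 : ℝ)..π, Y (0 + x • ((2 * π) • bv 4) + y • bv 5) ((2 * π) • bv 4) (bv 5)) :=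
    fun Y hY =>
    intervalIntegral.continuous_parametric_intervalIntegral_of_continuous'
      (f := fun x y => Y (0 + x • ((2 * π) • bv 4) + y • bv 5) ((2 * π) • bv 4) (bv 5))
      ((cont_coef Y hY _ _).comp hl2) 0 π
  simp only [add_apply]
  rw [← intervalIntegral.integral_add ((h2 W hW).intervalIntegrable _ _)
    ((h2 X hX).intervalIntegrable _ _)]
  refine intervalIntegral.integral_congr fun x _ => ?_
  exact intervalIntegral.integral_add ((h1 W hW x).intervalIntegrable _ _)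
    ((h1 X hX x).intervalIntegrable _ _)

/-- the cohomological evaluation. -/
theorem evaluation (W : V → Bil) (gW : Good W) : ∃ a K : ℝ, 0 < K ∧
    (∫ p in Icc 0 hi, T (W p) (W p) (W p)) = a * (bI W * cI W) ∧
    (∫ p in Icc 0 hi, T AA (W p) (W p)) = K * (bI W * cI W) := by
  obtain ⟨a, c, R, h, sh, ih, gR, R0, R4, hdec⟩ := decomp W gW
  set W0 : V → Bil := fun p => (1 : ℝ) • (a • AA + c • (sin (p 5) • SS)) + (1 : ℝ) • R p with hW0
  have gW0 : Good W0 := (good_AA.comb good_SS a c).comb gR 1 1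
  have hdec' : ∀ p, W p = W0 p + d1 h p := by
    intro p
    rw [hdec p, hW0]
    simp only [one_smul]
  have R0' : ∀ p u, R p u (bv 0) = 0 := fun p u => by rw [gR.skew, R0, neg_zero]
  have R4' : ∀ p u, R p u (bv 4) = 0 := fun p u => by rw [gR.skew, R4, neg_zero]
  have hc0 := gW0.smooth.continuous
  have hcube : ∀ p, T (W0 p) (W0 p) (W0 p) = 6 * a * c * (-8) *
      (sin (p 5) * R p (bv 2) (bv 3)) := by
    intro p
    have e : W0 p = a • AA + (c * sin (p 5)) • SS + R p := by
      rw [hW0]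
      simp only [one_smul, smul_smul]
    rw [e, T_cube a _ (R p) (R0 p) (R0' p) (R4 p) (R4' p), T_eval AA (R p) SS AA_bv SS_bv,
      gR.skew p (bv 3) (bv 2)]
    ring
  have hsq : ∀ p, T AA (W0 p) (W0 p) = 2 * c * (-8) * (sin (p 5) * R p (bv 2) (bv 3)) := by
    intro p
    have e : W0 p = a • AA + (c * sin (p 5)) • SS + R p := by
      rw [hW0]
      simp only [one_smul, smul_smul]
    rw [e, T_AA_sq a _ (R p) (R4 p) (R4' p), T_eval AA (R p) SS AA_bv SS_bv,
      gR.skew p (bv 3) (bv 2)]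
    ring
  have hWfun : W = fun p => W0 p + d1 h p := funext hdec'
  have hb : bI W = bI R := by
    rw [hWfun, bI_add W0 (d1 h) hc0 (cont_d1 h sh), bI_d1 h sh ih, add_zero]
    unfold bI
    refine intervalIntegral.integral_congr fun x _ => ?_
    refine intervalIntegral.integral_congr fun y _ => ?_
    simp only [hW0, one_smul, add_apply, smul_apply, AA_bv, SS_bv]
    simp [Az, Sz]
  have hc : cI W = -(4 * π) * c := by
    rw [hWfun, cI_add W0 (d1 h) hc0 (cont_d1 h sh), cI_d1 h sh ih, add_zero]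
    unfold cI
    have e : ∀ x y : ℝ, W0 (0 + x • ((2 * π) • bv 4) + y • bv 5) ((2 * π) • bv 4) (bv 5) =
        (-(2 * π) * c) * sin y := by
      intro x y
      have h5 : ((0 : V) + x • ((2 * π) • bv 4) + y • bv 5) 5 = y := by simp [bv]
      simp only [hW0, one_smul, add_apply, smul_apply, map_smul, AA_bv, SS_bv, R4, h5]
      simp [Az, Sz]
      ring
    simp_rw [e]
    rw [intervalIntegral.integral_const_mul, integral_sin]
    simp
    ring
  have hpi := Real.pi_pos
  have hcval : c = - cI W / (4 * π) := by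
    rw [hc]
    field_simp
  have hk := kappa_pos
  refine ⟨6 * a * (8 / (4 * π)) * ∫ p in Icc 0 hi, sin (p 5),
    2 * (8 / (4 * π)) * ∫ p in Icc 0 hi, sin (p 5), by positivity, ?_, ?_⟩
  · rw [int_replace W W0 W W h sh ih hdec' hc0 gW gW]
    have e1 : ∫ p in Icc 0 hi, T (W0 p) (W p) (W p) = ∫ p in Icc 0 hi, T (W p) (W0 p) (W p) := by
      simp_rw [T_swap12 (W0 _) (W _)]
    rw [e1, int_replace W W0 W0 W h sh ih hdec' hc0 gW0 gW]
    have e2 : ∫ p in Icc 0 hi, T (W0 p) (W0 p) (W p) = ∫ p in Icc 0 hi, T (W p) (W0 p) (W0 p) := by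
      refine setIntegral_congr_fun measurableSet_Icc fun p _ => ?_
      show T (W0 p) (W0 p) (W p) = T (W p) (W0 p) (W0 p)
      rw [T_swap23, T_swap12]
    rw [e2, int_replace W W0 W0 W0 h sh ih hdec' hc0 gW0 gW0]
    simp_rw [hcube]
    rw [integral_const_mul, box_avg R gR, ← hb]
    rw [hcval]
    field_simp
  · have e1 : ∫ p in Icc 0 hi, T AA (W p) (W p) = ∫ p in Icc 0 hi, T (W p) AA (W p) := by
      simp_rw [T_swap12 AA (W _)]
    rw [e1, int_replace W W0 (fun _ => AA) W h sh ih hdec' hc0 good_AA gW]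
    have e2 : ∫ p in Icc 0 hi, T (W0 p) AA (W p) = ∫ p in Icc 0 hi, T (W p) (W0 p) AA := by
      refine setIntegral_congr_fun measurableSet_Icc fun p _ => ?_
      show T (W0 p) AA (W p) = T (W p) (W0 p) AA
      rw [T_swap23, T_swap12]
    rw [e2, int_replace W W0 W0 (fun _ => AA) h sh ih hdec' hc0 gW0 good_AA]
    have e3 : ∫ p in Icc 0 hi, T (W0 p) (W0 p) AA = ∫ p in Icc 0 hi, T AA (W0 p) (W0 p) := by
      refine setIntegral_congr_fun measurableSet_Icc fun p _ => ?_
      show T (W0 p) (W0 p) AA = T AA (W0 p) (W0 p)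
      rw [T_swap23, T_swap12]
    rw [e3]
    simp_rw [hsq]
    rw [integral_const_mul, box_avg R gR, ← hb]
    rw [hcval]
    field_simp

end H711R4
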