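import Mathlib

/-!
Spherical coordinates, and liftings on `ℝ⁴ × S²`.
-/

open scoped Manifold ContDiff
open Set Filter Topology Real

namespace H711R4

abbrev E3 : Type := EuclideanSpace ℝ (Fin 3)
abbrev E2 : Type := EuclideanSpace ℝ (Fin 2)
/-- the unit sphere in `ℝ³` -/
abbrev S2 : Type := Metric.sphere (0 : E3) 1

/-- spherical coordinates -/
noncomputable def sp (z : ℝ × ℝ) : E3 := WithLp.toLp 2 ![sin z.2 * cos z.1, sin z.2 * sin z.1, cos z.2]

lemma sp_mem (z : ℝ × ℝ) : sp z ∈ Metric.sphere (0 : E3) 1 := by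
  rw [mem_sphere_zero_iff_norm, EuclideanSpace.norm_eq, Real.sqrt_eq_one]
  simp only [sp, Fin.sum_univ_three, Real.norm_eq_abs, sq_abs]
  have h1 := sin_sq_add_cos_sq z.1
  have h2 := sin_sq_add_cos_sq z.2
  simp
  nlinarith

lemma sp_continuous : Continuous sp := by
  unfold sp
  refine (PiLp.continuous_toLp 2 _).comp ?_
  refine continuous_pi fun i => ?_
  fin_cases i <;> simp <;> fun_prop

noncomputable def PS (z : ℝ × ℝ) : S2 := ⟨sp z, sp_mem z⟩

lemma PS_continuous : Continuous PS := sp_continuous.subtype_mk _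

lemma PS_surj (q : S2) : ∃ z : ℝ × ℝ, z ∈ Icc (0 : ℝ) (2 * π) ×ˢ Icc (0 : ℝ) π ∧ PS z = q := by
  obtain ⟨q, hq⟩ := q
  rw [mem_sphere_zero_iff_norm, EuclideanSpace.norm_eq, Real.sqrt_eq_one] at hq
  simp only [Fin.sum_univ_three, Real.norm_eq_abs, sq_abs] at hq
  set w : ℂ := ⟨q 0, q 1⟩ with hw
  have hz1 : -1 ≤ q 2 := by nlinarith
  have hz2 : q 2 ≤ 1 := by nlinarith
  have hnorm : ‖w‖ = sin (arccos (q 2)) := by
    rw [Real.sin_arccos, Complex.norm_def, Complex.normSq_mk]
    congr 1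
    nlinarith
  have hcos : cos (arccos (q 2)) = q 2 := Real.cos_arccos hz1 hz2
  have hx : ‖w‖ * cos w.arg = q 0 := Complex.norm_mul_cos_arg w
  have hy : ‖w‖ * sin w.arg = q 1 := Complex.norm_mul_sin_arg w
  have hb : arccos (q 2) ∈ Icc (0 : ℝ) π := ⟨arccos_nonneg _, arccos_le_pi _⟩
  rcases le_or_gt 0 w.arg with h0 | h0
  · refine ⟨(w.arg, arccos (q 2)), ⟨⟨h0, ?_⟩, hb⟩, ?_⟩
    · have := Complex.arg_le_pi w
      have := Real.pi_pos
      simp only
      linarith
    · apply Subtype.ext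
      ext i
      fin_cases i
      · show sin (arccos (q 2)) * cos w.arg = q 0
        rw [← hnorm, hx]
      · show sin (arccos (q 2)) * sin w.arg = q 1
        rw [← hnorm, hy]
      · exact hcos
  · refine ⟨(w.arg + 2 * π, arccos (q 2)), ⟨⟨?_, ?_⟩, hb⟩, ?_⟩
    · have := Complex.neg_pi_lt_arg w
      have := Real.pi_pos
      simp only
      linarith
    · simp only
      linarith
    · apply Subtype.ext
      ext i
      fin_cases i
      · show sin (arccos (q 2)) * cos (w.arg + 2 * π) = q 0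
        rw [← hnorm, Real.cos_add_two_pi, hx]
      · show sin (arccos (q 2)) * sin (w.arg + 2 * π) = q 1
        rw [← hnorm, Real.sin_add_two_pi, hy]
      · exact hcos

lemma PS_inj {z z' : ℝ × ℝ} (hz : z.2 ∈ Icc (0 : ℝ) π) (hz' : z'.2 ∈ Icc (0 : ℝ) π)
    (h : PS z = PS z') : z.2 = z'.2 ∧ (sin z.2 = 0 ∨ ∃ n : ℤ, z'.1 = z.1 + n * (2 * π)) := by
  have h' : sp z = sp z' := congrArg Subtype.val h
  have h0 : sin z.2 * cos z.1 = sin z'.2 * cos z'.1 := congrFun (congrArg WithLp.ofLp h') 0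
  have h1 : sin z.2 * sin z.1 = sin z'.2 * sin z'.1 := congrFun (congrArg WithLp.ofLp h') 1
  have h2 : cos z.2 = cos z'.2 := congrFun (congrArg WithLp.ofLp h') 2
  have hb : z.2 = z'.2 := Real.injOn_cos hz hz' h2
  refine ⟨hb, ?_⟩
  by_cases hs : sin z.2 = 0
  · exact Or.inl hs
  · right
    rw [← hb] at h0 h1
    have hc := mul_left_cancel₀ hs h0
    have hsn := mul_left_cancel₀ hs h1
    have ha := Real.Angle.cos_sin_inj hc hsn
    rw [Real.Angle.angle_eq_iff_two_pi_dvd_sub] at ha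
    obtain ⟨k, hk⟩ := ha
    refine ⟨-k, ?_⟩
    push_cast
    linarith

lemma PS_pole {a a' b : ℝ} (hb : sin b = 0) : PS (a, b) = PS (a', b) := by
  apply Subtype.ext
  ext i
  fin_cases i
  · show sin b * cos a = sin b * cos a'
    rw [hb]; ring
  · show sin b * sin a = sin b * sin a'
    rw [hb]; ring
  · rfl

lemma PS_per (a b : ℝ) : PS (a + 2 * π, b) = PS (a, b) := by
  apply Subtype.ext
  ext i
  fin_cases i
  · show sin b * cos (a + 2 * π) = sin b * cos a
    rw [Real.cos_add_two_pi]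
  · show sin b * sin (a + 2 * π) = sin b * sin a
    rw [Real.sin_add_two_pi]
  · rfl

section lift

variable {E : Type} [NormedAddCommGroup E] [NormedSpace ℝ E] {X : Type} [TopologicalSpace X]
  {Y : Type} [TopologicalSpace Y]

/-- continuous maps on `E × S²` lift to coverings. -/
theorem exists_lift {p : Y → X} (hp : IsCoveringMap p) (hs : Function.Surjective p)
    (Φ : E × S2 → X) (hΦ : Continuous Φ) :
    ∃ F : E × S2 → Y, Continuous F ∧ ∀ z, p (F z) = Φ z := by
  set Ψ : C(E × (ℝ × ℝ), X) := ⟨fun z => Φ (z.1, PS z.2), hΦ.comp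
    (continuous_fst.prodMk (PS_continuous.comp continuous_snd))⟩ with hΨ
  obtain ⟨e0, he0⟩ := hs (Ψ 0)
  obtain ⟨G, ⟨hG0, hG⟩, -⟩ := hp.existsUnique_continuousMap_lifts Ψ 0 e0 he0
  have hG' : ∀ z, p (G z) = Φ (z.1, PS z.2) := fun z => congrFun hG z
  -- constant at the poles
  have hpole : ∀ (x : E) (a a' b : ℝ), sin b = 0 → G (x, (a, b)) = G (x, (a', b)) := by
    intro x a a' b hb
    have h := hp.eq_of_comp_eq (A := ℝ) (g₁ := fun s => G (x, (s, b)))
      (g₂ := fun _ => G (x, (a', b))) (by fun_prop) continuous_const (by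
        funext s
        show p (G (x, (s, b))) = p (G (x, (a', b)))
        rw [hG', hG']
        simp only
        rw [PS_pole (a' := a') hb]) a' rfl
    exact congrFun h a
  have hper : ∀ z : E × (ℝ × ℝ), G (z.1, (z.2.1 + 2 * π, z.2.2)) = G z := by
    have h := hp.eq_of_comp_eq (A := E × (ℝ × ℝ))
      (g₁ := fun z => G (z.1, (z.2.1 + 2 * π, z.2.2)))
      (g₂ := G) (by fun_prop) G.continuous (by
        funext z
        show p (G (z.1, (z.2.1 + 2 * π, z.2.2))) = p (G z)
        rw [hG', hG']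
        simp only
        rw [PS_per]) (0, (0, 0)) (hpole _ _ _ _ sin_zero)
    exact fun z => congrFun h z
  have hperz : ∀ (n : ℤ) (x : E) (a b : ℝ), G (x, (a + n * (2 * π), b)) = G (x, (a, b)) := by
    intro n x a b
    have hp' : Function.Periodic (fun s => G (x, (s, b))) (2 * π) := fun s => hper (x, (s, b))
    exact hp'.int_mul n a
  have hcompat : ∀ (x : E) (z z' : ℝ × ℝ), z.2 ∈ Icc (0 : ℝ) π → z'.2 ∈ Icc (0 : ℝ) π →
      PS z = PS z' → G (x, z) = G (x, z') := by
    intro x z z' hz hz' h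
    obtain ⟨hb, h2⟩ := PS_inj hz hz' h
    obtain ⟨a, b⟩ := z
    obtain ⟨a', b'⟩ := z'
    simp only at hb h2
    subst hb
    rcases h2 with h2 | ⟨n, hn⟩
    · exact hpole x a a' b h2
    · rw [hn, hperz]
  choose c hc1 hc2 using PS_surj
  refine ⟨fun z => G (z.1, c z.2), ?_, ?_⟩
  · let K : Type := ↥(Icc (0 : ℝ) (2 * π) ×ˢ Icc (0 : ℝ) π)
    have : CompactSpace K := isCompact_iff_compactSpace.1 (isCompact_Icc.prod isCompact_Icc)
    have hr : IsProperMap (fun k : K => PS k.1) :=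
      (PS_continuous.comp continuous_subtype_val).isProperMap
    have hq : IsProperMap (Prod.map (id : E → E) (fun k : K => PS k.1)) := isProperMap_id.prodMap hr
    have hsurj : Function.Surjective (Prod.map (id : E → E) (fun k : K => PS k.1)) := by
      rintro ⟨x, q⟩
      exact ⟨(x, ⟨c q, hc1 q⟩), by simp [hc2]⟩
    have hquot := hq.isClosedMap.isQuotientMap hq.continuous hsurj
    rw [hquot.continuous_iff]
    have : ((fun z : E × S2 => G (z.1, c z.2)) ∘ Prod.map (id : E → E) (fun k : K => PS k.1)) =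
        fun z : E × K => G (z.1, z.2.1) := by
      funext z
      obtain ⟨x, k, hk⟩ := z
      show G (x, c (PS k)) = G (x, k)
      exact hcompat x _ _ (hc1 _).2 hk.2 (hc2 _)
    rw [this]
    exact G.continuous.comp (continuous_fst.prodMk
      ((continuous_subtype_val (p := fun z : ℝ × ℝ => z ∈ Icc (0 : ℝ) (2 * π) ×ˢ Icc (0 : ℝ) π)).comp
        continuous_snd))
  · intro z
    rw [hG']
    simp only
    rw [hc2]

end lift

end H711R4
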