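import Pool.Agent.H711R4.QMfd
import Pool.Agent.H711R4.Sph

/-!
Equivariant liftings of self maps of `X × S²`.
-/

open Set Filter Topology Real

namespace H711R4

lemma PS_surjective : Function.Surjective PS := fun q => by
  obtain ⟨z, -, hz⟩ := PS_surj q
  exact ⟨z, hz⟩

instance : ConnectedSpace S2 := PS_surjective.connectedSpace PS_continuous

lemma lift_equivariant (Φ : XX × S2 → XX × S2) (hΦ : Continuous Φ) :
    ∃ (F : E4 × S2 → E4) (al : Gam →* Gam), Continuous F ∧
      (∀ z, pj (F z) = (Φ (pj z.1, z.2)).1) ∧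
      ∀ (g : Gam) (x : E4) (q : S2), F (g • x, q) = al g • F (x, q) := by
  obtain ⟨F, hF, hFp⟩ := exists_lift pj_isCoveringMap pj_surjective
    (fun z : E4 × S2 => (Φ (pj z.1, z.2)).1)
    (continuous_fst.comp (hΦ.comp ((pj_continuous.comp continuous_fst).prodMk continuous_snd)))
  set n : S2 := PS (0, 0)
  have h1 : ∀ g : Gam, ∃ h : Gam, h • F (0, n) = F (g • (0 : E4), n) := by
    intro g
    have h2 : pj (F (g • (0 : E4), n)) = pj (F (0, n)) := by
      rw [hFp, hFp]
      simp only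
      rw [pj_smul]
    exact pj_eq_iff.1 h2
  choose al0 hal0 using h1
  have h2 : ∀ (g : Gam) (x : E4) (q : S2), F (g • x, q) = al0 g • F (x, q) := by
    intro g x q
    have hsm : ∀ g : Gam, Continuous (fun y : E4 => g • y) := fun g => (contDiff_smul g).continuous
    have h := pj_isCoveringMap.eq_of_comp_eq (A := E4 × S2) (g₁ := fun z => F (g • z.1, z.2))
      (g₂ := fun z => al0 g • F z)
      (hF.comp (((hsm g).comp continuous_fst).prodMk continuous_snd)) ((hsm _).comp hF) (by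
        funext z
        show pj (F (g • z.1, z.2)) = pj (al0 g • F z)
        rw [pj_smul, hFp, hFp]
        simp only
        rw [pj_smul]) (0, n) (hal0 g).symm
    exact congrFun h (x, q)
  refine ⟨F, MonoidHom.mk' al0 ?_, hF, hFp, h2⟩
  intro g h
  apply smul_free (x := F (0, n))
  rw [mul_smul, hal0 (g * h), mul_smul, h2, hal0 h]

theorem lift_conj (Φ Ψ : XX × S2 → XX × S2) (hΦ : Continuous Φ)
    (hΨΦ : ∀ z, Ψ (Φ z) = z) (F F' : E4 × S2 → E4) (al be : Gam →* Gam) (hF : Continuous F)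
    (hF' : Continuous F') (hFp : ∀ z, pj (F z) = (Φ (pj z.1, z.2)).1)
    (hFp' : ∀ z, pj (F' z) = (Ψ (pj z.1, z.2)).1)
    (hal : ∀ (g : Gam) (x : E4) (q : S2), F (g • x, q) = al g • F (x, q))
    (hbe : ∀ (g : Gam) (x : E4) (q : S2), F' (g • x, q) = be g • F' (x, q)) :
    ∃ d : Gam, ∀ g, be (al g) = d * g * d⁻¹ := by
  set K : E4 × S2 → E4 := fun z => F' (F z, (Φ (pj z.1, z.2)).2) with hK
  have hKc : Continuous K := hF'.comp (hF.prodMk (continuous_snd.comp
    (hΦ.comp ((pj_continuous.comp continuous_fst).prodMk continuous_snd))))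
  have hKp : ∀ z, pj (K z) = pj z.1 := by
    intro z
    rw [hK]
    simp only
    rw [hFp']
    simp only
    rw [hFp]
    have : ((Φ (pj z.1, z.2)).1, (Φ (pj z.1, z.2)).2) = Φ (pj z.1, z.2) := rfl
    rw [this, hΨΦ]
  obtain ⟨d, hd⟩ := pj_eq_iff.1 (hKp (0, PS (0, 0)))
  have hsm : ∀ g : Gam, Continuous (fun y : E4 => g • y) := fun g => (contDiff_smul g).continuous
  have hKd : ∀ z, K z = d • z.1 := by
    intro z
    have h := pj_isCoveringMap.eq_of_comp_eq (A := E4 × S2) (g₁ := K)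
      (g₂ := fun z => d • z.1) hKc ((hsm d).comp continuous_fst) (by
        funext z
        show pj (K z) = pj (d • z.1)
        rw [pj_smul, hKp]) (0, PS (0, 0)) hd.symm
    exact congrFun h z
  refine ⟨d, fun g => ?_⟩
  have h1 : K (g • (0 : E4), PS (0, 0)) = be (al g) • K (0, PS (0, 0)) := by
    rw [hK]
    simp only
    rw [hal, pj_smul, hbe]
  rw [hKd, hKd] at h1
  simp only at h1
  rw [← mul_smul, ← mul_smul] at h1
  have h2 := smul_free h1
  rw [h2]
  group

theorem lift_det (Φ Ψ : XX × S2 → XX × S2) (hΦ : Continuous Φ) (hΨ : Continuous Ψ)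
    (hΨΦ : ∀ z, Ψ (Φ z) = z) :
    ∃ (F : E4 × S2 → E4) (al : Gam →* Gam), Continuous F ∧
      (∀ z, pj (F z) = (Φ (pj z.1, z.2)).1) ∧
      (∀ (g : Gam) (x : E4) (q : S2), F (g • x, q) = al g • F (x, q)) ∧
      (Gam.mat al).det = 1 := by
  obtain ⟨F, al, hF, hFp, hal⟩ := lift_equivariant Φ hΦ
  obtain ⟨F', be, hF', hFp', hbe⟩ := lift_equivariant Ψ hΨ
  obtain ⟨d, hd⟩ := lift_conj Φ Ψ hΦ hΨΦ F F' al be hF hF' hFp hFp' hal hbe
  exact ⟨F, al, hF, hFp, hal, Gam.aut_det al be d hd⟩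

end H711R4
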