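import Pool.Agent.H711R4.Imm
import Pool.Agent.H711R4.LiftEq

/-!
Smoothness of liftings, plots of product forms, forms on surfaces.
-/

open scoped Manifold ContDiff
open Set Filter Topology Real

namespace H711R4

open FourSix

/-- liftings of smooth maps are smooth. -/
lemma lift_smooth {F : Type} [NormedAddCommGroup F] [NormedSpace ℝ F] (G : F → E4)
    (hG : Continuous G) (h : ContMDiff 𝓘(ℝ, F) (𝓡 4) ∞ (pj ∘ G)) : ContDiff ℝ ∞ G := by
  rw [contDiff_iff_contDiffAt]
  intro p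
  have h1 := contDiffAt_chart_comp (I := 𝓡 4) (pj ∘ G) h p
  obtain ⟨g, hg⟩ := local_inv (pj (G p)) (G p) (mem_target (pj (G p)))
  have h2 : (extChartAt (𝓡 4) ((pj ∘ G) p) ∘ (pj ∘ G)) =ᶠ[𝓝 p] fun y => g • G y := by
    have := (hG.tendsto p).eventually hg
    exact this
  have h3 : ContDiffAt ℝ ∞ (fun y => g • G y) p := h1.congr_of_eventuallyEq h2.symm
  have h4 : ContDiffAt ℝ ∞ (fun y => g⁻¹ • (g • G y)) p :=
    ContDiffAt.comp (g := fun y : E4 => g⁻¹ • y) p
      ((contDiff_smul g⁻¹).of_le (by simp)).contDiffAt h3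
  simpa using h4

lemma plot_lift {F : Type} [NormedAddCommGroup F] [NormedSpace ℝ F] (G : F → E4)
    (hG : ContDiff ℝ ∞ G) (ε : ℝ) (p u v : F) :
    plot (pj ∘ G) (omX ε) p u v = ε * Om0 (fderiv ℝ G p u) (fderiv ℝ G p v) := by
  rw [plot_comp pj G (omX ε) p ((pj_contMDiff _).mdifferentiableAt (by simp))
    (hG.differentiable (by simp) p), plot_pj]

section

variable {E : Type} [NormedAddCommGroup E] [NormedSpace ℝ E] {H : Type} [TopologicalSpace H]
  {I : ModelWithCorners ℝ E H} {M : Type} [TopologicalSpace M] [ChartedSpace H M]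
  {E' : Type} [NormedAddCommGroup E'] [NormedSpace ℝ E'] {H' : Type} [TopologicalSpace H']
  {I' : ModelWithCorners ℝ E' H'} {M' : Type} [TopologicalSpace M'] [ChartedSpace H' M']
  {F : Type} [NormedAddCommGroup F] [NormedSpace ℝ F]

lemma plot_pullback (g : F → M) (f : M → M') (η : Form I' M') (p : F)
    (hg : MDifferentiableAt 𝓘(ℝ, F) I g p) (hf : MDifferentiableAt I I' f (g p)) :
    plot g (pullback (I := I) f η) p = plot (f ∘ g) η p :=
  (pullback_comp (I := 𝓘(ℝ, F)) (I' := I) (I'' := I') g f η p hg hf).symm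

lemma plot_prodForm (g : F → M × M') (η : Form I M) (σ : Form I' M') (p u v : F)
    (hg : MDifferentiableAt 𝓘(ℝ, F) (I.prod I') g p) :
    plot g (prodForm η σ) p u v =
      plot (Prod.fst ∘ g) η p u v + plot (Prod.snd ∘ g) σ p u v := by
  rw [← plot_pullback (I := I.prod I') g Prod.fst η p hg mdifferentiableAt_fst,
    ← plot_pullback (I := I.prod I') g Prod.snd σ p hg mdifferentiableAt_snd]
  rfl

end

/-- alternating forms on the plane. -/
lemma bil_plane (B : E2 →L[ℝ] E2 →L[ℝ] ℝ) (hB : ∀ v, B v v = 0) (a b : E2) :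
    B a b = B (EuclideanSpace.single 0 1) (EuclideanSpace.single 1 1) *
      (a 0 * b 1 - a 1 * b 0) := by
  have ha : ∀ a : E2, a = a 0 • EuclideanSpace.single 0 (1 : ℝ) +
      a 1 • EuclideanSpace.single 1 (1 : ℝ) := by
    intro a
    ext i
    fin_cases i <;> simp
  have h0 := hB (EuclideanSpace.single 0 1)
  have h1 := hB (EuclideanSpace.single 1 1)
  have h2 := bil_skew hB (EuclideanSpace.single 1 (1 : ℝ)) (EuclideanSpace.single 0 (1 : ℝ))
  conv_lhs => rw [ha a, ha b]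
  simp only [map_add, map_smul, add_apply, smul_apply, smul_eq_mul, h0, h1, h2]
  ring

/-- the square of the pull back of an area form vanishes. -/
lemma T_plot_surface (g : V → S2) {σ : Form (𝓡 2) S2} (hσ : ∀ p v, σ p v v = 0) (a : Bil) (p : V) :
    T a (plot g σ p) (plot g σ p) = 0 := by
  set D : V →L[ℝ] E2 := mfderiv 𝓘(ℝ, V) (𝓡 2) g p with hD
  set B : E2 →L[ℝ] E2 →L[ℝ] ℝ := σ (g p) with hB
  set c : ℝ := B (EuclideanSpace.single 0 1) (EuclideanSpace.single 1 1) with hc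
  refine T_rank_two a _ (c • (EuclideanSpace.proj 0 : E2 →L[ℝ] ℝ).comp D)
    ((EuclideanSpace.proj 1 : E2 →L[ℝ] ℝ).comp D) ?_
  intro u v
  have h1 : plot g σ p u v = B (D u) (D v) := plot_apply g σ p u v
  rw [h1, bil_plane B (hσ (g p)) (D u) (D v), ← hc]
  simp only [smul_apply, ContinuousLinearMap.comp_apply, smul_eq_mul]
  have e0 : ∀ w : E2, (EuclideanSpace.proj 0 : E2 →L[ℝ] ℝ) w = w 0 := fun w => rfl
  have e1 : ∀ w : E2, (EuclideanSpace.proj 1 : E2 →L[ℝ] ℝ) w = w 1 := fun w => rfl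
  rw [e0, e0, e1, e1]
  ring

end H711R4
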