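import Pool.Agent.H711R4.Fin1

/-!
Integrals: nonvanishing, continuity in the parameter, and the pull back of `dx ∧ dy` by a lifting.
-/

open scoped Manifold ContDiff
open Set Filter Topology Real MeasureTheory

namespace H711R4

open FourSix

lemma int_pos_aux (F : V → ℝ) (hF : Continuous F) (h : ∀ p : V, 0 < p 5 → p 5 < π → 0 < F p) :
    0 < ∫ p in Icc 0 hi, F p := by
  have hpi := Real.pi_pos
  set S : Set V := (fun p : V => p 5) ⁻¹' Ioo 0 π with hS
  have hopen : IsOpenMap (fun p : V => p 5) := isOpenMap_eval 5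
  have hcont : Continuous (fun p : V => p 5) := continuous_apply 5
  have hcl : closure S ⊆ {p | 0 ≤ F p} := by
    refine closure_minimal (fun p hp => (h p hp.1 hp.2).le) (isClosed_le continuous_const hF)
  have hcl2 : ∀ p : V, 0 ≤ p 5 → p 5 ≤ π → 0 ≤ F p := by
    intro p h0 h1
    apply hcl
    rw [hS, ← hopen.preimage_closure_eq_closure_preimage hcont, closure_Ioo hpi.ne]
    exact ⟨h0, h1⟩
  have hnn : 0 ≤ᵐ[volume.restrict (Icc 0 hi)] F := by
    refine (ae_restrict_iff' measurableSet_Icc).2 (Eventually.of_forall fun p hp => ?_)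
    refine hcl2 p (hp.1 5) ?_
    have := hp.2 5
    simpa [hi] using this
  rw [setIntegral_pos_iff_support_of_nonneg_ae hnn
    (hF.continuousOn.integrableOn_compact isCompact_Icc)]
  set B : Set V := Set.pi univ (fun i => Ioo 0 (hi i)) with hB
  have hBo : IsOpen B := isOpen_set_pi finite_univ fun i _ => isOpen_Ioo
  have hhi : ∀ i, 0 < hi i := by
    intro i
    fin_cases i <;> simp [hi, hpi]
  have hBn : B.Nonempty := ⟨fun i => hi i / 2, fun i _ => ⟨half_pos (hhi i), half_lt_self (hhi i)⟩⟩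
  refine lt_of_lt_of_le (hBo.measure_pos volume hBn) (measure_mono ?_)
  intro p hp
  refine ⟨?_, ?_⟩
  · have h5 := hp 5 (mem_univ _)
    refine (h p h5.1 ?_).ne'
    have := h5.2
    simpa [hi] using this
  · exact ⟨fun i => (hp i (mem_univ _)).1.le, fun i => (hp i (mem_univ _)).2.le⟩

lemma int_ne_zero (F : V → ℝ) (hF : Continuous F) (h : ∀ p : V, 0 < p 5 → p 5 < π → F p ≠ 0) :
    ∫ p in Icc 0 hi, F p ≠ 0 := by
  have hpi := Real.pi_pos
  set S : Set V := (fun p : V => p 5) ⁻¹' Ioo 0 π with hS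
  have hconv : Convex ℝ S := (convex_Ioo (0 : ℝ) π).linear_preimage
    (LinearMap.proj 5 : V →ₗ[ℝ] ℝ)
  have hpre := hconv.isPreconnected
  set c : V := fun _ => π / 2 with hc
  have hcS : c ∈ S := ⟨by show 0 < π / 2; linarith, by show π / 2 < π; linarith⟩
  rcases lt_or_gt_of_ne (h c hcS.1 hcS.2) with hneg | hpos
  · have : ∀ p : V, 0 < p 5 → p 5 < π → 0 < - F p := by
      intro p h0 h1
      by_contra hcon
      push Not at hcon
      have hp : 0 < F p := lt_of_le_of_ne (by linarith) (h p h0 h1).symm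
      obtain ⟨q, hq, hq0⟩ := hpre.intermediate_value (a := c) (b := p) hcS ⟨h0, h1⟩
        hF.continuousOn ⟨hneg.le, hp.le⟩
      exact h q hq.1 hq.2 hq0
    have h2 := int_pos_aux (fun p => - F p) hF.neg this
    rw [integral_neg] at h2
    linarith
  · have : ∀ p : V, 0 < p 5 → p 5 < π → 0 < F p := by
      intro p h0 h1
      by_contra hcon
      push Not at hcon
      have hp : F p < 0 := lt_of_le_of_ne (by linarith) (h p h0 h1)
      obtain ⟨q, hq, hq0⟩ := hpre.intermediate_value (a := p) (b := c) ⟨h0, h1⟩ hcS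
        hF.continuousOn ⟨hp.le, hpos.le⟩
      exact h q hq.1 hq.2 hq0
    exact (int_pos_aux F hF this).ne'

lemma param_int (g : ℝ → V → ℝ)
    (hg : ContinuousOn (fun z : ℝ × V => g z.1 z.2) (Icc (0 : ℝ) 1 ×ˢ univ)) :
    ∃ b : ℝ → ℝ, Continuous b ∧ ∀ t ∈ Icc (0 : ℝ) 1,
      b t = ∫ x in (0 : ℝ)..1, ∫ y in (0 : ℝ)..1, g t (0 + x • bv 2 + y • bv 3) := by
  set f : ℝ → ℝ → ℝ → ℝ := fun t x y =>
    g (projIcc (0 : ℝ) 1 zero_le_one t) (0 + x • bv 2 + y • bv 3) with hf
  have h1 : Continuous (fun z : (ℝ × ℝ) × ℝ => f z.1.1 z.1.2 z.2) := by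
    have hmap : Continuous (fun z : (ℝ × ℝ) × ℝ =>
        (((projIcc (0 : ℝ) 1 zero_le_one z.1.1 : ℝ)), ((0 : V) + z.1.2 • bv 2 + z.2 • bv 3))) := by
      refine Continuous.prodMk ?_ (by fun_prop)
      exact continuous_subtype_val.comp (continuous_projIcc.comp (by fun_prop))
    exact hg.comp_continuous hmap fun z => ⟨(projIcc (0 : ℝ) 1 zero_le_one z.1.1).2, mem_univ _⟩
  have h2 : Continuous (fun z : ℝ × ℝ => ∫ y in (0 : ℝ)..1, f z.1 z.2 y) :=
    intervalIntegral.continuous_parametric_intervalIntegral_of_continuous'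
      (f := fun (z : ℝ × ℝ) y => f z.1 z.2 y) h1 0 1
  have h3 : Continuous (fun t : ℝ => ∫ x in (0 : ℝ)..1, ∫ y in (0 : ℝ)..1, f t x y) :=
    intervalIntegral.continuous_parametric_intervalIntegral_of_continuous'
      (f := fun (t : ℝ) x => ∫ y in (0 : ℝ)..1, f t x y) h2 0 1
  refine ⟨_, h3, fun t ht => ?_⟩
  refine intervalIntegral.integral_congr fun x _ => ?_
  refine intervalIntegral.integral_congr fun y _ => ?_
  simp only [hf]
  rw [projIcc_of_mem zero_le_one ht]

/-- the fibre integral of a continuous family of forms is continuous. -/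
lemma bI_family {Ω : ℝ → Form ((𝓡 4).prod (𝓡 2)) (XX × S2)} (hΩ : ContinuousFamily Ω) :
    ∃ b : ℝ → ℝ, Continuous b ∧ ∀ t ∈ Icc (0 : ℝ) 1, b t = bI (plot QQ (Ω t)) :=
  param_int (fun t p => plot QQ (Ω t) p (bv 2) (bv 3))
    (plot_continuousOn QQ QQ_contMDiff hΩ (bv 2) (bv 3))

section rect

variable (G : V → E4) (hG : ContDiff ℝ ∞ G) (ε : ℝ)

/-- the primitive `ε/2 Ω₀(G, dG)` of the pull back of `ε Ω₀`. -/
noncomputable def hG1 (G : V → E4) (ε : ℝ) (p : V) : Lin := (ε / 2) • (Om0 (G p)).comp (fderiv ℝ G p)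

lemma hG1_apply (G : V → E4) (ε : ℝ) (p v : V) :
    hG1 G ε p v = ε / 2 * Om0 (G p) (fderiv ℝ G p v) := rfl

include hG in
lemma hG1_contDiff : ContDiff ℝ ∞ (hG1 G ε) := by
  have h1 : ContDiff ℝ ∞ (fderiv ℝ G) := hG.fderiv_right (by simp)
  have h2 : ContDiff ℝ ∞ (fun p => Om0 (G p)) := Om0.contDiff.comp hG
  exact (h2.clm_comp h1).const_smul (ε / 2)

include hG in
lemma hG1_d (p u v : V) : fderiv ℝ (hG1 G ε) p u v - fderiv ℝ (hG1 G ε) p v u =
    ε * Om0 (fderiv ℝ G p u) (fderiv ℝ G p v) := by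
  have h1 : ContDiff ℝ ∞ (fderiv ℝ G) := hG.fderiv_right (by simp)
  have hGd : HasFDerivAt G (fderiv ℝ G p) p := (hG.differentiable (by simp) p).hasFDerivAt
  have h1d : HasFDerivAt (fderiv ℝ G) (fderiv ℝ (fderiv ℝ G) p) p :=
    (h1.differentiable (by simp) p).hasFDerivAt
  have hO : HasFDerivAt (fun p => Om0 (G p)) (Om0.comp (fderiv ℝ G p)) p :=
    Om0.hasFDerivAt.comp p hGd
  have key : ∀ u v, fderiv ℝ (hG1 G ε) p u v = ε / 2 * (Om0 (fderiv ℝ G p u) (fderiv ℝ G p v) +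
      Om0 (G p) (fderiv ℝ (fderiv ℝ G) p u v)) := by
    intro u v
    have hh : HasFDerivAt (hG1 G ε) (fderiv ℝ (hG1 G ε) p) p :=
      ((hG1_contDiff G hG ε).differentiable (by simp) p).hasFDerivAt
    have e1 : HasFDerivAt (fun q => hG1 G ε q v)
        ((ContinuousLinearMap.apply ℝ ℝ v).comp (fderiv ℝ (hG1 G ε) p)) p :=
      (ContinuousLinearMap.apply ℝ ℝ v).hasFDerivAt.comp p hh
    have e2 : HasFDerivAt (fun q => fderiv ℝ G q v)
        ((ContinuousLinearMap.apply ℝ E4 v).comp (fderiv ℝ (fderiv ℝ G) p)) p :=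
      (ContinuousLinearMap.apply ℝ E4 v).hasFDerivAt.comp p h1d
    have e3 := (hO.clm_apply e2).const_mul (ε / 2)
    have e4 := congrArg (fun (L : V →L[ℝ] ℝ) => L u) (e1.unique e3)
    simp only [ContinuousLinearMap.comp_apply, ContinuousLinearMap.apply_apply, smul_apply,
      add_apply, ContinuousLinearMap.flip_apply, smul_eq_mul] at e4
    rw [e4]
    ring
  have hsym : IsSymmSndFDerivAt ℝ G p := hG.contDiffAt.isSymmSndFDerivAt (by
    simp only [minSmoothness_of_isRCLikeNormedField]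
    exact WithTop.coe_le_coe.2 le_top)
  rw [key, key, hsym u v]
  have hsk : Om0 (fderiv ℝ G p v) (fderiv ℝ G p u) = - Om0 (fderiv ℝ G p u) (fderiv ℝ G p v) := by
    rw [Om0_apply, Om0_apply]; ring
  rw [hsk]
  ring

include hG in
lemma line_int (L : E4 →L[ℝ] ℝ) (p e : V) (a : ℝ) :
    ∫ y in (0 : ℝ)..a, L (fderiv ℝ G (p + y • e) e) = L (G (p + a • e)) - L (G p) := by
  have hd : ∀ y ∈ uIcc (0 : ℝ) a, HasDerivAt (fun y : ℝ => L (G (p + y • e)))
      (L (fderiv ℝ G (p + y • e) e)) y := by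
    intro y _
    have h1 : HasDerivAt (fun y : ℝ => p + y • e) e y := by
      have := (hasDerivAt_id y).smul_const e
      simpa using this.const_add p
    have h2 : HasFDerivAt G (fderiv ℝ G (p + y • e)) (p + y • e) :=
      (hG.differentiable (by simp) _).hasFDerivAt
    exact L.hasFDerivAt.comp_hasDerivAt y (h2.comp_hasDerivAt y h1)
  have hc : Continuous (fun y : ℝ => L (fderiv ℝ G (p + y • e) e)) := by
    have h1 : Continuous (fderiv ℝ G) := hG.continuous_fderiv (by simp)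
    exact L.continuous.comp ((h1.comp (by fun_prop)).clm_apply continuous_const)
  rw [intervalIntegral.integral_eq_sub_of_hasDerivAt hd (hc.intervalIntegrable _ _)]
  simp

include hG in
/-- the integral over the fibre torus of the pull back, from the monodromy. -/
lemma bI_lift (b0 b1 : E4) (h2 : ∀ p, G (p + bv 2) = G p + b0) (h3 : ∀ p, G (p + bv 3) = G p + b1)
    (W : V → Bil) (hW : ∀ p u v, W p u v = ε * Om0 (fderiv ℝ G p u) (fderiv ℝ G p v)) :
    bI W = ε * Om0 b0 b1 := by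
  have hper : ∀ (e : V) (b : E4), (∀ p, G (p + e) = G p + b) → ∀ p,
      fderiv ℝ G (p + e) = fderiv ℝ G p := by
    intro e b h p
    have h1 : (fun x => G (x + e)) = fun x => G x + b := funext h
    have h4 := fderiv_comp_add_right (𝕜 := ℝ) (f := G) (x := p) e
    rw [← h4, h1]
    exact fderiv_add_const b
  have hc : Continuous (fderiv ℝ G) := hG.continuous_fderiv (by simp)
  have hh : ∀ (e : V) (b : E4), (∀ p, G (p + e) = G p + b) → ∀ p v,
      hG1 G ε (p + e) v = hG1 G ε p v + (ε / 2) * Om0 b (fderiv ℝ G p v) := by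
    intro e b h p v
    rw [hG1_apply, hG1_apply, hper e b h, h p, map_add, add_apply]
    ring
  have hi1 : ∀ (v p w : V), IntervalIntegrable (fun y : ℝ => hG1 G ε (p + y • w) v)
      MeasureTheory.volume 0 1 := by
    intro v p w
    have : Continuous (fun y : ℝ => hG1 G ε (p + y • w) v) :=
      ((hG1_contDiff G hG ε).continuous.comp (by fun_prop)).clm_apply continuous_const
    exact this.intervalIntegrable _ _
  have hi2 : ∀ (b : E4) (v p w : V), IntervalIntegrable
      (fun y : ℝ => (ε / 2) * Om0 b (fderiv ℝ G (p + y • w) v)) MeasureTheory.volume 0 1 := by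
    intro b v p w
    have : Continuous (fun y : ℝ => (ε / 2) * Om0 b (fderiv ℝ G (p + y • w) v)) :=
      continuous_const.mul ((Om0 b).continuous.comp
        ((hc.comp (by fun_prop)).clm_apply continuous_const))
    exact this.intervalIntegrable _ _
  unfold bI
  simp_rw [hW, ← hG1_d G hG ε]
  rw [rect_stokes (hG1 G ε) ((hG1_contDiff G hG ε).of_le (by simp)) 0 (bv 2) (bv 3) 1 1]
  have e1 : ∀ y : ℝ, hG1 G ε (0 + (1 : ℝ) • bv 2 + y • bv 3) (bv 3) =
      hG1 G ε (0 + y • bv 3) (bv 3) +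
        (ε / 2) * Om0 b0 (fderiv ℝ G (0 + y • bv 3) (bv 3)) := by
    intro y
    have : (0 : V) + (1 : ℝ) • bv 2 + y • bv 3 = (0 + y • bv 3) + bv 2 := by
      rw [one_smul]; abel
    rw [this, hh _ b0 h2]
  have e2 : ∀ x : ℝ, hG1 G ε (0 + x • bv 2 + (1 : ℝ) • bv 3) (bv 2) =
      hG1 G ε (0 + x • bv 2) (bv 2) +
        (ε / 2) * Om0 b1 (fderiv ℝ G (0 + x • bv 2) (bv 2)) := by
    intro x
    rw [one_smul, hh _ b1 h3]
  simp_rw [e1, e2]
  rw [intervalIntegral.integral_add (hi1 _ _ _) (hi2 _ _ _ _),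
    intervalIntegral.integral_add (hi1 _ _ _) (hi2 _ _ _ _),
    intervalIntegral.integral_const_mul, intervalIntegral.integral_const_mul,
    line_int G hG (Om0 b0) 0 (bv 3) 1, line_int G hG (Om0 b1) 0 (bv 2) 1]
  rw [one_smul, one_smul, h2, h3, map_add, map_add]
  have hsk : Om0 b1 b0 = - Om0 b0 b1 := by
    rw [Om0_apply, Om0_apply]; ring
  rw [hsk]
  ring

include hG in
/-- the integral over the sphere of the pull back vanishes. -/
lemma cI_lift (h4 : ∀ p, G (p + (2 * π) • bv 4) = G p)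
    (hpole : ∀ p : V, (p 5 = 0 ∨ p 5 = π) → ∀ s : ℝ, G (p + s • bv 4) = G p)
    (W : V → Bil) (hW : ∀ p u v, W p u v = ε * Om0 (fderiv ℝ G p u) (fderiv ℝ G p v)) :
    cI W = 0 := by
  have hper : ∀ p, fderiv ℝ G (p + (2 * π) • bv 4) = fderiv ℝ G p := by
    intro p
    have h1 : (fun x => G (x + (2 * π) • bv 4)) = G := funext h4
    have h5 := fderiv_comp_add_right (𝕜 := ℝ) (f := G) (x := p) ((2 * π) • bv 4)
    rw [← h5, h1]
  have hp0 : ∀ p : V, (p 5 = 0 ∨ p 5 = π) → fderiv ℝ G p (bv 4) = 0 := by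
    intro p hp
    have h1 := mfderiv_line_zero (I := 𝓡 4) G p (bv 4)
      (hG.differentiable (by simp) p).mdifferentiableAt (hpole p hp)
    rw [mfderiv_eq_fderiv] at h1
    exact h1
  unfold cI
  simp_rw [hW, ← hG1_d G hG ε]
  rw [rect_stokes (hG1 G ε) ((hG1_contDiff G hG ε).of_le (by simp)) 0 ((2 * π) • bv 4) (bv 5) 1 π]
  have e1 : ∀ y : ℝ, hG1 G ε (0 + (1 : ℝ) • ((2 * π) • bv 4) + y • bv 5) (bv 5) =
      hG1 G ε (0 + y • bv 5) (bv 5) := by
    intro y
    have : (0 : V) + (1 : ℝ) • ((2 * π) • bv 4) + y • bv 5 = (0 + y • bv 5) + (2 * π) • bv 4 := by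
      rw [one_smul]; abel
    rw [this, hG1_apply, hG1_apply, hper, h4]
  have hz : ∀ p : V, (p 5 = 0 ∨ p 5 = π) → hG1 G ε p ((2 * π) • bv 4) = 0 := by
    intro p hp
    rw [hG1_apply, map_smul, hp0 p hp, smul_zero, map_zero, mul_zero]
  have e2 : ∀ x : ℝ, hG1 G ε (0 + x • ((2 * π) • bv 4) + π • bv 5) ((2 * π) • bv 4) = 0 := by
    intro x
    apply hz
    right
    simp [bv]
  have e3 : ∀ x : ℝ, hG1 G ε (0 + x • ((2 * π) • bv 4)) ((2 * π) • bv 4) = 0 := by
    intro x
    apply hz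
    left
    simp [bv]
  simp_rw [e1, e2, e3]
  simp

end rect

end H711R4
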