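import Pool.Agent.H711R4.Fin2

/-!
The main theorem: `(X × S², ω ⊕ σ)` and `(X × S², -ω ⊕ σ')` are not deformation equivalent.
-/

open scoped Manifold ContDiff
open Set Filter Topology Real MeasureTheory

namespace H711R4

open FourSix Matrix

lemma lp_zero (x : E4) : lp 0 x = x := by
  apply ext4
  · rfl
  · rfl
  · rw [lp_2, ar_zero, ar_zero]; simp
  · rw [lp_3, ar_zero, ar_zero]; simp

lemma N_smul (v : Fin 2 → ℤ) (x : E4) : Gam.N v • x = x + tp (Gam.N v) := by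
  rw [smul_def]
  congr 1
  exact lp_zero x

lemma q4_bv2 (p : V) : q4 (p + bv 2) = Gam.N (Pi.single 0 1) • q4 p := by
  apply ext4
  · rw [smul_0, q4_0, q4_0]; simp [bv, Gam.N]
  · rw [smul_1, q4_1, q4_1]; simp [bv, Gam.N]
  · rw [smul_2, q4_2, q4_2]; simp [bv, ar_zero, Gam.N]
  · rw [smul_3, q4_3, q4_3]; simp [bv, ar_zero, Gam.N]

lemma q4_bv3 (p : V) : q4 (p + bv 3) = Gam.N (Pi.single 1 1) • q4 p := by
  apply ext4
  · rw [smul_0, q4_0, q4_0]; simp [bv, Gam.N]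
  · rw [smul_1, q4_1, q4_1]; simp [bv, Gam.N]
  · rw [smul_2, q4_2, q4_2]; simp [bv, ar_zero, Gam.N]
  · rw [smul_3, q4_3, q4_3]; simp [bv, ar_zero, Gam.N]

lemma q4_bv4 (p : V) (s : ℝ) : q4 (p + s • bv 4) = q4 p := by
  apply ext4
  · rw [q4_0, q4_0]; simp [bv]
  · rw [q4_1, q4_1]; simp [bv]
  · rw [q4_2, q4_2]; simp [bv]
  · rw [q4_3, q4_3]; simp [bv]

lemma QS_bv (p : V) (i : Fin 6) (s : ℝ) (h4 : i ≠ 4) (h5 : i ≠ 5) : QS (p + s • bv i) = QS p := by
  rw [QS_eq, QS_eq]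
  have e4 : (p + s • bv i) 4 = p 4 := by simp [bv, h4.symm]
  have e5 : (p + s • bv i) 5 = p 5 := by simp [bv, h5.symm]
  rw [e4, e5]

lemma QS_per (p : V) : QS (p + (2 * π) • bv 4) = QS p := by
  rw [QS_eq, QS_eq]
  have h4 : (p + (2 * π) • bv 4) 4 = p 4 + 2 * π := by simp [bv]
  have h5 : (p + (2 * π) • bv 4) 5 = p 5 := by simp [bv]
  rw [h4, h5, PS_per]

lemma QS_pole (p : V) (hp : p 5 = 0 ∨ p 5 = π) (s : ℝ) : QS (p + s • bv 4) = QS p := by
  rw [QS_eq, QS_eq]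
  have h5 : (p + s • bv 4) 5 = p 5 := by simp [bv]
  rw [h5]
  apply PS_pole
  rcases hp with hp | hp <;> rw [hp]
  · exact sin_zero
  · exact sin_pi

/-- the fibre integral of the product form. -/
lemma bI_prod {σ : Form (𝓡 2) S2} :
    bI (plot QQ (prodForm (omX 1) σ)) = 1 := by
  have h : ∀ p : V, plot QQ (prodForm (omX 1) σ) p (bv 2) (bv 3) = 1 := by
    intro p
    rw [plot_prodForm QQ (omX 1) σ p _ _ (QQ_mdiff p)]
    have e1 : (Prod.fst ∘ QQ : V → XX) = pj ∘ q4 := rfl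
    have e2 : (Prod.snd ∘ QQ : V → S2) = QS := rfl
    rw [e1, e2, plot_lift q4 q4.contDiff, q4.fderiv, Om0_apply]
    have e3 := mfderiv_line_zero (I := 𝓡 2) QS p (bv 2)
      ((QS_contMDiff p).mdifferentiableAt (by simp))
      (fun s => QS_bv p 2 s (by decide) (by decide))
    have e4 := plot_apply QS σ p (bv 2) (bv 3)
    have e5 : ∀ (B : E2 →L[ℝ] E2 →L[ℝ] ℝ) (a b : E2), a = 0 → B a b = 0 := by
      intro B a b ha
      rw [ha]; simp
    have e6 : plot QS σ p (bv 2) (bv 3) = 0 := e4.trans (e5 (σ (QS p)) _ _ e3)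
    rw [e6]
    simp only [q4_0, q4_1, q4_2, q4_3]
    simp [bv]
  unfold bI
  simp_rw [h]
  simp

theorem no_deformation {σ σ' : Form (𝓡 2) S2} (hσ : IsSymplectic σ')
    (φ : (XX × S2) ≃ₘ⟮(𝓡 4).prod (𝓡 2), (𝓡 4).prod (𝓡 2)⟯ (XX × S2))
    (Ω : ℝ → Form ((𝓡 4).prod (𝓡 2)) (XX × S2)) (hΩ : ContinuousFamily Ω)
    (hs : ∀ t ∈ Icc (0 : ℝ) 1, IsSymplectic (Ω t)) (h0 : Ω 0 = prodForm (omX 1) σ)
    (h1 : Ω 1 = pullback φ (prodForm (omX (-1)) σ')) : False := by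
  -- nonvanishing
  have hne : ∀ t ∈ Icc (0 : ℝ) 1, bI (plot QQ (Ω t)) ≠ 0 ∧ cI (plot QQ (Ω t)) ≠ 0 := by
    intro t ht
    have gW := good_plot QQ QQ_contMDiff QQ_inv (hs t ht)
    obtain ⟨a, K, hK, e1, e2⟩ := evaluation _ gW
    have h := int_ne_zero (fun p => T (plot QQ (Ω t) p) (plot QQ (Ω t) p) (plot QQ (Ω t) p))
      (cont_T _ _ _ gW.smooth.continuous gW.smooth.continuous gW.smooth.continuous)
      (fun p h0 h1 => plot_QQ_T (hs t ht) p h0 h1)
    rw [e1] at h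
    have h2 := right_ne_zero_of_mul h
    exact ⟨left_ne_zero_of_mul h2, right_ne_zero_of_mul h2⟩
  -- positivity at the end point
  obtain ⟨b, hb, hbI⟩ := bI_family hΩ
  have m0 : (0 : ℝ) ∈ Icc (0 : ℝ) 1 := ⟨le_rfl, zero_le_one⟩
  have m1 : (1 : ℝ) ∈ Icc (0 : ℝ) 1 := ⟨zero_le_one, le_rfl⟩
  have hb0 : b 0 = 1 := by rw [hbI 0 m0, h0, bI_prod]
  have hb1 : 0 < b 1 := by
    by_contra hcon
    push Not at hcon
    obtain ⟨t, ht, ht0⟩ := intermediate_value_Icc' (zero_le_one (α := ℝ)) hb.continuousOn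
      (show (0 : ℝ) ∈ Icc (b 1) (b 0) from ⟨hcon, by rw [hb0]; exact zero_le_one⟩)
    rw [hbI t ht] at ht0
    exact (hne t ht).1 ht0
  rw [hbI 1 m1] at hb1
  have hc1 := (hne 1 m1).2
  -- the lifting
  obtain ⟨F, al, hF, hFp, hal, hdet⟩ := lift_det φ φ.symm φ.continuous φ.symm.continuous
    (fun z => φ.symm_apply_apply z)
  set G : V → E4 := fun p => F (q4 p, QS p) with hG
  have hGc : Continuous G := hF.comp (q4.continuous.prodMk QS_contMDiff.continuous)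
  have hGp : pj ∘ G = Prod.fst ∘ (φ ∘ QQ) := by
    funext p
    show pj (F (q4 p, QS p)) = _
    rw [hFp]
    rfl
  have hφQ : ContMDiff 𝓘(ℝ, V) ((𝓡 4).prod (𝓡 2)) ∞ (φ ∘ QQ) := φ.contMDiff.comp QQ_contMDiff
  have hGs : ContDiff ℝ ∞ G := by
    apply lift_smooth G hGc
    rw [hGp]
    exact contMDiff_fst.comp hφQ
  -- decomposition of the form at the end point
  set τ : V → Bil := plot (pj ∘ G) (omX (-1)) with hτ
  set κ : V → Bil := plot (Prod.snd ∘ (φ ∘ QQ)) σ' with hκ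
  have hW : plot QQ (Ω 1) = fun p => τ p + κ p := by
    funext p
    rw [h1, plot_pullback QQ φ _ p (QQ_mdiff p) (φ.contMDiff.mdifferentiableAt (by simp))]
    ext u v
    rw [plot_prodForm (φ ∘ QQ) (omX (-1)) σ' p u v ((hφQ p).mdifferentiableAt (by simp)), hτ, hκ,
      hGp]
    rfl
  have hinv : QInv (φ ∘ QQ) := QQ_inv.comp φ
  have gτ : Good τ := by
    rw [hτ, hGp]
    exact good_plot _ (contMDiff_fst.comp hφQ) (hinv.comp Prod.fst)
      (omX_symplectic (-1) (by norm_num))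
  have gκ : Good κ := good_plot _ (contMDiff_snd.comp hφQ) (hinv.comp Prod.snd) hσ
  -- the sphere part
  have hκ0 : bI κ * cI κ = 0 := by
    obtain ⟨a, K, hK, e1, e2⟩ := evaluation κ gκ
    have : ∀ p, T AA (κ p) (κ p) = 0 := fun p => T_plot_surface _ hσ.alternating AA p
    simp_rw [this] at e2
    simp only [integral_zero] at e2
    exact (mul_eq_zero.1 e2.symm).resolve_left hK.ne'
  have hτf : ∀ p u v, τ p u v = (-1) * Om0 (fderiv ℝ G p u) (fderiv ℝ G p v) := by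
    intro p u v
    exact plot_lift G hGs (-1) p u v
  have hcτ : cI τ = 0 := by
    refine cI_lift G hGs (-1) ?_ ?_ τ hτf
    · intro p
      show F (q4 (p + (2 * π) • bv 4), QS (p + (2 * π) • bv 4)) = F (q4 p, QS p)
      rw [q4_bv4, QS_per]
    · intro p hp s
      show F (q4 (p + s • bv 4), QS (p + s • bv 4)) = F (q4 p, QS p)
      rw [q4_bv4, QS_pole p hp]
  have hbτ : bI τ = -1 := by
    have e := bI_lift G hGs (-1) (tp (Gam.N (Gam.mat al *ᵥ Pi.single 0 1)))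
      (tp (Gam.N (Gam.mat al *ᵥ Pi.single 1 1))) ?_ ?_ τ hτf
    · rw [e]
      have hO : Om0 (tp (Gam.N (Gam.mat al *ᵥ Pi.single 0 1)))
          (tp (Gam.N (Gam.mat al *ᵥ Pi.single 1 1))) = (((Gam.mat al).det : ℤ) : ℝ) := by
        rw [Om0_apply, Matrix.det_fin_two]
        have t0 : ∀ v, tp (Gam.N v) 0 = 0 := fun v => Int.cast_zero
        have t1 : ∀ v, tp (Gam.N v) 1 = 0 := fun v => Int.cast_zero
        have t2 : ∀ v, tp (Gam.N v) 2 = ((v 0 : ℤ) : ℝ) := fun v => rfl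
        have t3 : ∀ v, tp (Gam.N v) 3 = ((v 1 : ℤ) : ℝ) := fun v => rfl
        rw [t0, t0, t1, t1, t2, t2, t3, t3]
        simp only [Matrix.mulVec_single_one, Matrix.col_apply]
        push_cast
        ring
      rw [hO, hdet]
      norm_num
    · intro p
      show F (q4 (p + bv 2), QS (p + bv 2)) = F (q4 p, QS p) + _
      have hQ : QS (p + bv 2) = QS p := by
        have := QS_bv p 2 1 (by decide) (by decide)
        rwa [one_smul] at this
      rw [hQ, q4_bv2, hal, Gam.hom_N_v, N_smul]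
    · intro p
      show F (q4 (p + bv 3), QS (p + bv 3)) = F (q4 p, QS p) + _
      have hQ : QS (p + bv 3) = QS p := by
        have := QS_bv p 3 1 (by decide) (by decide)
        rwa [one_smul] at this
      rw [hQ, q4_bv3, hal, Gam.hom_N_v, N_smul]
  rw [hW, cI_add τ κ gτ.smooth.continuous gκ.smooth.continuous, hcτ, zero_add] at hc1
  rw [hW, bI_add τ κ gτ.smooth.continuous gκ.smooth.continuous, hbτ,
    (mul_eq_zero.1 hκ0).resolve_right hc1] at hb1
  norm_num at hb1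

end H711R4
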