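import Pool.Agent.H711R4.Gen

/-!
Pulling back closed two-forms between normed spaces.
-/

namespace H711R4

open Set Filter Topology
open scoped ContDiff

variable {E E' : Type} [NormedAddCommGroup E] [NormedSpace ℝ E]
  [NormedAddCommGroup E'] [NormedSpace ℝ E']

/-- pull back by a differentiable map of normed spaces -/
noncomputable def vpull (g : E' → E) (B : E → E →L[ℝ] E →L[ℝ] ℝ) (x : E') :
    E' →L[ℝ] E' →L[ℝ] ℝ :=
  (B (g x)).bilinearComp (fderiv ℝ g x) (fderiv ℝ g x)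

lemma vpull_apply (g : E' → E) (B : E → E →L[ℝ] E →L[ℝ] ℝ) (x u v : E') :
    vpull g B x u v = B (g x) (fderiv ℝ g x u) (fderiv ℝ g x v) := rfl

lemma contDiffAt_clm_apply' {D F G : Type} [NormedAddCommGroup D] [NormedSpace ℝ D]
    [NormedAddCommGroup F] [NormedSpace ℝ F] [NormedAddCommGroup G] [NormedSpace ℝ G]
    [FiniteDimensional ℝ F] {n : WithTop ℕ∞} {f : D → F →L[ℝ] G} {x0 : D}
    (h : ∀ y, ContDiffAt ℝ n (fun x => f x y) x0) : ContDiffAt ℝ n f x0 := by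
  let d := Module.finrank ℝ F
  have hd : d = Module.finrank ℝ (Fin d → ℝ) := (Module.finrank_fin_fun ℝ).symm
  let e₁ := ContinuousLinearEquiv.ofFinrankEq hd
  let e₂ := (e₁.arrowCongr (1 : G ≃L[ℝ] G)).trans (ContinuousLinearEquiv.piRing (Fin d))
  rw [← Function.id_comp f, ← e₂.symm_comp_self]
  exact e₂.symm.contDiff.contDiffAt.comp x0 (contDiffAt_pi.mpr fun i => h _)

lemma contDiffAt_vpull [FiniteDimensional ℝ E'] (g : E' → E) (B : E → E →L[ℝ] E →L[ℝ] ℝ) (x0 : E')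
    (hB : ContDiffAt ℝ ∞ B (g x0)) (hg : ContDiffAt ℝ ∞ g x0) :
    ContDiffAt ℝ ∞ (vpull g B) x0 := by
  have h1 : ContDiffAt ℝ ∞ (fderiv ℝ g) x0 := hg.fderiv_right (m := ∞) (by simp)
  have h2 : ContDiffAt ℝ ∞ (fun x => B (g x)) x0 := hB.comp x0 hg
  refine contDiffAt_clm_apply' fun u => contDiffAt_clm_apply' fun v => ?_
  simp_rw [vpull_apply]
  exact (h2.clm_apply (h1.clm_apply contDiffAt_const)).clm_apply (h1.clm_apply contDiffAt_const)

lemma fderiv_vpull [FiniteDimensional ℝ E'] (g : E' → E) (B : E → E →L[ℝ] E →L[ℝ] ℝ) (x0 : E')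
    (hB : ContDiffAt ℝ ∞ B (g x0)) (hg : ContDiffAt ℝ ∞ g x0) (u v w : E') :
    fderiv ℝ (vpull g B) x0 u v w =
      fderiv ℝ B (g x0) (fderiv ℝ g x0 u) (fderiv ℝ g x0 v) (fderiv ℝ g x0 w) +
      B (g x0) (fderiv ℝ (fderiv ℝ g) x0 u v) (fderiv ℝ g x0 w) +
      B (g x0) (fderiv ℝ g x0 v) (fderiv ℝ (fderiv ℝ g) x0 u w) := by
  have h1 : ContDiffAt ℝ ∞ (fderiv ℝ g) x0 := hg.fderiv_right (m := ∞) (by simp)
  have h1d : HasFDerivAt (fderiv ℝ g) (fderiv ℝ (fderiv ℝ g) x0) x0 :=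
    (h1.differentiableAt (by simp)).hasFDerivAt
  have hgd : HasFDerivAt g (fderiv ℝ g x0) x0 := (hg.differentiableAt (by simp)).hasFDerivAt
  have hBd := (hB.differentiableAt (by simp)).hasFDerivAt
  have hBg := HasFDerivAt.comp (g := B) (f := g) x0 hBd hgd
  have hv : ∀ v, HasFDerivAt (fun x => fderiv ℝ g x v) ((fderiv ℝ (fderiv ℝ g) x0).flip v) x0 := by
    intro v
    have h := h1d.clm_apply (hasFDerivAt_const v x0)
    refine h.congr_fderiv ?_
    ext u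
    simp
  have h3 := (hBg.clm_apply (hv v)).clm_apply (hv w)
  have hd := (contDiffAt_vpull g B x0 hB hg).differentiableAt (by simp)
  have h4 : HasFDerivAt (fun x => vpull g B x v w) _ x0 :=
    hasFDerivAt_coef_gen (vpull g B) x0 hd v w
  have h5 := congrArg (fun (L : E' →L[ℝ] ℝ) => L u) (h4.unique h3)
  simp only [ContinuousLinearMap.coe_comp, Function.comp_apply, ContinuousLinearMap.apply_apply,
    add_apply, ContinuousLinearMap.flip_apply] at h5
  rw [h5]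
  ring

/-- pull backs of closed forms are closed. -/
lemma closed_vpull [FiniteDimensional ℝ E'] (g : E' → E) (B : E → E →L[ℝ] E →L[ℝ] ℝ) (x0 : E')
    (hB : ContDiffAt ℝ ∞ B (g x0)) (hg : ContDiffAt ℝ ∞ g x0)
    (hs : ∀ u v, B (g x0) u v = - B (g x0) v u)
    (hc : ∀ u v w, fderiv ℝ B (g x0) u v w + fderiv ℝ B (g x0) v w u +
      fderiv ℝ B (g x0) w u v = 0) (u v w : E') :
    fderiv ℝ (vpull g B) x0 u v w + fderiv ℝ (vpull g B) x0 v w u +
      fderiv ℝ (vpull g B) x0 w u v = 0 := by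
  rw [fderiv_vpull g B x0 hB hg, fderiv_vpull g B x0 hB hg, fderiv_vpull g B x0 hB hg]
  have hsym : IsSymmSndFDerivAt ℝ g x0 := hg.isSymmSndFDerivAt (by
    simp only [minSmoothness_of_isRCLikeNormedField]
    exact WithTop.coe_le_coe.2 le_top)
  have e1 := hsym u v
  have e2 := hsym v w
  have e3 := hsym w u
  have hc' := hc (fderiv ℝ g x0 u) (fderiv ℝ g x0 v) (fderiv ℝ g x0 w)
  rw [e1, e2, e3]
  have s1 := hs (fderiv ℝ (fderiv ℝ g) x0 v u) (fderiv ℝ g x0 w)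
  have s2 := hs (fderiv ℝ (fderiv ℝ g) x0 w v) (fderiv ℝ g x0 u)
  have s3 := hs (fderiv ℝ (fderiv ℝ g) x0 u w) (fderiv ℝ g x0 v)
  linarith

end H711R4
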