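import Pool.Agent.H711R4.Defs
import Pool.Agent.H711R4.VecPull

/-!
Pull backs of forms on manifolds by maps from normed spaces.
-/

open scoped Manifold ContDiff
open Set Filter Topology

namespace FourSix

open H711R4

variable {E : Type} [NormedAddCommGroup E] [NormedSpace ℝ E] {H : Type} [TopologicalSpace H]
  {I : ModelWithCorners ℝ E H} {M : Type} [TopologicalSpace M] [ChartedSpace H M]
  {E' : Type} [NormedAddCommGroup E'] [NormedSpace ℝ E'] {H' : Type} [TopologicalSpace H']
  {I' : ModelWithCorners ℝ E' H'} {M' : Type} [TopologicalSpace M'] [ChartedSpace H' M']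
  {F : Type} [NormedAddCommGroup F] [NormedSpace ℝ F]

lemma pullback_apply (f : M → M') (η : Form I' M') (p : M) (u v : TangentSpace I p) :
    pullback f η p u v = η (f p) (mfderiv I I' f p u) (mfderiv I I' f p v) := rfl

/-- functoriality of the pull back. -/
lemma pullback_comp {H'' E'' M'' : Type} [NormedAddCommGroup E''] [NormedSpace ℝ E'']
    [TopologicalSpace H''] {I'' : ModelWithCorners ℝ E'' H''} [TopologicalSpace M'']
    [ChartedSpace H'' M''] (f : M → M') (g : M' → M'') (η : Form I'' M'') (p : M)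
    (hf : MDifferentiableAt I I' f p) (hg : MDifferentiableAt I' I'' g (f p)) :
    pullback (I := I) (g ∘ f) η p = pullback (I := I) f (pullback (I := I') g η) p := by
  ext u v
  rw [pullback_apply, pullback_apply, pullback_apply, mfderiv_comp p hg hf]
  rfl

/-- the pull back of a form by a map from a normed space, as a plain function. -/
noncomputable def plot (f : F → M) (η : Form I M) : F → F →L[ℝ] F →L[ℝ] ℝ :=
  pullback (I := 𝓘(ℝ, F)) f η

lemma plot_apply (f : F → M) (η : Form I M) (x u v : F) :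
    plot f η x u v = η (f x) (mfderiv 𝓘(ℝ, F) I f x u) (mfderiv 𝓘(ℝ, F) I f x v) := rfl

lemma inChart_apply (η : Form I M) (p₀ : M) (z u v : E) :
    inChart η p₀ z u v = η ((extChartAt I p₀).symm z)
      (mfderiv 𝓘(ℝ, E) I (extChartAt I p₀).symm z u)
      (mfderiv 𝓘(ℝ, E) I (extChartAt I p₀).symm z v) := rfl

/-- local expression of a plot. -/
lemma plot_local [I.Boundaryless] [IsManifold I ∞ M] (f : F → M) (hf : ContMDiff 𝓘(ℝ, F) I ∞ f)
    (x0 : F) : ∀ᶠ x in 𝓝 x0,
      f x ∈ (extChartAt I (f x0)).source ∧ ∀ η : Form I M,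
      plot f η x = vpull (extChartAt I (f x0) ∘ f) (inChart η (f x0)) x := by
  have hopen : IsOpen (f ⁻¹' (extChartAt I (f x0)).source) :=
    (isOpen_extChartAt_source (I := I) (f x0)).preimage hf.continuous
  have hmem : f ⁻¹' (extChartAt I (f x0)).source ∈ 𝓝 x0 :=
    hopen.mem_nhds (mem_extChartAt_source (I := I) (f x0))
  filter_upwards [hmem] with x hx
  refine ⟨hx, fun η => ?_⟩
  have hxn : f ⁻¹' (extChartAt I (f x0)).source ∈ 𝓝 x := hopen.mem_nhds hx
  have hg : MDifferentiableAt 𝓘(ℝ, F) 𝓘(ℝ, E) (extChartAt I (f x0) ∘ f) x := by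
    have h1 : MDifferentiableAt I 𝓘(ℝ, E) (extChartAt I (f x0)) (f x) := by
      have := contMDiffAt_extChartAt' (I := I) (n := ∞) (x := f x0) (x' := f x) (by
        rwa [extChartAt_source] at hx)
      exact this.mdifferentiableAt (by simp)
    exact h1.comp x (hf.mdifferentiable (by simp) x)
  have hsymm : MDifferentiableAt 𝓘(ℝ, E) I (extChartAt I (f x0)).symm
      ((extChartAt I (f x0) ∘ f) x) := by
    have h2 : ((extChartAt I (f x0) ∘ f) x) ∈ (extChartAt I (f x0)).target :=
      (extChartAt I (f x0)).map_source hx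
    have := contMDiffOn_extChartAt_symm (I := I) (n := ∞) (f x0)
    exact (this.contMDiffAt ((isOpen_extChartAt_target (I := I) (f x0)).mem_nhds h2)
      ).mdifferentiableAt (by simp)
  have hloc : f =ᶠ[𝓝 x] (extChartAt I (f x0)).symm ∘ (extChartAt I (f x0) ∘ f) := by
    filter_upwards [hxn] with y hy
    exact ((extChartAt I (f x0)).left_inv hy).symm
  have hder : mfderiv 𝓘(ℝ, F) I f x =
      (mfderiv 𝓘(ℝ, E) I (extChartAt I (f x0)).symm ((extChartAt I (f x0) ∘ f) x)).comp
        (mfderiv 𝓘(ℝ, F) 𝓘(ℝ, E) (extChartAt I (f x0) ∘ f) x) := by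
    rw [hloc.mfderiv_eq, mfderiv_comp x hsymm hg]
  have hval : (extChartAt I (f x0)).symm ((extChartAt I (f x0) ∘ f) x) = f x :=
    (extChartAt I (f x0)).left_inv hx
  have hder' : ∀ u : F, mfderiv 𝓘(ℝ, F) I f x u =
      mfderiv 𝓘(ℝ, E) I (extChartAt I (f x0)).symm ((extChartAt I (f x0) ∘ f) x)
        (fderiv ℝ (extChartAt I (f x0) ∘ f) x u) := by
    intro u
    rw [hder, mfderiv_eq_fderiv]
    rfl
  -- transport along `hval`
  have key : ∀ (q q' : M) (hq : q = q') (a b : E), (η q : E →L[ℝ] E →L[ℝ] ℝ) a b =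
      (η q' : E →L[ℝ] E →L[ℝ] ℝ) a b := by
    intro q q' hq a b
    subst hq
    rfl
  ext u v
  have h1 := plot_apply f η x u v
  have h2 := vpull_apply (extChartAt I (f x0) ∘ f) (inChart η (f x0)) x u v
  rw [h2, inChart_apply]
  refine h1.trans ?_
  refine Eq.trans ?_ (key _ _ hval.symm _ _)
  exact congrArg₂ (fun a b => (η (f x) : E →L[ℝ] E →L[ℝ] ℝ) a b) (hder' u) (hder' v)

end FourSix
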