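import Pool.Agent.H711R4.Forms

/-!
Plots of symplectic forms are smooth, skew and closed; families.
-/

open scoped Manifold ContDiff
open Set Filter Topology

namespace FourSix

open H711R4

variable {E : Type} [NormedAddCommGroup E] [NormedSpace ℝ E] {H : Type} [TopologicalSpace H]
  {I : ModelWithCorners ℝ E H} {M : Type} [TopologicalSpace M] [ChartedSpace H M]
  {F : Type} [NormedAddCommGroup F] [NormedSpace ℝ F]

lemma contDiffAt_chart_comp [I.Boundaryless] [IsManifold I ∞ M] (f : F → M)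
    (hf : ContMDiff 𝓘(ℝ, F) I ∞ f) (x0 : F) :
    ContDiffAt ℝ ∞ (extChartAt I (f x0) ∘ f) x0 := by
  have h1 := contMDiffAt_extChartAt (I := I) (n := ∞) (x := f x0)
  exact (h1.comp x0 (hf x0)).contDiffAt

lemma plot_contDiffAt_aux [I.Boundaryless] {η : Form I M} (hη : IsSymplectic η) (p : M) :
    ContDiffAt ℝ ∞ (inChart η p) (extChartAt I p p) :=
  (hη.smooth p).contDiffAt ((isOpen_extChartAt_target (I := I) p).mem_nhds
    (mem_extChartAt_target (I := I) p))

theorem plot_contDiff [FiniteDimensional ℝ F] [I.Boundaryless] [IsManifold I ∞ M] (f : F → M)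
    (hf : ContMDiff 𝓘(ℝ, F) I ∞ f) {η : Form I M} (hη : IsSymplectic η) :
    ContDiff ℝ ∞ (plot f η) := by
  rw [contDiff_iff_contDiffAt]
  intro x0
  have hloc : plot f η =ᶠ[𝓝 x0] vpull (extChartAt I (f x0) ∘ f) (inChart η (f x0)) :=
    (plot_local f hf x0).mono fun x hx => hx.2 η
  refine ContDiffAt.congr_of_eventuallyEq ?_ hloc
  exact contDiffAt_vpull _ _ x0 (plot_contDiffAt_aux hη (f x0)) (contDiffAt_chart_comp f hf x0)

lemma bil_skew {B : E →L[ℝ] E →L[ℝ] ℝ} (hB : ∀ v, B v v = 0) (u v : E) : B u v = - B v u := by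
  have h := hB (u + v)
  have h1 := hB u
  have h2 := hB v
  simp only [map_add, add_apply] at h
  linarith

lemma form_skew {η : Form I M} (hη : ∀ p v, η p v v = 0) (p : M) (u v : E) :
    (η p : E →L[ℝ] E →L[ℝ] ℝ) u v = - (η p : E →L[ℝ] E →L[ℝ] ℝ) v u :=
  bil_skew (E := E) (B := η p) (hη p) u v

lemma plot_skew (f : F → M) {η : Form I M} (hη : ∀ p v, η p v v = 0) (x u v : F) :
    plot f η x u v = - plot f η x v u := by
  rw [plot_apply, plot_apply]
  exact form_skew hη (f x) _ _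

lemma inChart_skew {η : Form I M} (hη : ∀ p v, η p v v = 0) (p : M) (z u v : E) :
    inChart η p z u v = - inChart η p z v u := by
  rw [inChart_apply, inChart_apply]
  exact form_skew hη _ _ _

theorem plot_closed [FiniteDimensional ℝ F] [I.Boundaryless] [IsManifold I ∞ M] (f : F → M)
    (hf : ContMDiff 𝓘(ℝ, F) I ∞ f) {η : Form I M} (hη : IsSymplectic η) (x0 u v w : F) :
    fderiv ℝ (plot f η) x0 u v w + fderiv ℝ (plot f η) x0 v w u +
      fderiv ℝ (plot f η) x0 w u v = 0 := by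
  have hloc : plot f η =ᶠ[𝓝 x0] vpull (extChartAt I (f x0) ∘ f) (inChart η (f x0)) :=
    (plot_local f hf x0).mono fun x hx => hx.2 η
  rw [hloc.fderiv_eq]
  exact closed_vpull _ _ x0 (plot_contDiffAt_aux hη (f x0)) (contDiffAt_chart_comp f hf x0)
    (fun u v => inChart_skew hη.alternating _ _ _ _)
    (fun u v w => hη.closed _ _ (mem_extChartAt_target (I := I) (f x0)) _ _ _) _ _ _

/-- plots of a continuous family of forms depend continuously on the parameter. -/
theorem plot_continuousOn [FiniteDimensional ℝ F] [I.Boundaryless] [IsManifold I ∞ M] (f : F → M)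
    (hf : ContMDiff 𝓘(ℝ, F) I ∞ f) {Ω : ℝ → Form I M} (hΩ : ContinuousFamily Ω) (u v : F) :
    ContinuousOn (fun z : ℝ × F => plot f (Ω z.1) z.2 u v) (Icc (0 : ℝ) 1 ×ˢ univ) := by
  rintro ⟨t0, x0⟩ ⟨ht0, -⟩
  have hg : ContDiffAt ℝ ∞ (extChartAt I (f x0) ∘ f) x0 := contDiffAt_chart_comp f hf x0
  have hev : ∀ᶠ z : ℝ × F in 𝓝 (t0, x0), ContDiffAt ℝ 1 (extChartAt I (f x0) ∘ f) z.2 := by
    have h1 : ∀ᶠ x in 𝓝 x0, ContDiffAt ℝ 1 (extChartAt I (f x0) ∘ f) x :=
      (hg.of_le (m := 1) (by exact_mod_cast le_top)).eventually (by simp)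
    exact (continuous_snd.tendsto (t0, x0)).eventually h1
  -- the local expression, uniformly in the form
  have hloc : ∀ᶠ z : ℝ × F in 𝓝 (t0, x0), f z.2 ∈ (extChartAt I (f x0)).source ∧
      ∀ η : Form I M, plot f η z.2 = vpull (extChartAt I (f x0) ∘ f) (inChart η (f x0)) z.2 :=
    (continuous_snd.tendsto (t0, x0)).eventually (plot_local f hf x0)
  have hfd : ContinuousAt (fderiv ℝ (extChartAt I (f x0) ∘ f)) x0 :=
    (hg.fderiv_right (m := ∞) (by simp)).continuousAt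
  have hpair : ContinuousWithinAt (fun z : ℝ × F => (z.1, (extChartAt I (f x0) ∘ f) z.2))
      (Icc (0 : ℝ) 1 ×ˢ univ) (t0, x0) :=
    (ContinuousAt.prodMk continuousAt_fst (ContinuousAt.comp (f := fun z : ℝ × F => z.2)
      (g := extChartAt I (f x0) ∘ f) hg.continuousAt continuousAt_snd)).continuousWithinAt
  have htar : (extChartAt I (f x0) ∘ f) x0 ∈ (extChartAt I (f x0)).target :=
    (extChartAt I (f x0)).map_source (mem_extChartAt_source (I := I) (f x0))
  have hΩ1 : ContinuousWithinAt (fun z : ℝ × E => inChart (Ω z.1) (f x0) z.2)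
      (Icc (0 : ℝ) 1 ×ˢ univ) (t0, (extChartAt I (f x0) ∘ f) x0) := by
    have h1 := hΩ (f x0) (t0, (extChartAt I (f x0) ∘ f) x0) ⟨ht0, htar⟩
    refine h1.mono_of_mem_nhdsWithin ?_
    refine mem_nhdsWithin.2 ⟨univ ×ˢ (extChartAt I (f x0)).target,
      isOpen_univ.prod (isOpen_extChartAt_target (I := I) (f x0)), ⟨mem_univ _, htar⟩, ?_⟩
    rintro ⟨t, x⟩ ⟨⟨-, h2⟩, ⟨h3, -⟩⟩
    exact ⟨h3, h2⟩
  have hcomp : ContinuousWithinAt (fun z : ℝ × F =>
      inChart (Ω z.1) (f x0) ((extChartAt I (f x0) ∘ f) z.2)) (Icc (0 : ℝ) 1 ×ˢ univ) (t0, x0) :=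
    ContinuousWithinAt.comp (t := Icc (0 : ℝ) 1 ×ˢ univ)
      (g := fun z : ℝ × E => inChart (Ω z.1) (f x0) z.2)
      (f := fun z : ℝ × F => (z.1, (extChartAt I (f x0) ∘ f) z.2)) hΩ1 hpair
      (fun z hz => ⟨hz.1, mem_univ _⟩)
  have hD : ∀ w : F, ContinuousWithinAt (fun z : ℝ × F =>
      fderiv ℝ (extChartAt I (f x0) ∘ f) z.2 w) (Icc (0 : ℝ) 1 ×ˢ univ) (t0, x0) := fun w =>
    ((hfd.comp (f := fun z : ℝ × F => z.2) continuousAt_snd).clm_apply
      continuousAt_const).continuousWithinAt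
  have hfin := (hcomp.clm_apply (hD u)).clm_apply (hD v)
  refine hfin.congr_of_eventuallyEq ?_ ?_
  · refine (hloc.filter_mono nhdsWithin_le_nhds).mono fun z hz => ?_
    show plot f (Ω z.1) z.2 u v = _
    rw [hz.2 (Ω z.1), vpull_apply]
  · show plot f (Ω t0) x0 u v = _
    rw [(hloc.self_of_nhds).2 (Ω t0), vpull_apply]

end FourSix
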