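import Pool.Agent.H711R4.QMap

/-!
Pull backs of symplectic forms by invariant maps are admissible forms on `ℝ⁶`.
-/

open scoped Manifold ContDiff
open Set Filter Topology Real

namespace FourSix

open H711R4

variable {E : Type} [NormedAddCommGroup E] [NormedSpace ℝ E] {H : Type} [TopologicalSpace H]
  {I : ModelWithCorners ℝ E H} {N : Type} [TopologicalSpace N] [ChartedSpace H N]
  {F F' : Type} [NormedAddCommGroup F] [NormedSpace ℝ F] [NormedAddCommGroup F'] [NormedSpace ℝ F']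

lemma plot_comp (g : F → N) (τ : F' → F) (η : Form I N) (x : F')
    (hg : MDifferentiableAt 𝓘(ℝ, F) I g (τ x)) (hτ : DifferentiableAt ℝ τ x) (u v : F') :
    plot (g ∘ τ) η x u v = plot g η (τ x) (fderiv ℝ τ x u) (fderiv ℝ τ x v) := by
  have h : plot (g ∘ τ) η x = pullback (I := 𝓘(ℝ, F')) τ (pullback (I := 𝓘(ℝ, F)) g η) x :=
    pullback_comp (I := 𝓘(ℝ, F')) (I' := 𝓘(ℝ, F)) τ g η x hτ.mdifferentiableAt hg
  have h2 := pullback_apply (I := 𝓘(ℝ, F')) τ (pullback (I := 𝓘(ℝ, F)) g η) x u v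
  have h3 : plot (g ∘ τ) η x u v =
      pullback (I := 𝓘(ℝ, F')) τ (pullback (I := 𝓘(ℝ, F)) g η) x u v := by rw [h]; rfl
  rw [mfderiv_eq_fderiv] at h2
  exact h3.trans h2

lemma mfderiv_line_zero (g : F → N) (p e : F) (hg : MDifferentiableAt 𝓘(ℝ, F) I g p)
    (h : ∀ s : ℝ, g (p + s • e) = g p) :
    (mfderiv 𝓘(ℝ, F) I g p : F →L[ℝ] E) e = 0 := by
  obtain ⟨D, hD, hD2⟩ : ∃ D : F →L[ℝ] E, HasMFDerivAt 𝓘(ℝ, F) I g p D ∧
      (mfderiv 𝓘(ℝ, F) I g p : F →L[ℝ] E) = D := ⟨_, hg.hasMFDerivAt, rfl⟩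
  rw [hD2]
  have h0 : p + (0 : ℝ) • e = p := by simp
  have hD' : HasMFDerivAt 𝓘(ℝ, F) I g (p + (0 : ℝ) • e) D := by rw [h0]; exact hD
  have hτ : HasFDerivAt (fun s : ℝ => p + s • e)
      ((ContinuousLinearMap.id ℝ ℝ).smulRight e) 0 :=
    ((hasFDerivAt_id (0 : ℝ)).smul_const e).const_add p
  have hc := HasMFDerivAt.comp (f := fun s : ℝ => p + s • e) (g := g) (0 : ℝ) hD'
    hτ.hasMFDerivAt
  have hconst : (g ∘ fun s : ℝ => p + s • e) = fun _ => g p := by
    funext s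
    exact h s
  rw [hconst] at hc
  have h2 := hasMFDerivAt_unique hc (hasMFDerivAt_const (g p) (0 : ℝ))
  have h3 := congrArg (fun (L : ℝ →L[ℝ] E) => L 1) h2
  have h4 : D ((1 : ℝ) • e) = 0 := h3
  rwa [one_smul] at h4

/-- pull backs of symplectic forms by invariant maps are admissible. -/
theorem good_plot [I.Boundaryless] [IsManifold I ∞ N] (g : V → N) (hg : ContMDiff 𝓘(ℝ, V) I ∞ g)
    (hinv : QInv g) {η : Form I N} (hη : IsSymplectic η) : Good (plot g η) := by
  have hmd : ∀ p, MDifferentiableAt 𝓘(ℝ, V) I g p := fun p => (hg p).mdifferentiableAt (by simp)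
  have key : ∀ (L : V →L[ℝ] V) (c : V), (∀ p, g (L p + c) = g p) → ∀ p u v,
      plot g η (L p + c) (L u) (L v) = plot g η p u v := by
    intro L c h p u v
    have hτ : HasFDerivAt (fun p => L p + c) L p := L.hasFDerivAt.add_const c
    have h1 := plot_comp g (fun p => L p + c) η p (hmd _) hτ.differentiableAt u v
    rw [hτ.fderiv] at h1
    rw [← h1]
    have : g ∘ (fun p => L p + c) = g := funext h
    rw [this]
  have keyt : ∀ (c : V), (∀ p, g (p + c) = g p) → ∀ p, plot g η (p + c) = plot g η p := by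
    intro c h p
    ext u v
    exact key (ContinuousLinearMap.id ℝ V) c h p u v
  refine ⟨plot_contDiff g hg hη, fun p u v => plot_skew g hη.alternating p u v,
    fun p u v w => plot_closed g hg hη p u v w, ?_⟩
  refine ⟨keyt _ hinv.per0, keyt _ hinv.per2, keyt _ hinv.per3, keyt _ hinv.per4, ?_, ?_⟩
  · intro p u v
    exact key Lc (bv 1) hinv.tw p u v
  · intro p hp v
    have h0 := mfderiv_line_zero (I := I) g p (bv 4) (hmd p) (hinv.pole p hp)
    have h1 := plot_apply g η p (bv 4) v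
    rw [h1]
    have h2 : ∀ (B : E →L[ℝ] E →L[ℝ] ℝ) (a b : E), a = 0 → B a b = 0 := by
      intro B a b ha
      rw [ha]; simp
    exact h2 (η (g p)) _ _ h0

end FourSix
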