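import Mathlib

/-!
The fundamental group `Γ = ℤ × (ℤ² ⋊_A ℤ)`, `A = [[3,10],[5,17]]`, and its automorphisms.
-/

namespace H711R4

open Matrix

abbrev SL : Type := Matrix.SpecialLinearGroup (Fin 2) ℤ

def AS : SL := ⟨!![3, 10; 5, 17], by simp [Matrix.det_fin_two]⟩

/-- powers of the gluing matrix. -/
def AP (t : ℤ) : Matrix (Fin 2) (Fin 2) ℤ := ((AS ^ t : SL) : Matrix (Fin 2) (Fin 2) ℤ)

lemma AP_add (a b : ℤ) : AP (a + b) = AP a * AP b := by
  unfold AP
  rw [_root_.zpow_add, Matrix.SpecialLinearGroup.coe_mul]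

lemma AP_zero : AP 0 = 1 := by simp [AP]

lemma AP_one : AP 1 = !![3, 10; 5, 17] := by simp [AP, AS]

lemma AP_neg_one : AP (-1) = !![17, -10; -5, 3] := by
  have h : AP (-1) * AP 1 = 1 := by rw [← AP_add]; simp [AP_zero]
  have h2 : AP 1 * !![17, -10; -5, 3] = 1 := by
    rw [AP_one]
    ext i j
    fin_cases i <;> fin_cases j <;> simp [Matrix.mul_apply, Fin.sum_univ_two]
  calc AP (-1) = AP (-1) * (AP 1 * !![17, -10; -5, 3]) := by rw [h2, mul_one]
    _ = !![17, -10; -5, 3] := by rw [← mul_assoc, h, one_mul]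

lemma AP_mulVec (a b : ℤ) (v : Fin 2 → ℤ) : AP (a + b) *ᵥ v = AP a *ᵥ (AP b *ᵥ v) := by
  rw [AP_add, Matrix.mulVec_mulVec]

@[ext]
structure Gam where
  s : ℤ
  t : ℤ
  v : Fin 2 → ℤ

namespace Gam

instance : Mul Gam := ⟨fun g h => ⟨g.s + h.s, g.t + h.t, g.v + AP g.t *ᵥ h.v⟩⟩
instance : One Gam := ⟨⟨0, 0, 0⟩⟩
instance : Inv Gam := ⟨fun g => ⟨-g.s, -g.t, -(AP (-g.t) *ᵥ g.v)⟩⟩

@[simp] lemma mul_s (g h : Gam) : (g * h).s = g.s + h.s := rfl
@[simp] lemma mul_t (g h : Gam) : (g * h).t = g.t + h.t := rfl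
@[simp] lemma mul_v (g h : Gam) : (g * h).v = g.v + AP g.t *ᵥ h.v := rfl
@[simp] lemma one_s : (1 : Gam).s = 0 := rfl
@[simp] lemma one_t : (1 : Gam).t = 0 := rfl
@[simp] lemma one_v : (1 : Gam).v = 0 := rfl
@[simp] lemma inv_s (g : Gam) : (g⁻¹).s = -g.s := rfl
@[simp] lemma inv_t (g : Gam) : (g⁻¹).t = -g.t := rfl
@[simp] lemma inv_v (g : Gam) : (g⁻¹).v = -(AP (-g.t) *ᵥ g.v) := rfl

instance : Group Gam := Group.ofLeftAxioms
  (by
    intro a b c
    ext1
    · simp [add_assoc]
    · simp [add_assoc]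
    · simp only [mul_v, mul_t]
      rw [AP_mulVec, Matrix.mulVec_add, add_assoc])
  (by
    intro a
    ext1
    · simp
    · simp
    · simp [AP_zero])
  (by
    intro a
    ext1
    · simp
    · simp
    · simp)

/-- the fibre translations. -/
def N (v : Fin 2 → ℤ) : Gam := ⟨0, 0, v⟩

/-- the generator in the direction of `t`. -/
def tt : Gam := ⟨0, 1, 0⟩

lemma N_mul (u v : Fin 2 → ℤ) : N u * N v = N (u + v) := by
  ext1
  · simp [N]
  · simp [N]
  · simp [N, AP_zero]

lemma N_zero : N 0 = 1 := rfl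

lemma N_pow (u : Fin 2 → ℤ) (n : ℕ) : N u ^ n = N (n • u) := by
  induction n with
  | zero => simp [N_zero]
  | succ k ih => rw [pow_succ, ih, N_mul, succ_nsmul]

lemma conj_N (g : Gam) (u : Fin 2 → ℤ) : g * N u * g⁻¹ = N (AP g.t *ᵥ u) := by
  ext1
  · simp [N]
  · simp [N]
  · simp only [mul_v, inv_v, N, mul_t, add_zero]
    rw [Matrix.mulVec_neg, ← AP_mulVec]
    simp [AP_zero]

lemma pow_s (g : Gam) (n : ℕ) : (g ^ n).s = n * g.s := by
  induction n with
  | zero => simp
  | succ k ih => rw [pow_succ, mul_s, ih]; push_cast; ring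

lemma pow_t (g : Gam) (n : ℕ) : (g ^ n).t = n * g.t := by
  induction n with
  | zero => simp
  | succ k ih => rw [pow_succ, mul_t, ih]; push_cast; ring

lemma comm_s (g h : Gam) : (g * h * g⁻¹ * h⁻¹).s = 0 := by simp
lemma comm_t (g h : Gam) : (g * h * g⁻¹ * h⁻¹).t = 0 := by simp

/-- endomorphisms preserve the fibre translations. -/
lemma hom_N (al : Gam →* Gam) (u : Fin 2 → ℤ) : (al (N u)).s = 0 ∧ (al (N u)).t = 0 := by
  -- `18 u = (A - 1) w`
  set w : Fin 2 → ℤ := ![-16 * u 0 + 10 * u 1, 5 * u 0 - 2 * u 1] with hw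
  have hcomm : tt * N w * tt⁻¹ * (N w)⁻¹ = N u ^ 18 := by
    have h1 : tt * N w * tt⁻¹ = N (AP 1 *ᵥ w) := conj_N tt w
    rw [h1, N_pow]
    rw [mul_inv_eq_iff_eq_mul, N_mul]
    congr 1
    rw [AP_one]
    ext i
    fin_cases i
    · simp [hw, Matrix.mulVec, dotProduct, Fin.sum_univ_two]; ring
    · simp [hw, Matrix.mulVec, dotProduct, Fin.sum_univ_two]; ring
  have h2 : (al (N u)) ^ 18 = al tt * al (N w) * (al tt)⁻¹ * (al (N w))⁻¹ := by
    rw [← map_pow, ← hcomm]
    simp [map_mul, map_inv]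
  constructor
  · have h3 := congrArg Gam.s h2
    rw [pow_s, comm_s] at h3
    push_cast at h3
    omega
  · have h3 := congrArg Gam.t h2
    rw [pow_t, comm_t] at h3
    push_cast at h3
    omega

/-- the induced matrix. -/
def mat (al : Gam →* Gam) : Matrix (Fin 2) (Fin 2) ℤ :=
  fun i j => (al (N (Pi.single j 1))).v i

lemma hom_N_v (al : Gam →* Gam) (u : Fin 2 → ℤ) : al (N u) = N (mat al *ᵥ u) := by
  -- additivity
  have hval : ∀ u, al (N u) = N (al (N u)).v := by
    intro u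
    obtain ⟨h1, h2⟩ := hom_N al u
    ext1
    · exact h1
    · exact h2
    · rfl
  have hadd : ∀ u v, (al (N (u + v))).v = (al (N u)).v + (al (N v)).v := by
    intro u v
    have h : al (N (u + v)) = al (N u) * al (N v) := by rw [← map_mul, N_mul]
    rw [h, hval u, hval v, N_mul]
    rfl
  set f : (Fin 2 → ℤ) →+ (Fin 2 → ℤ) :=
    AddMonoidHom.mk' (fun u => (al (N u)).v) hadd with hf
  have hlin : ∀ u, (al (N u)).v = mat al *ᵥ u := by
    intro u
    have hu : u = (u 0) • (Pi.single 0 1 : Fin 2 → ℤ) + (u 1) • (Pi.single 1 1 : Fin 2 → ℤ) := by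
      funext i
      fin_cases i <;> simp
    have h1 : f u = (u 0) • f (Pi.single 0 1) + (u 1) • f (Pi.single 1 1) := by
      conv_lhs => rw [hu]
      rw [map_add, map_zsmul, map_zsmul]
    have h2 : ∀ u, f u = (al (N u)).v := fun u => rfl
    rw [← h2, h1]
    funext i
    simp only [Pi.add_apply, Pi.smul_apply, smul_eq_mul, Matrix.mulVec, dotProduct,
      Fin.sum_univ_two, mat, h2]
    ring
  rw [hval u, hlin]

lemma N_inj {u v : Fin 2 → ℤ} (h : N u = N v) : u = v := congrArg Gam.v h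

lemma mulVec_inj {A B : Matrix (Fin 2) (Fin 2) ℤ} (h : ∀ u, A *ᵥ u = B *ᵥ u) : A = B := by
  ext i j
  have := congrFun (h (Pi.single j 1)) i
  simpa using this

end Gam

/-- Pell type descent: `X² - 99 Y² = 25` forces `5 ∣ X`. -/
lemma pell25 : ∀ (n : ℕ) (X Y : ℤ), Y.natAbs = n → X ^ 2 - 99 * Y ^ 2 = 25 → (5 : ℤ) ∣ X := by
  intro n
  induction n using Nat.strong_induction_on with
  | _ n ih =>
    intro X Y hn hXY
    -- reduce to nonnegative
    have key : ∀ X Y : ℤ, 0 ≤ X → 0 ≤ Y → Y.natAbs = n → X ^ 2 - 99 * Y ^ 2 = 25 →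
        (5 : ℤ) ∣ X := by
      intro X Y hX hY hn hXY
      by_cases h0 : Y = 0
      · subst h0
        have : X = 5 := by nlinarith
        exact ⟨1, by omega⟩
      by_cases h1 : Y = 1
      · subst h1
        exfalso
        have hX2 : X ^ 2 = 124 := by linarith
        have : X ≤ 11 := by nlinarith
        have : 11 ≤ X := by nlinarith
        nlinarith
      have hY2 : 2 ≤ Y := by omega
      have hlt1 : 9 * Y < X := by nlinarith
      have hlt2 : X < 11 * Y := by nlinarith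
      have hstep : (5 : ℤ) ∣ (10 * X - 99 * Y) := by
        apply ih (10 * Y - X).natAbs ?_ (10 * X - 99 * Y) (10 * Y - X) rfl
        · ring_nf
          ring_nf at hXY
          linarith
        · omega
      have hsq : (10 * X - 99 * Y) ^ 2 - 99 * (10 * Y - X) ^ 2 = 25 := by
        ring_nf
        ring_nf at hXY
        linarith
      obtain ⟨k, hk⟩ := hstep
      have h5 : (5 : ℤ) ∣ (10 * Y - X) := by
        have hp : Prime (5 : ℤ) := by norm_num
        have : (5 : ℤ) ∣ (10 * Y - X) ^ 2 := by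
          have h99 : (5 : ℤ) ∣ 99 * (10 * Y - X) ^ 2 := ⟨5 * k ^ 2 - 5, by rw [hk] at hsq; linarith⟩
          have hcop : IsCoprime (5 : ℤ) 99 := by norm_num
          exact hcop.dvd_of_dvd_mul_left h99
        exact hp.dvd_of_dvd_pow this
      obtain ⟨l, hl⟩ := h5
      omega
    have := key |X| |Y| (abs_nonneg _) (abs_nonneg _) (by rw [Int.natAbs_abs]; exact hn)
      (by rw [sq_abs, sq_abs]; exact hXY)
    exact (dvd_abs _ _).1 this

/-- chirality of `A`. -/
lemma chiral (B : Matrix (Fin 2) (Fin 2) ℤ) (hdet : B.det = -1)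
    (h : B * AP 1 = AP 1 * B ∨ B * AP 1 = AP (-1) * B) : False := by
  rw [Matrix.det_fin_two] at hdet
  set p := B 0 0 with hp
  set q := B 0 1 with hq
  set r := B 1 0 with hr
  set w := B 1 1 with hw
  rcases h with h | h
  · rw [AP_one] at h
    have e00 := congrFun (congrFun h 0) 0
    have e01 := congrFun (congrFun h 0) 1
    simp [Matrix.mul_apply, Fin.sum_univ_two] at e00 e01
    rw [← hp, ← hq, ← hr] at e00
    rw [← hp, ← hq, ← hw] at e01
    -- q = 2 r, 10 p + 14 q = 10 w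
    have h1 : q = 2 * r := by omega
    have h2 : 5 * (w - p) = 14 * r := by omega
    obtain ⟨k, hk⟩ : (5 : ℤ) ∣ r := by omega
    have h3 : w = p + 14 * k := by omega
    have h4 : (p + 7 * k) ^ 2 - 99 * k ^ 2 = -1 := by
      rw [h1, h3, hk] at hdet
      linarith
    -- mod 4
    have hm : ∀ a b : ZMod 4, a ^ 2 - 99 * b ^ 2 ≠ -1 := by decide
    apply hm ((p + 7 * k : ℤ) : ZMod 4) ((k : ℤ) : ZMod 4)
    have := congrArg (fun z : ℤ => (z : ZMod 4)) h4
    push_cast at this ⊢
    exact this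
  · rw [AP_one, AP_neg_one] at h
    have e00 := congrFun (congrFun h 0) 0
    have e01 := congrFun (congrFun h 0) 1
    simp [Matrix.mul_apply, Fin.sum_univ_two] at e00 e01
    rw [← hp, ← hq, ← hr] at e00
    rw [← hp, ← hq, ← hw] at e01
    have h1 : w = -p := by omega
    have h2 : 5 * q = 14 * p - 10 * r := by omega
    obtain ⟨k, hk⟩ : (5 : ℤ) ∣ p := by omega
    have h3 : q = 14 * k - 2 * r := by omega
    have h4 : (25 * k + 7 * r) ^ 2 - 99 * r ^ 2 = 25 := by
      rw [h1, h3, hk] at hdet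
      nlinarith
    have h5 := pell25 _ _ _ rfl h4
    obtain ⟨l, hl⟩ := h5
    have h6 : (5 : ℤ) ∣ r := by omega
    obtain ⟨m, hm⟩ := h6
    rw [h1, h3, hk, hm] at hdet
    have : (5 : ℤ) ∣ 1 := ⟨5 * k ^ 2 + (14 * k - 10 * m) * m, by linarith⟩
    norm_num at this

lemma AP_det (t : ℤ) : (AP t).det = 1 := (AS ^ t : SL).2

lemma AP_pos (n : ℕ) : ∀ i j, 0 < AP (n + 1) i j := by
  induction n with
  | zero =>
    intro i j
    simp only [Nat.cast_zero, zero_add, AP_one]
    fin_cases i <;> fin_cases j <;> simp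
  | succ k ih =>
    intro i j
    have e : AP (((k + 1 : ℕ) : ℤ) + 1) = AP ((k : ℤ) + 1) * AP 1 := by
      rw [← AP_add]
      push_cast
      rfl
    rw [e, Matrix.mul_apply, Fin.sum_univ_two]
    have a1 := ih i 0
    have a2 := ih i 1
    have b : ∀ i j, 0 < AP 1 i j := by
      intro i j
      rw [AP_one]
      fin_cases i <;> fin_cases j <;> simp
    have b1 := b 0 j
    have b2 := b 1 j
    positivity

lemma AP_eq_one (n : ℤ) (h : AP n = 1) : n = 0 := by
  by_contra hn
  rcases lt_or_gt_of_ne hn with hneg | hpos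
  · obtain ⟨k, hk⟩ : ∃ k : ℕ, -n = k + 1 := ⟨(-n - 1).toNat, by omega⟩
    have h1 : AP (-n) = 1 := by
      have : AP (-n) * AP n = 1 := by rw [← AP_add]; simp [AP_zero]
      rwa [h, mul_one] at this
    have h2 := AP_pos k 0 1
    rw [← hk, h1] at h2
    simp at h2
  · obtain ⟨k, hk⟩ : ∃ k : ℕ, n = k + 1 := ⟨(n - 1).toNat, by omega⟩
    have h2 := AP_pos k 0 1
    rw [← hk, h] at h2
    simp at h2

lemma conj_pow (B : Matrix (Fin 2) (Fin 2) ℤ) (t : ℤ) (h : B * AP 1 = AP t * B) (k : ℤ) :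
    B * AP k = AP (t * k) * B := by
  have hnat : ∀ n : ℕ, B * AP n = AP (t * n) * B := by
    intro n
    induction n with
    | zero => simp [AP_zero]
    | succ m ih =>
      have e : AP (((m + 1 : ℕ) : ℤ)) = AP (m : ℤ) * AP 1 := by
        rw [← AP_add]
        push_cast
        rfl
      rw [e, ← mul_assoc, ih, mul_assoc, h, ← mul_assoc, ← AP_add]
      congr 2
      push_cast
      ring
  rcases le_total 0 k with hk | hk
  · have := hnat k.toNat
    rwa [Int.toNat_of_nonneg hk] at this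
  · have h1 := hnat (-k).toNat
    rw [Int.toNat_of_nonneg (by omega)] at h1
    have e1 : AP (-k) * AP k = 1 := by rw [← AP_add]; simp [AP_zero]
    have e2 : AP (t * k) * AP (t * -k) = 1 := by
      rw [← AP_add]
      have : t * k + t * -k = 0 := by ring
      rw [this, AP_zero]
    calc B * AP k = (AP (t * k) * AP (t * -k)) * (B * AP k) := by rw [e2, one_mul]
      _ = AP (t * k) * ((AP (t * -k) * B) * AP k) := by
        rw [Matrix.mul_assoc, Matrix.mul_assoc]
      _ = AP (t * k) * ((B * AP (-k)) * AP k) := by rw [h1]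
      _ = AP (t * k) * B := by rw [Matrix.mul_assoc B, e1, mul_one]

namespace Gam

lemma mat_conj (al : Gam →* Gam) : mat al * AP 1 = AP (al tt).t * mat al := by
  apply mulVec_inj
  intro u
  have h1 : al (tt * N u * tt⁻¹) = al tt * al (N u) * (al tt)⁻¹ := by
    rw [map_mul, map_mul, map_inv]
  have h2 : tt * N u * tt⁻¹ = N (AP 1 *ᵥ u) := conj_N tt u
  rw [h2, hom_N_v, hom_N_v, conj_N] at h1
  have h3 := N_inj h1
  rw [← Matrix.mulVec_mulVec, ← Matrix.mulVec_mulVec]
  exact h3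

/-- automorphisms of `Γ` preserve the orientation of the fibre. -/
theorem aut_det (al be : Gam →* Gam) (d : Gam) (h1 : ∀ g, be (al g) = d * g * d⁻¹) :
    (mat al).det = 1 := by
  have hprod : mat be * mat al = AP d.t := by
    apply mulVec_inj
    intro u
    have h := h1 (N u)
    rw [hom_N_v, hom_N_v, conj_N] at h
    have h3 := N_inj h
    rw [← Matrix.mulVec_mulVec]
    exact h3
  have hdet : (mat be).det * (mat al).det = 1 := by
    rw [← Matrix.det_mul, hprod, AP_det]
  have hB := mat_conj al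
  have hB' := mat_conj be
  set t1 := (al tt).t
  set t2 := (be tt).t
  have e1 : mat be * mat al * AP 1 = AP (t2 * t1) * (mat be * mat al) := by
    rw [Matrix.mul_assoc, hB, ← Matrix.mul_assoc, conj_pow (mat be) t2 hB' t1, Matrix.mul_assoc]
  rw [hprod] at e1
  -- `AP d.t * AP 1 = AP (t2 * t1) * AP d.t`
  rw [← AP_add, ← AP_add] at e1
  have e2 : AP (t2 * t1 - 1) = 1 := by
    have : AP (-(d.t + 1)) * AP (d.t + 1) = 1 := by rw [← AP_add]; simp [AP_zero]
    rw [e1, ← AP_add] at this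
    convert this using 2
    ring
  have e3 := AP_eq_one _ e2
  have e4 : t2 * t1 = 1 := by omega
  have ht1 : t1 = 1 ∨ t1 = -1 := by
    have : IsUnit t1 := IsUnit.of_mul_eq_one t2 (by rw [mul_comm]; exact e4)
    exact Int.isUnit_iff.1 this
  have hd : IsUnit (mat al).det := IsUnit.of_mul_eq_one _ (by rw [mul_comm]; exact hdet)
  rcases Int.isUnit_iff.1 hd with h | h
  · exact h
  · exfalso
    apply chiral (mat al) h
    rcases ht1 with h' | h'
    · left; rw [hB, h']
    · right; rw [hB, h']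

end Gam

end H711R4
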