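import Pool.Agent.H711R4.GoodPlot

/-!
`Q` is an immersion away from the poles; the top power of a symplectic form has nonzero integral.
-/

open scoped Manifold ContDiff
open Set Filter Topology Real MeasureTheory

namespace H711R4

open FourSix

lemma lpL_inj (t : ℤ) (u : E4) (hu : lpL t u = 0) : u = 0 := by
  have h0 : u 0 = 0 := by
    have := congrFun (congrArg WithLp.ofLp hu) 0
    exact this
  have h1 : u 1 = 0 := by
    have := congrFun (congrArg WithLp.ofLp hu) 1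
    exact this
  have h2 : ar t 0 0 * u 2 + ar t 0 1 * u 3 = 0 := congrFun (congrArg WithLp.ofLp hu) 2
  have h3 : ar t 1 0 * u 2 + ar t 1 1 * u 3 = 0 := congrFun (congrArg WithLp.ofLp hu) 3
  have hd := ar_det t
  apply ext4
  · exact h0
  · exact h1
  · show u 2 = 0
    linear_combination ar t 1 1 * h2 - ar t 0 1 * h3 - u 2 * hd
  · show u 3 = 0
    linear_combination ar t 0 0 * h3 - ar t 1 0 * h2 - u 3 * hd

section

variable {E : Type} [NormedAddCommGroup E] [NormedSpace ℝ E] {H : Type} [TopologicalSpace H]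
  {I : ModelWithCorners ℝ E H} {N : Type} [TopologicalSpace N] [ChartedSpace H N]
  {E' : Type} [NormedAddCommGroup E'] [NormedSpace ℝ E'] {H' : Type} [TopologicalSpace H']
  {I' : ModelWithCorners ℝ E' H'} {N' : Type} [TopologicalSpace N'] [ChartedSpace H' N']
  {F : Type} [NormedAddCommGroup F] [NormedSpace ℝ F]

lemma mfderiv_comp_zero (g : F → N) (f : N → N') (p u : F)
    (hg : MDifferentiableAt 𝓘(ℝ, F) I g p) (hf : MDifferentiableAt I I' f (g p))
    (h : (mfderiv 𝓘(ℝ, F) I g p : F →L[ℝ] E) u = 0) :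
    (mfderiv 𝓘(ℝ, F) I' (f ∘ g) p : F →L[ℝ] E') u = 0 := by
  have h1 : (mfderiv 𝓘(ℝ, F) I' (f ∘ g) p : F →L[ℝ] E') u =
      (mfderiv I I' f (g p) : E →L[ℝ] E') ((mfderiv 𝓘(ℝ, F) I g p : F →L[ℝ] E) u) := by
    rw [mfderiv_comp p hf hg]
    rfl
  rw [h1, h]
  exact map_zero _

end

lemma spV_fderiv_zero (p u : V) (h0 : 0 < p 5) (h1 : p 5 < π) (hu : fderiv ℝ spV p u = 0) :
    u 4 = 0 ∧ u 5 = 0 := by
  have hd : HasFDerivAt spV (fderiv ℝ spV p) p :=
    (spV_contDiff.differentiable (by simp) p).hasFDerivAt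
  have hi : ∀ i : Fin 3, HasFDerivAt (fun q => spV q i)
      ((EuclideanSpace.proj i : E3 →L[ℝ] ℝ).comp (fderiv ℝ spV p)) p := fun i =>
    (EuclideanSpace.proj i : E3 →L[ℝ] ℝ).hasFDerivAt.comp p hd
  have hz : ∀ i : Fin 3, ((EuclideanSpace.proj i : E3 →L[ℝ] ℝ).comp (fderiv ℝ spV p)) u = 0 := by
    intro i
    rw [ContinuousLinearMap.comp_apply, hu, map_zero]
  have h4 : HasFDerivAt (fun q : V => q 4) (pr 4) p := (pr 4).hasFDerivAt
  have h5 : HasFDerivAt (fun q : V => q 5) (pr 5) p := (pr 5).hasFDerivAt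
  have e2 := (hi 2).unique h5.cos
  have e0 := (hi 0).unique (h5.sin.mul h4.cos)
  have e1 := (hi 1).unique (h5.sin.mul h4.sin)
  have a2 := congrArg (fun (L : V →L[ℝ] ℝ) => L u) e2
  have a0 := congrArg (fun (L : V →L[ℝ] ℝ) => L u) e0
  have a1 := congrArg (fun (L : V →L[ℝ] ℝ) => L u) e1
  simp only [hz] at a0 a1 a2
  have p4 : pr 4 u = u 4 := rfl
  have p5 : pr 5 u = u 5 := rfl
  simp only [add_apply, smul_apply, smul_eq_mul, p4, p5] at a0 a1 a2
  have hs : 0 < sin (p 5) := Real.sin_pos_of_pos_of_lt_pi h0 h1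
  have hu5 : u 5 = 0 := by
    have : sin (p 5) * u 5 = 0 := by linarith
    exact (mul_eq_zero.1 this).resolve_left hs.ne'
  refine ⟨?_, hu5⟩
  rw [hu5] at a0 a1
  have b0 : sin (p 5) * (sin (p 4) * u 4) = 0 := by linarith
  have b1 : sin (p 5) * (cos (p 4) * u 4) = 0 := by linarith
  have c0 := (mul_eq_zero.1 b0).resolve_left hs.ne'
  have c1 := (mul_eq_zero.1 b1).resolve_left hs.ne'
  have := sin_sq_add_cos_sq (p 4)
  linear_combination sin (p 4) * c0 + cos (p 4) * c1 - u 4 * this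

lemma QQ_mdiff (p : V) : MDifferentiableAt 𝓘(ℝ, V) ((𝓡 4).prod (𝓡 2)) QQ p :=
  (QQ_contMDiff p).mdifferentiableAt (by simp)

lemma QQ_inj (p u : V) (h0 : 0 < p 5) (h1 : p 5 < π)
    (hu : (mfderiv 𝓘(ℝ, V) ((𝓡 4).prod (𝓡 2)) QQ p : V →L[ℝ] E4 × E2) u = 0) : u = 0 := by
  -- first component
  have e1 := mfderiv_comp_zero (I' := 𝓡 4) QQ (Prod.fst : XX × S2 → XX) p u (QQ_mdiff p)
    (contMDiff_fst.mdifferentiableAt (n := ∞) (by simp)) hu
  have e1' : (Prod.fst : XX × S2 → XX) ∘ QQ = pj ∘ q4 := rfl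
  rw [e1'] at e1
  have e2 : (mfderiv 𝓘(ℝ, V) (𝓡 4) (pj ∘ q4) p : V →L[ℝ] E4) u =
      (mfderiv (𝓡 4) (𝓡 4) pj (q4 p) : E4 →L[ℝ] E4) (q4 u) := by
    rw [mfderiv_comp p ((pj_contMDiff _).mdifferentiableAt (by simp))
      q4.differentiableAt.mdifferentiableAt, mfderiv_eq_fderiv, q4.fderiv]
    rfl
  obtain ⟨t, ht⟩ := pj_mfderiv (q4 p)
  have e3 : lpL t (q4 u) = 0 := by
    rw [← ht]
    exact e2.symm.trans e1
  have e4 := lpL_inj t _ e3
  -- second component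
  have f1 := mfderiv_comp_zero (I' := 𝓡 2) QQ (Prod.snd : XX × S2 → S2) p u (QQ_mdiff p)
    (contMDiff_snd.mdifferentiableAt (n := ∞) (by simp)) hu
  have f1' : (Prod.snd : XX × S2 → S2) ∘ QQ = QS := rfl
  rw [f1'] at f1
  have f2 := mfderiv_comp_zero (I := 𝓡 2) (I' := 𝓘(ℝ, E3)) QS (Subtype.val : S2 → E3) p u
    ((QS_contMDiff p).mdifferentiableAt (by simp))
    ((contMDiff_coe_sphere (m := ∞) _).mdifferentiableAt (by simp)) f1
  have f2' : (Subtype.val : S2 → E3) ∘ QS = spV := rfl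
  rw [f2', mfderiv_eq_fderiv] at f2
  obtain ⟨u4, u5⟩ := spV_fderiv_zero p u h0 h1 f2
  have g0 : u 0 = 0 := congrFun (congrArg WithLp.ofLp e4) 0
  have g1 : u 1 = 0 := congrFun (congrArg WithLp.ofLp e4) 1
  have g2 : u 2 = 0 := congrFun (congrArg WithLp.ofLp e4) 2
  have g3 : u 3 = 0 := congrFun (congrArg WithLp.ofLp e4) 3
  funext i
  fin_cases i
  · exact g0
  · exact g1
  · exact g2
  · exact g3
  · exact u4
  · exact u5

/-- nondegeneracy of the plots. -/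
lemma plot_QQ_T {Ω : Form ((𝓡 4).prod (𝓡 2)) (XX × S2)} (hΩ : IsSymplectic Ω) (p : V)
    (h0 : 0 < p 5) (h1 : p 5 < π) :
    T (plot QQ Ω p) (plot QQ Ω p) (plot QQ Ω p) ≠ 0 := by
  apply T_ne_zero
  · intro u
    have := plot_skew QQ hΩ.alternating p u u
    linarith
  · intro u hu
    set D : V →L[ℝ] E4 × E2 := mfderiv 𝓘(ℝ, V) ((𝓡 4).prod (𝓡 2)) QQ p with hD
    have hinj : Function.Injective (D : V →ₗ[ℝ] E4 × E2) := by
      rw [← LinearMap.ker_eq_bot, LinearMap.ker_eq_bot']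
      intro m hm
      exact QQ_inj p m h0 h1 hm
    have hfin : Module.finrank ℝ V = Module.finrank ℝ (E4 × E2) := by simp
    have hsurj := (LinearMap.injective_iff_surjective_of_finrank_eq_finrank hfin).1 hinj
    have hDu : D u ≠ 0 := by
      intro h
      exact hu (QQ_inj p u h0 h1 h)
    obtain ⟨w', hw'⟩ := hΩ.nondegenerate (QQ p) (D u) hDu
    obtain ⟨w, hw⟩ := hsurj w'
    refine ⟨w, ?_⟩
    have h := plot_apply QQ Ω p u w
    have hw2 : D w = w' := hw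
    rw [h]
    rw [← hw2] at hw'
    exact hw'

end H711R4
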