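import Pool.Agent.H711R4.Fin1

/-!
Products of symplectic forms are symplectic.
-/

open scoped Manifold ContDiff
open Set Filter Topology

namespace FourSix

open H711R4

variable {E : Type} [NormedAddCommGroup E] [NormedSpace ℝ E] {H : Type} [TopologicalSpace H]
  {I : ModelWithCorners ℝ E H} {M : Type} [TopologicalSpace M] [ChartedSpace H M]
  {E' : Type} [NormedAddCommGroup E'] [NormedSpace ℝ E'] {H' : Type} [TopologicalSpace H']
  {I' : ModelWithCorners ℝ E' H'} {M' : Type} [TopologicalSpace M'] [ChartedSpace H' M']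

lemma prodForm_apply (η : Form I M) (σ : Form I' M') (p : M × M') (u v : E × E') :
    (prodForm η σ p : E × E' →L[ℝ] E × E' →L[ℝ] ℝ) u v =
      (η p.1 : E →L[ℝ] E →L[ℝ] ℝ) u.1 v.1 + (σ p.2 : E' →L[ℝ] E' →L[ℝ] ℝ) u.2 v.2 := by
  have h1 : pullback (I := I.prod I') (Prod.fst : M × M' → M) η p =
      ContinuousLinearMap.bilinearComp (E := E) (F := E) (G := ℝ) (E' := E × E') (F' := E × E')
        (η p.1) (ContinuousLinearMap.fst ℝ E E') (ContinuousLinearMap.fst ℝ E E') := by
    unfold pullback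
    rw [mfderiv_fst]
    rfl
  have h2 : pullback (I := I.prod I') (Prod.snd : M × M' → M') σ p =
      ContinuousLinearMap.bilinearComp (E := E') (F := E') (G := ℝ) (E' := E × E') (F' := E × E')
        (σ p.2) (ContinuousLinearMap.snd ℝ E E') (ContinuousLinearMap.snd ℝ E E') := by
    unfold pullback
    rw [mfderiv_snd]
    rfl
  unfold prodForm
  rw [h1, h2]
  rfl

/-- the product of symplectic forms in product charts. -/
lemma inChart_prodForm [FiniteDimensional ℝ E] [FiniteDimensional ℝ E'] [I.Boundaryless]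
    [I'.Boundaryless] [IsManifold I ∞ M] [IsManifold I' ∞ M'] (η : Form I M) (σ : Form I' M')
    (p : M × M') (z : E × E') (hz : z ∈ (extChartAt (I.prod I') p).target) :
    inChart (prodForm η σ) p z = vpull Prod.fst (inChart η p.1) z +
      vpull Prod.snd (inChart σ p.2) z := by
  have hz1 : z.1 ∈ (extChartAt I p.1).target := by
    rw [extChartAt_prod] at hz
    exact hz.1
  have hz2 : z.2 ∈ (extChartAt I' p.2).target := by
    rw [extChartAt_prod] at hz
    exact hz.2
  have h0 : MDifferentiableAt 𝓘(ℝ, E × E') (I.prod I') (extChartAt (I.prod I') p).symm z :=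
    ((contMDiffOn_extChartAt_symm (I := I.prod I') (n := ∞) p).contMDiffAt
      ((isOpen_extChartAt_target (I := I.prod I') p).mem_nhds hz)).mdifferentiableAt (by simp)
  have h1 : MDifferentiableAt 𝓘(ℝ, E) I (extChartAt I p.1).symm z.1 :=
    ((contMDiffOn_extChartAt_symm (I := I) (n := ∞) p.1).contMDiffAt
      ((isOpen_extChartAt_target (I := I) p.1).mem_nhds hz1)).mdifferentiableAt (by simp)
  have h2 : MDifferentiableAt 𝓘(ℝ, E') I' (extChartAt I' p.2).symm z.2 :=
    ((contMDiffOn_extChartAt_symm (I := I') (n := ∞) p.2).contMDiffAt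
      ((isOpen_extChartAt_target (I := I') p.2).mem_nhds hz2)).mdifferentiableAt (by simp)
  have e1 : (Prod.fst : M × M' → M) ∘ (extChartAt (I.prod I') p).symm =
      (extChartAt I p.1).symm ∘ (Prod.fst : E × E' → E) := by
    rw [extChartAt_prod]
    rfl
  have e2 : (Prod.snd : M × M' → M') ∘ (extChartAt (I.prod I') p).symm =
      (extChartAt I' p.2).symm ∘ (Prod.snd : E × E' → E') := by
    rw [extChartAt_prod]
    rfl
  refine ContinuousLinearMap.ext fun u => ContinuousLinearMap.ext fun v => ?_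
  have h3 := plot_prodForm (extChartAt (I.prod I') p).symm η σ z u v h0
  rw [e1, e2] at h3
  have h4 := plot_comp (extChartAt I p.1).symm (Prod.fst : E × E' → E) η z h1
    differentiableAt_fst u v
  have h5 := plot_comp (extChartAt I' p.2).symm (Prod.snd : E × E' → E') σ z h2
    differentiableAt_snd u v
  rw [h4, h5] at h3
  exact h3

theorem prodForm_symplectic [FiniteDimensional ℝ E] [FiniteDimensional ℝ E'] [I.Boundaryless]
    [I'.Boundaryless] [IsManifold I ∞ M] [IsManifold I' ∞ M'] {η : Form I M} {σ : Form I' M'}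
    (hη : IsSymplectic η) (hσ : IsSymplectic σ) : IsSymplectic (prodForm η σ) := by
  have hdec : ∀ (p : M × M'), ∀ z ∈ (extChartAt (I.prod I') p).target,
      inChart (prodForm η σ) p =ᶠ[𝓝 z] fun z => vpull Prod.fst (inChart η p.1) z +
        vpull Prod.snd (inChart σ p.2) z := by
    intro p z hz
    filter_upwards [(isOpen_extChartAt_target (I := I.prod I') p).mem_nhds hz] with y hy
    exact inChart_prodForm η σ p y hy
  have hz12 : ∀ (p : M × M'), ∀ z ∈ (extChartAt (I.prod I') p).target,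
      ContDiffAt ℝ ∞ (inChart η p.1) z.1 ∧ ContDiffAt ℝ ∞ (inChart σ p.2) z.2 ∧
      z.1 ∈ (extChartAt I p.1).target ∧ z.2 ∈ (extChartAt I' p.2).target := by
    intro p z hz
    rw [extChartAt_prod] at hz
    exact ⟨(hη.smooth p.1).contDiffAt ((isOpen_extChartAt_target (I := I) p.1).mem_nhds hz.1),
      (hσ.smooth p.2).contDiffAt ((isOpen_extChartAt_target (I := I') p.2).mem_nhds hz.2),
      hz.1, hz.2⟩
  have hv1 : ∀ (p : M × M'), ∀ z ∈ (extChartAt (I.prod I') p).target,
      ContDiffAt ℝ ∞ (vpull (Prod.fst : E × E' → E) (inChart η p.1)) z := fun p z hz =>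
    contDiffAt_vpull _ _ z (hz12 p z hz).1 contDiffAt_fst
  have hv2 : ∀ (p : M × M'), ∀ z ∈ (extChartAt (I.prod I') p).target,
      ContDiffAt ℝ ∞ (vpull (Prod.snd : E × E' → E') (inChart σ p.2)) z := fun p z hz =>
    contDiffAt_vpull _ _ z (hz12 p z hz).2.1 contDiffAt_snd
  refine ⟨?_, ?_, ?_, ?_⟩
  · intro p v
    have h := prodForm_apply η σ p v v
    have h1 : (η p.1 : E →L[ℝ] E →L[ℝ] ℝ) v.1 v.1 = 0 := hη.alternating p.1 v.1
    have h2 : (σ p.2 : E' →L[ℝ] E' →L[ℝ] ℝ) v.2 v.2 = 0 := hσ.alternating p.2 v.2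
    rw [h1, h2, add_zero] at h
    exact h
  · intro p v hv
    have key : ∀ v : E × E', v ≠ 0 → ∃ w : E × E',
        (prodForm η σ p : E × E' →L[ℝ] E × E' →L[ℝ] ℝ) v w ≠ 0 := by
      rintro ⟨v1, v2⟩ hv
      by_cases h1 : v1 = 0
      · have h2 : v2 ≠ 0 := by
          rintro rfl
          exact hv (by rw [h1]; rfl)
        obtain ⟨w, hw⟩ := hσ.nondegenerate p.2 v2 h2
        refine ⟨(0, w), ?_⟩
        have e : (η p.1 : E →L[ℝ] E →L[ℝ] ℝ) v1 0 = 0 := map_zero _
        have e2 : (η p.1 : E →L[ℝ] E →L[ℝ] ℝ) v1 0 + (σ p.2 : E' →L[ℝ] E' →L[ℝ] ℝ) v2 w =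
            (σ p.2 : E' →L[ℝ] E' →L[ℝ] ℝ) v2 w := by rw [e, zero_add]
        rw [prodForm_apply]
        intro h0
        exact hw (e2.symm.trans h0)
      · obtain ⟨w, hw⟩ := hη.nondegenerate p.1 v1 h1
        refine ⟨(w, 0), ?_⟩
        have e : (σ p.2 : E' →L[ℝ] E' →L[ℝ] ℝ) v2 0 = 0 := map_zero _
        have e2 : (η p.1 : E →L[ℝ] E →L[ℝ] ℝ) v1 w + (σ p.2 : E' →L[ℝ] E' →L[ℝ] ℝ) v2 0 =
            (η p.1 : E →L[ℝ] E →L[ℝ] ℝ) v1 w := by rw [e, add_zero]
        rw [prodForm_apply]
        intro h0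
        exact hw (e2.symm.trans h0)
    exact key v hv
  · intro p z hz
    exact (((hv1 p z hz).add (hv2 p z hz)).congr_of_eventuallyEq (hdec p z hz)).contDiffWithinAt
  · intro p z hz u v w
    have hf : fderiv ℝ (inChart (prodForm η σ) p) z =
        fderiv ℝ (vpull (Prod.fst : E × E' → E) (inChart η p.1)) z +
        fderiv ℝ (vpull (Prod.snd : E × E' → E') (inChart σ p.2)) z := by
      rw [(hdec p z hz).fderiv_eq]
      exact fderiv_add ((hv1 p z hz).differentiableAt (by simp))
        ((hv2 p z hz).differentiableAt (by simp))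
    have c1 := closed_vpull (Prod.fst : E × E' → E) (inChart η p.1) z (hz12 p z hz).1
      contDiffAt_fst (fun u v => inChart_skew hη.alternating _ _ _ _)
      (fun u v w => hη.closed _ _ (hz12 p z hz).2.2.1 _ _ _) u v w
    have c2 := closed_vpull (Prod.snd : E × E' → E') (inChart σ p.2) z (hz12 p z hz).2.1
      contDiffAt_snd (fun u v => inChart_skew hσ.alternating _ _ _ _)
      (fun u v w => hσ.closed _ _ (hz12 p z hz).2.2.2 _ _ _) u v w
    rw [hf]
    simp only [add_apply]
    linarith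

end FourSix
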