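import Pool.Agent.H711R4.Fin3
import Pool.Agent.H711R4.Area
import Pool.Agent.H711R4.ProdForm
import Pool.Agent.H711R4.Defs4

/-!
Donaldson's four-six question: assembly.
-/

open scoped Manifold ContDiff
open Set

namespace H711R4

open FourSix

lemma neg_omX : - omX 1 = omX (-1) := by
  funext q
  have h : (-((1 : ℝ) • Om0) : E4 →L[ℝ] E4 →L[ℝ] ℝ) = (-1 : ℝ) • Om0 := by
    refine ContinuousLinearMap.ext fun u => ContinuousLinearMap.ext fun v => ?_
    show -((1 : ℝ) * Om0 u v) = (-1 : ℝ) * Om0 u v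
    ring
  exact h

/-- the symplectic manifold `ℝ⁴ / Γ`. -/
noncomputable def AX : Symp4 where
  X := XX
  form := omX 1
  symp := symplectic_iff.2 (omX_symplectic 1 one_ne_zero)

theorem main : Nonempty Area ∧ ∃ A : Symp4, ConnectedSpace A.X ∧ Diffeo A A.neg ∧
    ∀ σ σ' : Area, TimesSymplectic A σ ∧ TimesSymplectic A.neg σ' ∧
      ¬ TimesDefEquiv A A.neg σ σ' := by
  refine ⟨⟨⟨sig0, symplectic_iff.2 sig0_symplectic⟩⟩, AX, inferInstanceAs (ConnectedSpace XX),
    ⟨Diffeomorph.refl (𝓡 4) XX ∞⟩, ?_⟩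
  intro σ σ'
  refine ⟨symplectic_iff.2
      (prodForm_symplectic (symplectic_iff.1 AX.symp) (symplectic_iff.1 σ.symp)),
    symplectic_iff.2
      (prodForm_symplectic (symplectic_iff.1 AX.neg.symp) (symplectic_iff.1 σ'.symp)), ?_⟩
  rintro ⟨φ, Ω, hΩ, hs, h0, h1⟩
  have h2 : prodF AX.neg.form σ'.form = prodForm (omX (-1)) σ'.form := by
    show prodForm (-omX 1) σ'.form = _
    rw [neg_omX]
  rw [h2] at h1
  exact no_deformation (symplectic_iff.1 σ'.symp) φ Ω hΩ
    (fun t ht => symplectic_iff.1 (hs t ht)) h0 h1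

end H711R4
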