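import Mathlib

/-!
Smoothness of parametric integrals over `[0,1]`, and the Poincaré homotopy operator.
-/

namespace H711R4

open MeasureTheory Set Filter Topology
open scoped ContDiff

section param

variable {E : Type} [NormedAddCommGroup E] [NormedSpace ℝ E] [ProperSpace E]

lemma hasFDerivAt_param {F : Type} [NormedAddCommGroup F] [NormedSpace ℝ F] [CompleteSpace F]
    (f : E × ℝ → F) (hf : ContDiff ℝ ∞ f) (x : E) :
    HasFDerivAt (fun x => ∫ u in (0 : ℝ)..1, f (x, u))
      (∫ u in (0 : ℝ)..1, (fderiv ℝ f (x, u)).comp (ContinuousLinearMap.inl ℝ E ℝ)) x := by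
  have hfd : Continuous (fderiv ℝ f) := hf.continuous_fderiv (by simp)
  have hcomp : Continuous (fun q : E × ℝ =>
      (fderiv ℝ f q).comp (ContinuousLinearMap.inl ℝ E ℝ)) :=
    hfd.clm_comp continuous_const
  have hK : IsCompact (Metric.closedBall x 1 ×ˢ Icc (0 : ℝ) 1) :=
    (isCompact_closedBall x 1).prod isCompact_Icc
  obtain ⟨C, hC⟩ := hK.exists_bound_of_continuousOn hcomp.continuousOn
  refine intervalIntegral.hasFDerivAt_integral_of_dominated_of_fderiv_le (s := Metric.ball x 1)
    (bound := fun _ => C) (F := fun x u => f (x, u))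
    (F' := fun x u => (fderiv ℝ f (x, u)).comp (ContinuousLinearMap.inl ℝ E ℝ))
    (Metric.ball_mem_nhds x one_pos) ?_ ?_ ?_ ?_ ?_ ?_
  · refine Eventually.of_forall fun y => ?_
    exact (hf.continuous.comp (continuous_const.prodMk continuous_id)).aestronglyMeasurable
  · exact (hf.continuous.comp (continuous_const.prodMk continuous_id)).intervalIntegrable _ _
  · exact (hcomp.comp (continuous_const.prodMk continuous_id)).aestronglyMeasurable
  · refine Eventually.of_forall fun t ht y hy => ?_
    refine hC (y, t) ⟨Metric.ball_subset_closedBall hy, ?_⟩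
    rw [uIoc_of_le zero_le_one] at ht
    exact ⟨ht.1.le, ht.2⟩
  · exact intervalIntegrable_const
  · refine Eventually.of_forall fun t ht y hy => ?_
    have h1 : HasFDerivAt f (fderiv ℝ f (y, t)) (y, t) :=
      (hf.differentiable (by simp) (y, t)).hasFDerivAt
    exact h1.comp y (hasFDerivAt_prodMk_left y t)

lemma contDiff_param_nat (n : ℕ) : ∀ {F : Type} [NormedAddCommGroup F] [NormedSpace ℝ F]
    [CompleteSpace F] (f : E × ℝ → F) (_ : ContDiff ℝ ∞ f),
    ContDiff ℝ n (fun x => ∫ u in (0 : ℝ)..1, f (x, u)) := by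
  induction n with
  | zero =>
    intro F _ _ _ f hf
    rw [Nat.cast_zero, contDiff_zero]
    exact continuous_iff_continuousAt.2 fun x => (hasFDerivAt_param f hf x).continuousAt
  | succ k ih =>
    intro F _ _ _ f hf
    rw [Nat.cast_succ, contDiff_succ_iff_fderiv]
    refine ⟨fun x => (hasFDerivAt_param f hf x).differentiableAt, ?_, ?_⟩
    · intro h
      simp at h
    · have e : fderiv ℝ (fun x => ∫ u in (0 : ℝ)..1, f (x, u)) = fun x =>
          ∫ u in (0 : ℝ)..1, (fderiv ℝ f (x, u)).comp (ContinuousLinearMap.inl ℝ E ℝ) := by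
        funext x
        exact (hasFDerivAt_param f hf x).fderiv
      rw [e]
      apply ih (fun q : E × ℝ => (fderiv ℝ f q).comp (ContinuousLinearMap.inl ℝ E ℝ))
      exact (hf.fderiv_right (m := ∞) (by simp)).clm_comp contDiff_const

lemma contDiff_param {F : Type} [NormedAddCommGroup F] [NormedSpace ℝ F] [CompleteSpace F]
    (f : E × ℝ → F) (hf : ContDiff ℝ ∞ f) :
    ContDiff ℝ ∞ (fun x => ∫ u in (0 : ℝ)..1, f (x, u)) := by
  rw [contDiff_infty]
  intro n
  exact contDiff_param_nat n f hf

lemma cont_fderiv_param {F : Type} [NormedAddCommGroup F] [NormedSpace ℝ F]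
    (f : E × ℝ → F) (hf : ContDiff ℝ ∞ f) (x : E) : Continuous (fun r : ℝ =>
      (fderiv ℝ f (x, r)).comp (ContinuousLinearMap.inl ℝ E ℝ)) := by
  have := hf.continuous_fderiv (n := ∞) (by simp)
  exact (this.comp (continuous_const.prodMk continuous_id)).clm_comp continuous_const

lemma fderiv_param {F : Type} [NormedAddCommGroup F] [NormedSpace ℝ F] [CompleteSpace F]
    (f : E × ℝ → F) (hf : ContDiff ℝ ∞ f) (x v : E) :
    fderiv ℝ (fun x => ∫ u in (0 : ℝ)..1, f (x, u)) x v =
      ∫ u in (0 : ℝ)..1, fderiv ℝ (fun y => f (y, u)) x v := by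
  rw [(hasFDerivAt_param f hf x).fderiv]
  rw [ContinuousLinearMap.intervalIntegral_apply
    ((cont_fderiv_param f hf x).intervalIntegrable _ _)]
  refine intervalIntegral.integral_congr fun r _ => ?_
  have h4 := HasFDerivAt.comp (g := f) (f := fun q : E => (q, r)) x
    ((hf.differentiable (by simp) (x, r)).hasFDerivAt) (hasFDerivAt_prodMk_left x r)
  have h5 : fderiv ℝ (fun y => f (y, r)) x = _ := h4.fderiv
  rw [h5]

lemma fderiv_param' {F : Type} [NormedAddCommGroup F] [NormedSpace ℝ F] [CompleteSpace F]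
    (f : E × ℝ → F) (hf : ContDiff ℝ ∞ f) (x v : E) :
    Continuous (fun r : ℝ => fderiv ℝ (fun y => f (y, r)) x v) := by
  have e : (fun r : ℝ => fderiv ℝ (fun y => f (y, r)) x v) = fun r : ℝ =>
      (fderiv ℝ f (x, r)).comp (ContinuousLinearMap.inl ℝ E ℝ) v := by
    funext r
    have h4 := HasFDerivAt.comp (g := f) (f := fun q : E => (q, r)) x
      ((hf.differentiable (by simp) (x, r)).hasFDerivAt) (hasFDerivAt_prodMk_left x r)
    have h5 : fderiv ℝ (fun y => f (y, r)) x = _ := h4.fderiv
    rw [h5]
  rw [e]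
  exact (cont_fderiv_param f hf x).clm_apply continuous_const

end param

section homotopy

variable {E : Type} [NormedAddCommGroup E] [NormedSpace ℝ E] [ProperSpace E]
variable (l : E →L[ℝ] ℝ) (e : E)

/-- the contraction in the direction `e`. -/
noncomputable def gJ (r : ℝ) (p : E) : E := p + ((r - 1) * l p) • e

/-- projection along `e`. -/
noncomputable def gP (p : E) : E := p - (l p) • e

/-- the Poincaré homotopy operator. -/
noncomputable def ghom (W : E → E →L[ℝ] E →L[ℝ] ℝ) (p : E) : E →L[ℝ] ℝ :=
  ∫ r in (0 : ℝ)..1, (l p) • W (gJ l e r p) e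

lemma contDiff_gJ : ContDiff ℝ ∞ (fun q : E × ℝ => gJ l e q.2 q.1) := by
  unfold gJ
  fun_prop

lemma contDiff_ghomInt (W : E → E →L[ℝ] E →L[ℝ] ℝ) (hW : ContDiff ℝ ∞ W) :
    ContDiff ℝ ∞ (fun q : E × ℝ => (l q.1) • W (gJ l e q.2 q.1) e) := by
  have h1 : ContDiff ℝ ∞ (fun q : E × ℝ => W (gJ l e q.2 q.1)) := hW.comp (contDiff_gJ l e)
  have h2 : ContDiff ℝ ∞ (fun q : E × ℝ => l q.1) := by fun_prop
  exact h2.smul (h1.clm_apply contDiff_const)

lemma contDiff_ghom (W : E → E →L[ℝ] E →L[ℝ] ℝ) (hW : ContDiff ℝ ∞ W) :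
    ContDiff ℝ ∞ (ghom l e W) :=
  contDiff_param (fun q : E × ℝ => (l q.1) • W (gJ l e q.2 q.1) e) (contDiff_ghomInt l e W hW)

lemma ghom_apply (W : E → E →L[ℝ] E →L[ℝ] ℝ) (hW : Continuous W) (p v : E) :
    ghom l e W p v = ∫ r in (0 : ℝ)..1, (l p) * W (gJ l e r p) e v := by
  unfold ghom
  rw [ContinuousLinearMap.intervalIntegral_apply]
  · rfl
  · apply Continuous.intervalIntegrable
    have h1 : Continuous (fun r : ℝ => gJ l e r p) := by
      unfold gJ
      fun_prop
    exact ((hW.comp h1).clm_apply continuous_const).const_smul (l p)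

lemma fderiv_ghom (W : E → E →L[ℝ] E →L[ℝ] ℝ) (hW : ContDiff ℝ ∞ W) (p u v : E) :
    fderiv ℝ (ghom l e W) p u v = ∫ r in (0 : ℝ)..1, ((l u) * W (gJ l e r p) e v +
      (l p) * fderiv ℝ W (gJ l e r p) (gJ l e r u) e v) := by
  have hF := contDiff_ghomInt l e W hW
  have h0 : HasFDerivAt (ghom l e W) _ p := hasFDerivAt_param _ hF p
  rw [h0.fderiv]
  have hc : Continuous (fun r : ℝ => (fderiv ℝ (fun q : E × ℝ =>
      (l q.1) • W (gJ l e q.2 q.1) e) (p, r)).comp (ContinuousLinearMap.inl ℝ E ℝ)) := by
    have : Continuous (fderiv ℝ (fun q : E × ℝ => (l q.1) • W (gJ l e q.2 q.1) e)) :=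
      hF.continuous_fderiv (by simp)
    exact (this.comp (continuous_const.prodMk continuous_id)).clm_comp continuous_const
  rw [ContinuousLinearMap.intervalIntegral_apply (hc.intervalIntegrable _ _)]
  rw [ContinuousLinearMap.intervalIntegral_apply
    ((hc.clm_apply continuous_const).intervalIntegrable _ _)]
  refine intervalIntegral.integral_congr fun r _ => ?_
  -- derivative at fixed `r`
  have hJ : HasFDerivAt (fun q : E => gJ l e r q)
      (ContinuousLinearMap.id ℝ E + (ContinuousLinearMap.smulRight ((r - 1) • l) e)) p := by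
    unfold gJ
    refine (hasFDerivAt_id p).add ?_
    have h1 : HasFDerivAt (fun q : E => (r - 1) * l q) ((r - 1) • l) p :=
      (l.hasFDerivAt (x := p)).const_mul (r - 1)
    exact h1.smul_const e
  have hWJ : HasFDerivAt (fun q : E => W (gJ l e r q))
      ((fderiv ℝ W (gJ l e r p)).comp (ContinuousLinearMap.id ℝ E +
        (ContinuousLinearMap.smulRight ((r - 1) • l) e))) p :=
    ((hW.differentiable (by simp) (gJ l e r p)).hasFDerivAt).comp p hJ
  have hWJ2 := hWJ.clm_apply (hasFDerivAt_const e p)
  have hk : HasFDerivAt (fun q : E => l q) l p := l.hasFDerivAt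
  have h3 := hk.smul hWJ2
  have h4 := HasFDerivAt.comp (g := fun q : E × ℝ => (l q.1) • W (gJ l e q.2 q.1) e)
    (f := fun q : E => (q, r)) p ((hF.differentiable (by simp) (p, r)).hasFDerivAt)
    (hasFDerivAt_prodMk_left p r)
  have h5 := h4.unique h3
  rw [h5]
  have hJu : (ContinuousLinearMap.id ℝ E +
        (ContinuousLinearMap.smulRight ((r - 1) • l) e)) u = gJ l e r u := by
    unfold gJ
    simp
  simp only [add_apply, smul_apply, ContinuousLinearMap.smulRight_apply,
    ContinuousLinearMap.flip_apply, ContinuousLinearMap.coe_comp, Function.comp_apply, smul_eq_mul,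
    ContinuousLinearMap.zero_apply, map_zero, zero_add] at hJu ⊢
  rw [hJu]
  ring

/-- the homotopy formula. -/
lemma d1_ghom (W : E → E →L[ℝ] E →L[ℝ] ℝ) (hW : ContDiff ℝ ∞ W)
    (sW : ∀ p u v, W p u v = - W p v u)
    (cW : ∀ p u v w, fderiv ℝ W p u v w + fderiv ℝ W p v w u + fderiv ℝ W p w u v = 0)
    (p u v : E) : fderiv ℝ (ghom l e W) p u v - fderiv ℝ (ghom l e W) p v u =
      W p u v - W (gP l e p) (gP l e u) (gP l e v) := by
  have hJc : ∀ q : E, Continuous (fun r : ℝ => gJ l e r q) := by
    intro q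
    unfold gJ
    fun_prop
  have hWc := hW.continuous
  have hWd := hW.continuous_fderiv (n := ∞) (by simp)
  have hzero : ∀ q : E, W q e e = 0 := by
    intro q
    have := sW q e e
    linarith
  have hcoef : ∀ q x y : E, HasFDerivAt (fun q => W q x y) ((ContinuousLinearMap.apply ℝ ℝ y).comp
          ((ContinuousLinearMap.apply ℝ (E →L[ℝ] ℝ) x).comp (fderiv ℝ W q))) q := by
    intro q x y
    have hb := hW.differentiable (by simp) q
    have h0 : HasFDerivAt (fun p => W p x)
        ((ContinuousLinearMap.apply ℝ (E →L[ℝ] ℝ) x).comp (fderiv ℝ W q)) q := by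
      have h := hb.hasFDerivAt.clm_apply (hasFDerivAt_const x q)
      refine h.congr_fderiv ?_
      ext u v
      simp
    exact (ContinuousLinearMap.apply ℝ ℝ y).hasFDerivAt.comp q h0
  -- skewness of the derivative
  have hsk : ∀ q a x y, fderiv ℝ W q a x y = - fderiv ℝ W q a y x := by
    intro q a x y
    have h1 := hcoef q x y
    have h2 := hcoef q y x
    have e : (fun q => W q x y) = fun q => - W q y x := by
      funext q
      exact sW q x y
    rw [e] at h1
    have h3 := h1.unique h2.neg
    have h4 := congrArg (fun (L : E →L[ℝ] ℝ) => L a) h3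
    simpa using h4
  rw [fderiv_ghom l e W hW, fderiv_ghom l e W hW]
  rw [← intervalIntegral.integral_sub]
  · have hg : ∀ r : ℝ, HasDerivAt (fun r => W (gJ l e r p) (gJ l e r u) (gJ l e r v))
        ((l u) * W (gJ l e r p) e v + (l p) * fderiv ℝ W (gJ l e r p) (gJ l e r u) e v -
        ((l v) * W (gJ l e r p) e u + (l p) * fderiv ℝ W (gJ l e r p) (gJ l e r v) e u)) r := by
      intro r
      have hJr : ∀ q : E, HasDerivAt (fun r => gJ l e r q) ((l q) • e) r := by
        intro q
        unfold gJ
        have h1 : HasDerivAt (fun r : ℝ => (r - 1) * l q) (1 * l q) r :=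
          ((hasDerivAt_id r).sub_const 1).mul_const (l q)
        have h2 := (h1.smul_const e).const_add q
        simpa using h2
      have hWr : HasDerivAt (fun r => W (gJ l e r p)) (fderiv ℝ W (gJ l e r p) ((l p) • e)) r :=
        HasFDerivAt.comp_hasDerivAt (f := fun r => gJ l e r p) r
          ((hW.differentiable (by simp) (gJ l e r p)).hasFDerivAt) (hJr p)
      have h1 := (hWr.clm_apply (hJr u)).clm_apply (hJr v)
      refine h1.congr_deriv ?_
      simp only [add_apply, map_smul, smul_apply, smul_eq_mul]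
      -- closedness
      have hcl := cW (gJ l e r p) e (gJ l e r u) (gJ l e r v)
      have hx : ∀ x y, fderiv ℝ W (gJ l e r p) x e y =
          fderiv ℝ W (gJ l e r p) x e (gJ l e r y) := by
        intro x y
        have hz : fderiv ℝ W (gJ l e r p) x e e = 0 := by
          have := hsk (gJ l e r p) x e e
          linarith
        have : gJ l e r y = y + ((r - 1) * l y) • e := rfl
        rw [this, map_add, map_smul, hz]
        simp
      have hy : ∀ y, W (gJ l e r p) e y = W (gJ l e r p) e (gJ l e r y) := by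
        intro y
        have : gJ l e r y = y + ((r - 1) * l y) • e := rfl
        rw [this, map_add, map_smul, hzero]
        simp
      rw [hx (gJ l e r u) v, hx (gJ l e r v) u, hy v, hy u]
      rw [hsk (gJ l e r p) (gJ l e r u) (gJ l e r v) e] at hcl
      rw [sW (gJ l e r p) (gJ l e r u) e]
      linear_combination (l p) * hcl
    have c1 : ∀ x y, Continuous (fun r => W (gJ l e r p) x y) := fun x y =>
      ((hWc.comp (hJc p)).clm_apply continuous_const).clm_apply continuous_const
    have c2 : ∀ x y, Continuous (fun r => fderiv ℝ W (gJ l e r p) (gJ l e r x) e y) := fun x y =>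
      (((hWd.comp (hJc p)).clm_apply (hJc x)).clm_apply continuous_const).clm_apply
        continuous_const
    have hint : IntervalIntegrable (fun r => (l u) * W (gJ l e r p) e v +
        (l p) * fderiv ℝ W (gJ l e r p) (gJ l e r u) e v -
        ((l v) * W (gJ l e r p) e u + (l p) * fderiv ℝ W (gJ l e r p) (gJ l e r v) e u))
        volume 0 1 := by
      apply Continuous.intervalIntegrable
      exact ((continuous_const.mul (c1 _ _)).add (continuous_const.mul (c2 _ _))).sub
        ((continuous_const.mul (c1 _ _)).add (continuous_const.mul (c2 _ _)))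
    rw [intervalIntegral.integral_eq_sub_of_hasDerivAt (fun r _ => hg r) hint]
    have e1 : ∀ q : E, gJ l e 1 q = q := by
      intro q
      simp [gJ]
    have e0 : ∀ q : E, gJ l e 0 q = gP l e q := by
      intro q
      simp [gJ, gP, sub_eq_add_neg]
    rw [e1, e1, e1, e0, e0, e0]
  · apply Continuous.intervalIntegrable
    exact (continuous_const.mul (((hWc.comp (hJc p)).clm_apply continuous_const).clm_apply
      continuous_const)).add (continuous_const.mul ((((hWd.comp (hJc p)).clm_apply
      (hJc u)).clm_apply continuous_const).clm_apply continuous_const))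
  · apply Continuous.intervalIntegrable
    exact (continuous_const.mul (((hWc.comp (hJc p)).clm_apply continuous_const).clm_apply
      continuous_const)).add (continuous_const.mul ((((hWd.comp (hJc p)).clm_apply
      (hJc v)).clm_apply continuous_const).clm_apply continuous_const))

end homotopy

end H711R4
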