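import Pool.Agent.H711R4.Forms2

/-!
# Closed symplectic manifolds and deformation equivalence: definitions

The definitions used in the final statement, in small pieces, on top of `Form`, `pullback` and
`inChart`.
-/

open scoped Manifold ContDiff
open Set

namespace FourSix

section

variable {E : Type} [NormedAddCommGroup E] [NormedSpace ℝ E] {H : Type} [TopologicalSpace H]
  {I : ModelWithCorners ℝ E H} {M : Type} [TopologicalSpace M] [ChartedSpace H M]
  {E' : Type} [NormedAddCommGroup E'] [NormedSpace ℝ E'] {H' : Type} [TopologicalSpace H']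
  {I' : ModelWithCorners ℝ E' H'} {M' : Type} [TopologicalSpace M'] [ChartedSpace H' M']

variable (E) in
/-- The continuous bilinear forms on a normed space. -/
abbrev BilF : Type := E →L[ℝ] E →L[ℝ] ℝ

/-- The value of a bilinear form on two vectors. -/
noncomputable def bval (B : BilF E) (u v : E) : ℝ := B u v

/-- The sum of two bilinear forms. -/
noncomputable def bsum (B C : BilF E) : BilF E := B + C

/-- The negative of a bilinear form. -/
noncomputable def bneg (B : BilF E) : BilF E := - B

/-- `η_p(v, v) = 0` for all tangent vectors. -/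
def Alternating (η : Form I M) : Prop := ∀ (p : M) (v : E), bval (E := E) (η p) v v = 0

/-- A nonzero tangent vector pairs nontrivially with some tangent vector. -/
def Nondegenerate (η : Form I M) : Prop :=
  ∀ (p : M) (v : E), v ≠ 0 → ∃ w : E, bval (E := E) (η p) v w ≠ 0

/-- In every chart (around a point `p₀`) the coefficients `η(u, v)`, `u`, `v` constant vectors of
the model space, are smooth functions. -/
def Smooth (η : Form I M) : Prop :=
  ∀ (p₀ : M) (u v : E),
    ContDiffOn ℝ ∞ (fun x => bval (inChart η p₀ x) u v) (extChartAt I p₀).target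

/-- `dη = 0`: in every chart, for all constant vectors `u`, `v`, `w` of the model space, the cyclic
sum of the derivatives of `η(v, w)` in the direction `u` vanishes. -/
def Closed (η : Form I M) : Prop :=
  ∀ (p₀ : M), ∀ x ∈ (extChartAt I p₀).target, ∀ u v w : E,
    fderiv ℝ (fun y => bval (inChart η p₀ y) v w) x u +
    fderiv ℝ (fun y => bval (inChart η p₀ y) w u) x v +
    fderiv ℝ (fun y => bval (inChart η p₀ y) u v) x w = 0

/-- A symplectic form. -/
structure Symplectic (η : Form I M) : Prop where
  alternating : Alternating η
  nondegenerate : Nondegenerate η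
  smooth : Smooth η
  closed : Closed η

/-- `(M, η)` and `(M', η')` are symplectically deformation equivalent: there are a diffeomorphism
`φ : M → M'` and a continuous path `Ω t`, `t ∈ [0,1]`, of symplectic forms on `M` from `η` to
`φ^* η'`. -/
def DefEquiv (η : Form I M) (η' : Form I' M') : Prop :=
  ∃ (φ : M ≃ₘ⟮I, I'⟯ M') (Ω : ℝ → Form I M), ContinuousFamily Ω ∧
    (∀ t ∈ Icc (0 : ℝ) 1, Symplectic (Ω t)) ∧ Ω 0 = η ∧ Ω 1 = pullback φ η'

/-- The form `pr₁^* η + pr₂^* σ` on the product `M × M'`. -/
noncomputable def prodF (η : Form I M) (σ : Form I' M') : Form (I.prod I') (M × M') := fun p =>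
  bsum (E := E × E') (pullback (I := I.prod I') (Prod.fst : M × M' → M) η p)
    (pullback (I := I.prod I') (Prod.snd : M × M' → M') σ p)

/-- The product form is symplectic. -/
def ProdSymplectic (η : Form I M) (σ : Form I' M') : Prop := Symplectic (prodF η σ)

/-- The manifolds `(M × M', η × σ)` and `(N × M', η' × σ')` are deformation equivalent. -/
def ProdDefEquiv {F : Type} [NormedAddCommGroup F] [NormedSpace ℝ F] {G : Type}
    [TopologicalSpace G] {J : ModelWithCorners ℝ F G} {N : Type} [TopologicalSpace N]
    [ChartedSpace G N] (η : Form I M) (η' : Form J N) (σ σ' : Form I' M') : Prop :=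
  DefEquiv (prodF η σ) (prodF η' σ')

/-- The negative of a form. -/
noncomputable def negF (η : Form I M) : Form I M := fun p => bneg (E := E) (η p)

lemma prodF_eq (η : Form I M) (σ : Form I' M') : prodF η σ = prodForm η σ := rfl

lemma negF_eq (η : Form I M) : negF η = -η := rfl

theorem symplectic_iff [FiniteDimensional ℝ E] [I.Boundaryless] {η : Form I M} :
    Symplectic η ↔ IsSymplectic η := by
  constructor
  · intro h
    have hs : ∀ p₀ : M, ContDiffOn ℝ ∞ (inChart η p₀) (extChartAt I p₀).target := by
      intro p₀
      rw [contDiffOn_clm_apply]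
      intro u
      rw [contDiffOn_clm_apply]
      intro v
      exact h.smooth p₀ u v
    refine ⟨h.alternating, h.nondegenerate, hs, ?_⟩
    intro p₀ x hx u v w
    have hd : DifferentiableAt ℝ (inChart η p₀) x :=
      ((hs p₀).contDiffAt ((isOpen_extChartAt_target (I := I) p₀).mem_nhds hx)).differentiableAt
        (by simp)
    have key : ∀ u v w : E, fderiv ℝ (fun y => bval (inChart η p₀ y) v w) x u =
        fderiv ℝ (inChart η p₀) x u v w := by
      intro u v w
      have h1 := (H711R4.hasFDerivAt_coef_gen (inChart η p₀) x hd v w).fderiv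
      exact congrArg (fun (L : E →L[ℝ] ℝ) => L u) h1
    have h2 := h.closed p₀ x hx u v w
    rw [key, key, key] at h2
    exact h2
  · intro h
    refine ⟨h.alternating, h.nondegenerate, ?_, ?_⟩
    · intro p₀ u v
      have h1 := h.smooth p₀
      rw [contDiffOn_clm_apply] at h1
      have h2 := h1 u
      rw [contDiffOn_clm_apply] at h2
      exact h2 v
    · intro p₀ x hx u v w
      have hd : DifferentiableAt ℝ (inChart η p₀) x :=
        ((h.smooth p₀).contDiffAt
          ((isOpen_extChartAt_target (I := I) p₀).mem_nhds hx)).differentiableAt (by simp)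
      have key : ∀ u v w : E, fderiv ℝ (fun y => bval (inChart η p₀ y) v w) x u =
          fderiv ℝ (inChart η p₀) x u v w := by
        intro u v w
        have h1 := (H711R4.hasFDerivAt_coef_gen (inChart η p₀) x hd v w).fderiv
        exact congrArg (fun (L : E →L[ℝ] ℝ) => L u) h1
      rw [key, key, key]
      exact h.closed p₀ x hx u v w

end

end FourSix
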