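import Pool.Agent.H711R4.QMfd

/-!
The symplectic forms `± (ds ∧ dt + dx ∧ dy)` on `X = ℝ⁴ / Γ`.
-/

open scoped Manifold ContDiff
open Set Filter Topology

namespace H711R4

open FourSix

noncomputable def cc (i : Fin 4) : E4 →L[ℝ] ℝ := EuclideanSpace.proj i

lemma cc_apply (i : Fin 4) (u : E4) : cc i u = u i := rfl

/-- the linear symplectic form `ds ∧ dt + dx ∧ dy`. -/
noncomputable def Om0 : E4 →L[ℝ] E4 →L[ℝ] ℝ := gwedge (cc 0) (cc 1) + gwedge (cc 2) (cc 3)

lemma Om0_apply (u v : E4) : Om0 u v = (u 0 * v 1 - v 0 * u 1) + (u 2 * v 3 - v 2 * u 3) := by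
  simp only [Om0, add_apply, gwedge_apply, cc_apply]
  ring

lemma Om0_lp (t : ℤ) (u v : E4) : Om0 (lpL t u) (lpL t v) = Om0 u v := by
  rw [Om0_apply, Om0_apply]
  simp only [lpL_apply, lp_0, lp_1, lp_2, lp_3]
  have h := ar_det t
  linear_combination (u 2 * v 3 - v 2 * u 3) * h

/-- the form `ε (ds ∧ dt + dx ∧ dy)` on the quotient. -/
noncomputable def omX (ε : ℝ) : Form (𝓡 4) XX := fun _ => (ε • Om0 : E4 →L[ℝ] E4 →L[ℝ] ℝ)

lemma omX_apply (ε : ℝ) (q : XX) (u v : E4) :
    (omX ε q : E4 →L[ℝ] E4 →L[ℝ] ℝ) u v = ε * Om0 u v := rfl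

lemma pj_contMDiff : ContMDiff (𝓡 4) (𝓡 4) ∞ pj := by
  intro x
  rw [contMDiffAt_iff_target]
  refine ⟨pj_continuous.continuousAt, ?_⟩
  obtain ⟨g, hg⟩ := local_inv (pj x) x (mem_target (pj x))
  have h1 : ContMDiffAt (𝓡 4) (𝓡 4) ∞ (fun y : E4 => g • y) x :=
    ((contDiff_smul g).of_le (by simp)).contMDiff x
  refine h1.congr_of_eventuallyEq ?_
  refine EventuallyEq.trans ?_ hg
  exact Eventually.of_forall fun y => rfl

lemma pj_mfderiv (x : E4) : ∃ t : ℤ, ∀ u : E4, mfderiv (𝓡 4) (𝓡 4) pj x u = lpL t u := by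
  obtain ⟨g, hg⟩ := local_inv (pj x) x (mem_target (pj x))
  refine ⟨g.t, ?_⟩
  have hmd : MDifferentiableAt (𝓡 4) (𝓡 4) pj x := (pj_contMDiff x).mdifferentiableAt (by simp)
  have h1 : mfderiv (𝓡 4) (𝓡 4) pj x = fderiv ℝ (fun y : E4 => g • y) x := by
    rw [hmd.mfderiv]
    have h2 : writtenInExtChartAt (𝓡 4) (𝓡 4) x pj = fun y => (ech (pj x)).symm (pj y) := rfl
    rw [h2]
    simp only [mfld_simps, fderivWithin_univ]
    exact hg.fderiv_eq
  intro u
  rw [h1, (hasFDerivAt_smul g x).fderiv]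
  rfl

lemma plot_pj (ε : ℝ) (x u v : E4) : plot pj (omX ε) x u v = ε * Om0 u v := by
  obtain ⟨t, ht⟩ := pj_mfderiv x
  have h := plot_apply pj (omX ε) x u v
  have h2 : plot pj (omX ε) x u v = ε * Om0 (lpL t u) (lpL t v) := by
    rw [← ht u, ← ht v]
    exact h
  rw [h2, Om0_lp]

lemma inChart_omX (ε : ℝ) (q : XX) : inChart (omX ε) q = fun _ => ε • Om0 := by
  have h1 : ((extChartAt (𝓡 4) q).symm : E4 → XX) = pj := by
    have : ((extChartAt (𝓡 4) q).symm : E4 → XX) = ech q := by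
      rfl
    rw [this, ech_coe]
  have h2 : inChart (omX ε) q = plot pj (omX ε) := by
    unfold inChart plot
    rw [h1]
  rw [h2]
  funext x
  ext u v
  rw [plot_pj]
  rfl

lemma omX_symplectic (ε : ℝ) (hε : ε ≠ 0) : IsSymplectic (omX ε) := by
  refine ⟨?_, ?_, ?_, ?_⟩
  · intro p v
    have h : (omX ε p : E4 →L[ℝ] E4 →L[ℝ] ℝ) v v = ε * Om0 v v := rfl
    have h2 : Om0 v v = 0 := by rw [Om0_apply]; ring
    rw [h2, mul_zero] at h
    exact h
  · intro p v hv
    have key : ∀ v : E4, v ≠ 0 → ∃ w : E4, ε * Om0 v w ≠ 0 := by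
      intro v hv
      by_contra hcon
      push Not at hcon
      have hz : ∀ w, Om0 v w = 0 := fun w => by
        have := hcon w
        exact (mul_eq_zero.1 this).resolve_left hε
      apply hv
      apply ext4
      · have := hz (WithLp.toLp 2 ![0, 1, 0, 0])
        rw [Om0_apply] at this
        simpa using this
      · have := hz (WithLp.toLp 2 ![1, 0, 0, 0])
        rw [Om0_apply] at this
        simpa using this
      · have := hz (WithLp.toLp 2 ![0, 0, 0, 1])
        rw [Om0_apply] at this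
        simpa using this
      · have := hz (WithLp.toLp 2 ![0, 0, 1, 0])
        rw [Om0_apply] at this
        simpa using this
    exact key v hv
  · intro q
    rw [inChart_omX]
    exact contDiffOn_const
  · intro q x _ u v w
    rw [inChart_omX]
    simp

end H711R4
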