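import Pool.Agent.H711R4.QForm
import Pool.Agent.H711R4.Sph
import Pool.Agent.H711R4.Eval2

/-!
The parametrisation `Q : ℝ⁶ → X × S²`.
-/

open scoped Manifold ContDiff
open Set Filter Topology Real

namespace H711R4

open FourSix

instance factS : Fact (Module.finrank ℝ E3 = 2 + 1) := ⟨finrank_euclideanSpace_fin⟩

/-- the first four coordinates -/
noncomputable def q4 : V →L[ℝ] E4 :=
  LinearMap.toContinuousLinearMap
    { toFun := fun p => WithLp.toLp 2 ![p 0, p 1, p 2, p 3]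
      map_add' := fun p q => by ext i; fin_cases i <;> simp
      map_smul' := fun c p => by ext i; fin_cases i <;> simp }

lemma q4_0 (p : V) : q4 p 0 = p 0 := rfl
lemma q4_1 (p : V) : q4 p 1 = p 1 := rfl
lemma q4_2 (p : V) : q4 p 2 = p 2 := rfl
lemma q4_3 (p : V) : q4 p 3 = p 3 := rfl

/-- the last two coordinates, on the sphere -/
noncomputable def spV (p : V) : E3 := sp (p 4, p 5)

lemma spV_mem (p : V) : spV p ∈ Metric.sphere (0 : E3) 1 := sp_mem _

lemma spV_contDiff : ContDiff ℝ ∞ spV := by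
  rw [contDiff_euclidean]
  intro i
  fin_cases i
  · show ContDiff ℝ ∞ (fun p : V => sin (p 5) * cos (p 4))
    fun_prop
  · show ContDiff ℝ ∞ (fun p : V => sin (p 5) * sin (p 4))
    fun_prop
  · show ContDiff ℝ ∞ (fun p : V => cos (p 5))
    fun_prop

noncomputable def QS : V → S2 := Set.codRestrict spV _ spV_mem

lemma QS_eq (p : V) : QS p = PS (p 4, p 5) := rfl

lemma QS_contMDiff : ContMDiff 𝓘(ℝ, V) (𝓡 2) ∞ QS :=
  spV_contDiff.contMDiff.codRestrict_sphere spV_mem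

/-- the parametrisation of `X × S²` -/
noncomputable def QQ (p : V) : XX × S2 := (pj (q4 p), QS p)

lemma QQ_contMDiff : ContMDiff 𝓘(ℝ, V) ((𝓡 4).prod (𝓡 2)) ∞ QQ :=
  (pj_contMDiff.comp q4.contDiff.contMDiff).prodMk QS_contMDiff

/-- maps on `ℝ⁶` which factor (continuously) through `Q` -/
structure QInv {N : Type} (g : V → N) : Prop where
  per0 : ∀ p, g (p + bv 0) = g p
  per2 : ∀ p, g (p + bv 2) = g p
  per3 : ∀ p, g (p + bv 3) = g p
  per4 : ∀ p, g (p + (2 * π) • bv 4) = g p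
  tw : ∀ p, g (Lc p + bv 1) = g p
  pole : ∀ p : V, (p 5 = 0 ∨ p 5 = π) → ∀ s : ℝ, g (p + s • bv 4) = g p

lemma QInv.comp {N N' : Type} {g : V → N} (h : QInv g) (f : N → N') : QInv (f ∘ g) :=
  ⟨fun p => congrArg f (h.per0 p), fun p => congrArg f (h.per2 p), fun p => congrArg f (h.per3 p),
    fun p => congrArg f (h.per4 p), fun p => congrArg f (h.tw p),
    fun p hp s => congrArg f (h.pole p hp s)⟩

lemma QQ_inv : QInv QQ := by
  have hS : ∀ p p' : V, p 4 = p' 4 → p 5 = p' 5 → QS p = QS p' := by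
    intro p p' h4 h5
    rw [QS_eq, QS_eq, h4, h5]
  have hX : ∀ (g : Gam) (p p' : V), q4 p' = g • q4 p → pj (q4 p') = pj (q4 p) := by
    intro g p p' h
    rw [h, pj_smul]
  refine ⟨?_, ?_, ?_, ?_, ?_, ?_⟩
  · intro p
    refine Prod.ext (hX ⟨1, 0, 0⟩ _ _ ?_) (hS _ _ (by simp [bv]) (by simp [bv]))
    apply ext4
    · rw [smul_0, q4_0, q4_0]; simp [bv]
    · rw [smul_1, q4_1, q4_1]; simp [bv]
    · rw [smul_2, q4_2, q4_2]; simp [bv, ar_zero]
    · rw [smul_3, q4_3, q4_3]; simp [bv, ar_zero]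
  · intro p
    refine Prod.ext (hX ⟨0, 0, Pi.single 0 1⟩ _ _ ?_) (hS _ _ (by simp [bv]) (by simp [bv]))
    apply ext4
    · rw [smul_0, q4_0, q4_0]; simp [bv]
    · rw [smul_1, q4_1, q4_1]; simp [bv]
    · rw [smul_2, q4_2, q4_2]; simp [bv, ar_zero]
    · rw [smul_3, q4_3, q4_3]; simp [bv, ar_zero]
  · intro p
    refine Prod.ext (hX ⟨0, 0, Pi.single 1 1⟩ _ _ ?_) (hS _ _ (by simp [bv]) (by simp [bv]))
    apply ext4
    · rw [smul_0, q4_0, q4_0]; simp [bv]
    · rw [smul_1, q4_1, q4_1]; simp [bv]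
    · rw [smul_2, q4_2, q4_2]; simp [bv, ar_zero]
    · rw [smul_3, q4_3, q4_3]; simp [bv, ar_zero]
  · intro p
    refine Prod.ext ?_ ?_
    · show pj (q4 (p + (2 * π) • bv 4)) = pj (q4 p)
      congr 1
      apply ext4
      · rw [q4_0, q4_0]; simp [bv]
      · rw [q4_1, q4_1]; simp [bv]
      · rw [q4_2, q4_2]; simp [bv]
      · rw [q4_3, q4_3]; simp [bv]
    · show QS (p + (2 * π) • bv 4) = QS p
      rw [QS_eq, QS_eq]
      have h4 : (p + (2 * π) • bv 4) 4 = p 4 + 2 * π := by simp [bv]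
      have h5 : (p + (2 * π) • bv 4) 5 = p 5 := by simp [bv]
      rw [h4, h5, PS_per]
  · intro p
    refine Prod.ext (hX ⟨0, 1, 0⟩ _ _ ?_) (hS _ _ (by simp [bv, Lc_apply]) (by simp [bv, Lc_apply]))
    apply ext4
    · rw [smul_0, q4_0, q4_0]; simp [bv, Lc_apply]
    · rw [smul_1, q4_1, q4_1]; simp [bv, Lc_apply]
    · rw [smul_2, q4_2, q4_2]; simp [bv, Lc_apply, ar, AP_one]; rfl
    · rw [smul_3, q4_3, q4_3]; simp [bv, Lc_apply, ar, AP_one]; rfl
  · intro p hp s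
    refine Prod.ext ?_ ?_
    · show pj (q4 (p + s • bv 4)) = pj (q4 p)
      congr 1
      apply ext4
      · rw [q4_0, q4_0]; simp [bv]
      · rw [q4_1, q4_1]; simp [bv]
      · rw [q4_2, q4_2]; simp [bv]
      · rw [q4_3, q4_3]; simp [bv]
    · show QS (p + s • bv 4) = QS p
      rw [QS_eq, QS_eq]
      have h5 : (p + s • bv 4) 5 = p 5 := by simp [bv]
      rw [h5]
      apply PS_pole
      rcases hp with hp | hp <;> rw [hp]
      · exact sin_zero
      · exact sin_pi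

end H711R4
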