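import Pool.Agent.H711R4.Action
import Pool.Agent.H711R4.Forms2

/-!
The quotient manifold `X = ℝ⁴ / Γ`.
-/

open scoped Manifold ContDiff
open Set Filter Topology

namespace H711R4

/-- the quotient `ℝ⁴ / Γ` -/
abbrev XX : Type := Quotient (MulAction.orbitRel Gam E4)

/-- the quotient map -/
noncomputable def pj : E4 → XX := Quotient.mk (MulAction.orbitRel Gam E4)

lemma pj_cover : IsQuotientCoveringMap pj Gam :=
  isQuotientCoveringMap_quotientMk_of_properlyDiscontinuousSMul

lemma pj_isCoveringMap : IsCoveringMap pj := pj_cover.isCoveringMap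

lemma pj_continuous : Continuous pj := pj_isCoveringMap.continuous

lemma pj_surjective : Function.Surjective pj := pj_cover.surjective

lemma pj_eq_iff {x y : E4} : pj x = pj y ↔ ∃ g : Gam, g • y = x := pj_cover.apply_eq_iff_mem_orbit

lemma pj_smul (g : Gam) (x : E4) : pj (g • x) = pj x := pj_eq_iff.2 ⟨g, rfl⟩

lemma exists_chart (x : E4) : ∃ e : OpenPartialHomeomorph E4 XX, x ∈ e.source ∧ pj = e :=
  pj_isCoveringMap.isLocalHomeomorph x

noncomputable def ech (q : XX) : OpenPartialHomeomorph E4 XX := (exists_chart q.out).choose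

lemma ech_coe (q : XX) : (ech q : E4 → XX) = pj := (exists_chart q.out).choose_spec.2.symm

lemma out_mem (q : XX) : q.out ∈ (ech q).source := (exists_chart q.out).choose_spec.1

lemma mem_target (q : XX) : q ∈ (ech q).target := by
  have h := (ech q).map_source (out_mem q)
  rw [ech_coe] at h
  have h2 : pj q.out = q := Quotient.out_eq q
  rwa [h2] at h

noncomputable instance : ChartedSpace E4 XX where
  atlas := range (fun q => (ech q).symm)
  chartAt q := (ech q).symm
  mem_chart_source q := mem_target q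
  chart_mem_atlas q := ⟨q, rfl⟩

/-- the local inverses of the projection are locally translates. -/
lemma local_inv (q : XX) (x : E4) (hx : pj x ∈ (ech q).target) :
    ∃ g : Gam, (fun y => (ech q).symm (pj y)) =ᶠ[𝓝 x] fun y => g • y := by
  have h1 : pj ((ech q).symm (pj x)) = pj x := by
    have := (ech q).right_inv hx
    rwa [ech_coe] at this
  obtain ⟨g, hg⟩ := pj_eq_iff.1 h1
  refine ⟨g, ?_⟩
  have hsrc : g • x ∈ (ech q).source := by
    rw [hg]
    exact (ech q).map_target hx
  have hopen : IsOpen ((fun y : E4 => g • y) ⁻¹' (ech q).source) :=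
    (ech q).open_source.preimage (contDiff_smul g).continuous
  filter_upwards [hopen.mem_nhds hsrc] with y hy
  show (ech q).symm (pj y) = g • y
  have h2 : pj y = ech q (g • y) := by
    rw [ech_coe, pj_smul]
  rw [h2]
  exact (ech q).left_inv hy

instance : IsManifold (𝓡 4) ∞ XX := by
  refine isManifold_of_contDiffOn (𝓡 4) ∞ XX ?_
  rintro e e' ⟨q, rfl⟩ ⟨q', rfl⟩
  rintro x ⟨hx, -⟩
  have hx1 : x ∈ (ech q).source ∧ pj x ∈ (ech q').target := by
    have h := hx
    simp only [mfld_simps] at h
    rw [ech_coe] at h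
    exact h
  obtain ⟨g, hg⟩ := local_inv q' x hx1.2
  refine ContDiffAt.contDiffWithinAt ?_
  refine ((contDiff_smul g).of_le (by simp)).contDiffAt.congr_of_eventuallyEq ?_
  refine EventuallyEq.trans ?_ hg
  refine Eventually.of_forall fun y => ?_
  simp only [mfld_simps]
  rw [ech_coe]

instance : CompactSpace XX := by
  have hK : IsCompact ((EuclideanSpace.equiv (Fin 4) ℝ).symm '' (Icc (0 : Fin 4 → ℝ) 1)) :=
    isCompact_Icc.image (EuclideanSpace.equiv (Fin 4) ℝ).symm.continuous
  refine ⟨?_⟩
  have : (univ : Set XX) = pj '' ((EuclideanSpace.equiv (Fin 4) ℝ).symm '' (Icc (0 : Fin 4 → ℝ) 1)) := by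
    refine (eq_univ_of_forall fun q => ?_).symm
    obtain ⟨x, rfl⟩ := pj_surjective q
    set g1 : Gam := ⟨-⌊x 0⌋, -⌊x 1⌋, 0⟩ with hg1
    set y := g1 • x with hy
    set g2 : Gam := ⟨0, 0, fun i => if i = 0 then -⌊y 2⌋ else -⌊y 3⌋⟩ with hg2
    refine ⟨g2 • y, ⟨fun i => (g2 • y) i, ⟨?_, ?_⟩, ?_⟩, ?_⟩
    · intro i
      fin_cases i
      · show (0 : ℝ) ≤ (g2 • y) 0
        rw [smul_0, hy, smul_0]
        simp [hg2, hg1, Int.floor_le]
      · show (0 : ℝ) ≤ (g2 • y) 1
        rw [smul_1, hy, smul_1]
        simp [hg2, hg1, Int.floor_le]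
      · show (0 : ℝ) ≤ (g2 • y) 2
        rw [smul_2]
        simp [hg2, ar_zero, Int.floor_le]
      · show (0 : ℝ) ≤ (g2 • y) 3
        rw [smul_3]
        simp [hg2, ar_zero, Int.floor_le]
    · intro i
      fin_cases i
      · show (g2 • y) 0 ≤ 1
        rw [smul_0, hy, smul_0]
        simp only [hg2, hg1, Int.cast_neg, Int.cast_zero, add_zero]
        linarith [Int.lt_floor_add_one (x 0)]
      · show (g2 • y) 1 ≤ 1
        rw [smul_1, hy, smul_1]
        simp only [hg2, hg1, Int.cast_neg, Int.cast_zero, add_zero]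
        linarith [Int.lt_floor_add_one (x 1)]
      · show (g2 • y) 2 ≤ 1
        rw [smul_2]
        simp [hg2, ar_zero]
        linarith [Int.lt_floor_add_one (y 2)]
      · show (g2 • y) 3 ≤ 1
        rw [smul_3]
        simp [hg2, ar_zero]
        linarith [Int.lt_floor_add_one (y 3)]
    · rfl
    · rw [pj_smul, hy, pj_smul]
  rw [this]
  exact hK.image pj_continuous

instance : SecondCountableTopology XX := ContinuousConstSMul.secondCountableTopology

instance : ConnectedSpace XX := pj_surjective.connectedSpace pj_continuous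

example : T2Space XX := inferInstance

end H711R4
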