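import Pool.Agent.H711R4.Alt2

/-!
The divergence identity `d(h ∧ b ∧ c) = dh ∧ b ∧ c` for closed `b`, `c` in `ℝ⁶`.
-/

namespace H711R4

open Finset MeasureTheory Set

abbrev Lin : Type := V →L[ℝ] ℝ

/-- exterior derivative of a one-form. -/
noncomputable def d1 (h : V → Lin) (p : V) : Bil := fderiv ℝ h p - (fderiv ℝ h p).flip

lemma d1_apply (h : V → Lin) (p u v : V) :
    d1 h p u v = fderiv ℝ h p u v - fderiv ℝ h p v u := by
  simp [d1]

def Closed2 (b : V → Bil) : Prop :=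
  ∀ p u v w, fderiv ℝ b p u v w + fderiv ℝ b p v w u + fderiv ℝ b p w u v = 0

def Skew (b : V → Bil) : Prop := ∀ p u v, b p u v = - b p v u

noncomputable def pr (i : Fin 6) : Lin := ContinuousLinearMap.proj i

lemma pr_bv (i j : Fin 6) : pr i (bv j) = if j = i then 1 else 0 := by
  simp [pr, bv, Pi.single_apply, eq_comm]

lemma U_apply (z h : Lin) (b c : Bil) : U z h b c =
    ∑ σ : Equiv.Perm (Fin 6), ((Equiv.Perm.sign σ : ℤ) : ℝ) *
      (z (bv (σ 0)) * h (bv (σ 1)) * b (bv (σ 2)) (bv (σ 3)) * c (bv (σ 4)) (bv (σ 5))) := by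
  rw [U, UA_apply]

lemma T_apply (a b c : Bil) : T a b c =
    ∑ σ : Equiv.Perm (Fin 6), ((Equiv.Perm.sign σ : ℤ) : ℝ) *
      (a (bv (σ 0)) (bv (σ 1)) * b (bv (σ 2)) (bv (σ 3)) * c (bv (σ 4)) (bv (σ 5))) := by
  rw [T, TA_apply]

/-- derivative of `U z (h p) (b p) (c p)`. -/
noncomputable def dU (z : Lin) (h : V → Lin) (b c : V → Bil) (p : V) : Lin :=
  ∑ σ : Equiv.Perm (Fin 6), (((Equiv.Perm.sign σ : ℤ) : ℝ) * z (bv (σ 0))) •
    ((h p (bv (σ 1)) * b p (bv (σ 2)) (bv (σ 3))) •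
        ((ContinuousLinearMap.apply ℝ ℝ (bv (σ 5))).comp
          ((ContinuousLinearMap.apply ℝ (V →L[ℝ] ℝ) (bv (σ 4))).comp (fderiv ℝ c p))) +
      (c p (bv (σ 4)) (bv (σ 5))) • (h p (bv (σ 1)) •
        ((ContinuousLinearMap.apply ℝ ℝ (bv (σ 3))).comp
          ((ContinuousLinearMap.apply ℝ (V →L[ℝ] ℝ) (bv (σ 2))).comp (fderiv ℝ b p))) +
        b p (bv (σ 2)) (bv (σ 3)) •
        ((ContinuousLinearMap.apply ℝ ℝ (bv (σ 1))).comp (fderiv ℝ h p))))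

lemma hasFDerivAt_coef (b : V → Bil) (p : V) (hb : DifferentiableAt ℝ b p) (x y : V) :
    HasFDerivAt (fun p => b p x y) ((ContinuousLinearMap.apply ℝ ℝ y).comp
          ((ContinuousLinearMap.apply ℝ (V →L[ℝ] ℝ) x).comp (fderiv ℝ b p))) p := by
  have h0 : HasFDerivAt (fun p => b p x)
      ((ContinuousLinearMap.apply ℝ (V →L[ℝ] ℝ) x).comp (fderiv ℝ b p)) p := by
    have h := hb.hasFDerivAt.clm_apply (hasFDerivAt_const x p)
    refine h.congr_fderiv ?_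
    ext u v
    simp
  exact (ContinuousLinearMap.apply ℝ ℝ y).hasFDerivAt.comp p h0

lemma hasFDerivAt_U (z : Lin) (h : V → Lin) (b c : V → Bil) (p : V)
    (hh : DifferentiableAt ℝ h p) (hb : DifferentiableAt ℝ b p) (hc : DifferentiableAt ℝ c p) :
    HasFDerivAt (fun p => U z (h p) (b p) (c p)) (dU z h b c p) p := by
  have e : (fun p => U z (h p) (b p) (c p)) = fun p =>
      ∑ σ : Equiv.Perm (Fin 6), (((Equiv.Perm.sign σ : ℤ) : ℝ) * z (bv (σ 0))) *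
      (h p (bv (σ 1)) * b p (bv (σ 2)) (bv (σ 3)) * c p (bv (σ 4)) (bv (σ 5))) := by
    funext p
    rw [U_apply]
    refine Finset.sum_congr rfl fun σ _ => ?_
    ring
  rw [e]
  unfold dU
  refine HasFDerivAt.fun_sum fun σ _ => ?_
  refine HasFDerivAt.const_mul ?_ _
  have h1 : HasFDerivAt (fun p => h p (bv (σ 1)))
      ((ContinuousLinearMap.apply ℝ ℝ (bv (σ 1))).comp (fderiv ℝ h p)) p :=
    (ContinuousLinearMap.apply ℝ ℝ (bv (σ 1))).hasFDerivAt.comp p hh.hasFDerivAt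
  have h2 : HasFDerivAt (fun p => b p (bv (σ 2)) (bv (σ 3)))
      ((ContinuousLinearMap.apply ℝ ℝ (bv (σ 3))).comp
          ((ContinuousLinearMap.apply ℝ (V →L[ℝ] ℝ) (bv (σ 2))).comp (fderiv ℝ b p))) p :=
    hasFDerivAt_coef b p hb _ _
  have h3 : HasFDerivAt (fun p => c p (bv (σ 4)) (bv (σ 5)))
      ((ContinuousLinearMap.apply ℝ ℝ (bv (σ 5))).comp
          ((ContinuousLinearMap.apply ℝ (V →L[ℝ] ℝ) (bv (σ 4))).comp (fderiv ℝ c p))) p :=
    hasFDerivAt_coef c p hc _ _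
  exact (h1.mul h2).mul h3

/-- the divergence identity. -/
lemma div_eq (h : V → Lin) (b c : V → Bil) (hb : Closed2 b) (hc : Closed2 c) (p : V) :
    2 * ∑ i : Fin 6, dU (pr i) h b c p (bv i) = T (d1 h p) (b p) (c p) := by
  have e1 : ∑ i : Fin 6, dU (pr i) h b c p (bv i) =
      ∑ σ : Equiv.Perm (Fin 6), ((Equiv.Perm.sign σ : ℤ) : ℝ) *
        (h p (bv (σ 1)) * b p (bv (σ 2)) (bv (σ 3)) *
            fderiv ℝ c p (bv (σ 0)) (bv (σ 4)) (bv (σ 5)) +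
          c p (bv (σ 4)) (bv (σ 5)) * (h p (bv (σ 1)) *
            fderiv ℝ b p (bv (σ 0)) (bv (σ 2)) (bv (σ 3)) +
            b p (bv (σ 2)) (bv (σ 3)) * fderiv ℝ h p (bv (σ 0)) (bv (σ 1)))) := by
    have : ∀ i : Fin 6, dU (pr i) h b c p (bv i) =
      ∑ σ : Equiv.Perm (Fin 6), if σ 0 = i then ((Equiv.Perm.sign σ : ℤ) : ℝ) *
        (h p (bv (σ 1)) * b p (bv (σ 2)) (bv (σ 3)) *
            fderiv ℝ c p (bv (σ 0)) (bv (σ 4)) (bv (σ 5)) +
          c p (bv (σ 4)) (bv (σ 5)) * (h p (bv (σ 1)) *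
            fderiv ℝ b p (bv (σ 0)) (bv (σ 2)) (bv (σ 3)) +
            b p (bv (σ 2)) (bv (σ 3)) * fderiv ℝ h p (bv (σ 0)) (bv (σ 1)))) else 0 := by
      intro i
      unfold dU
      rw [_root_.sum_apply]
      refine Finset.sum_congr rfl fun σ _ => ?_
      rw [pr_bv]
      by_cases hi : σ 0 = i
      · rw [if_pos hi, if_pos hi, hi]
        simp only [smul_apply, add_apply, smul_eq_mul, mul_one,
          ContinuousLinearMap.coe_comp, Function.comp_apply, ContinuousLinearMap.apply_apply]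
      · rw [if_neg hi, if_neg hi]
        simp
    simp_rw [this]
    rw [Finset.sum_comm]
    refine Finset.sum_congr rfl fun σ _ => ?_
    simp
  -- the three pieces
  set S1 := ∑ σ : Equiv.Perm (Fin 6), ((Equiv.Perm.sign σ : ℤ) : ℝ) *
      (fderiv ℝ h p (bv (σ 0)) (bv (σ 1)) * b p (bv (σ 2)) (bv (σ 3)) *
        c p (bv (σ 4)) (bv (σ 5))) with hS1
  set S2 := ∑ σ : Equiv.Perm (Fin 6), ((Equiv.Perm.sign σ : ℤ) : ℝ) *
      (h p (bv (σ 1)) * fderiv ℝ b p (bv (σ 0)) (bv (σ 2)) (bv (σ 3)) *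
        c p (bv (σ 4)) (bv (σ 5))) with hS2
  set S3 := ∑ σ : Equiv.Perm (Fin 6), ((Equiv.Perm.sign σ : ℤ) : ℝ) *
      (h p (bv (σ 1)) * b p (bv (σ 2)) (bv (σ 3)) *
        fderiv ℝ c p (bv (σ 0)) (bv (σ 4)) (bv (σ 5))) with hS3
  have e2 : ∑ i : Fin 6, dU (pr i) h b c p (bv i) = S1 + S2 + S3 := by
    rw [e1, hS1, hS2, hS3, ← Finset.sum_add_distrib, ← Finset.sum_add_distrib]
    refine Finset.sum_congr rfl fun σ _ => ?_
    ring
  have hS2z : S2 = 0 := by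
    have r1 := sum_perm_reindex (Equiv.swap 0 2 * Equiv.swap 2 3)
      (fun f => h p (bv (f 1)) * fderiv ℝ b p (bv (f 0)) (bv (f 2)) (bv (f 3)) *
        c p (bv (f 4)) (bv (f 5)))
    have r2 := sum_perm_reindex (Equiv.swap 2 3 * Equiv.swap 0 2)
      (fun f => h p (bv (f 1)) * fderiv ℝ b p (bv (f 0)) (bv (f 2)) (bv (f 3)) *
        c p (bv (f 4)) (bv (f 5)))
    have s1 : Equiv.Perm.sign ((Equiv.swap 0 2 * Equiv.swap 2 3 : Equiv.Perm (Fin 6))) = 1 := by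
      decide
    have s2 : Equiv.Perm.sign ((Equiv.swap 2 3 * Equiv.swap 0 2 : Equiv.Perm (Fin 6))) = 1 := by
      decide
    rw [s1] at r1
    rw [s2] at r2
    have a0 : (Equiv.swap 0 2 * Equiv.swap 2 3 : Equiv.Perm (Fin 6)) 0 = 2 := by decide
    have a1 : (Equiv.swap 0 2 * Equiv.swap 2 3 : Equiv.Perm (Fin 6)) 1 = 1 := by decide
    have a2 : (Equiv.swap 0 2 * Equiv.swap 2 3 : Equiv.Perm (Fin 6)) 2 = 3 := by decide
    have a3 : (Equiv.swap 0 2 * Equiv.swap 2 3 : Equiv.Perm (Fin 6)) 3 = 0 := by decide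
    have a4 : (Equiv.swap 0 2 * Equiv.swap 2 3 : Equiv.Perm (Fin 6)) 4 = 4 := by decide
    have a5 : (Equiv.swap 0 2 * Equiv.swap 2 3 : Equiv.Perm (Fin 6)) 5 = 5 := by decide
    have b0 : (Equiv.swap 2 3 * Equiv.swap 0 2 : Equiv.Perm (Fin 6)) 0 = 3 := by decide
    have b1 : (Equiv.swap 2 3 * Equiv.swap 0 2 : Equiv.Perm (Fin 6)) 1 = 1 := by decide
    have b2 : (Equiv.swap 2 3 * Equiv.swap 0 2 : Equiv.Perm (Fin 6)) 2 = 0 := by decide
    have b3 : (Equiv.swap 2 3 * Equiv.swap 0 2 : Equiv.Perm (Fin 6)) 3 = 2 := by decide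
    have b4 : (Equiv.swap 2 3 * Equiv.swap 0 2 : Equiv.Perm (Fin 6)) 4 = 4 := by decide
    have b5 : (Equiv.swap 2 3 * Equiv.swap 0 2 : Equiv.Perm (Fin 6)) 5 = 5 := by decide
    simp only [a0, a1, a2, a3, a4, a5, Units.val_one, Int.cast_one, one_mul] at r1
    simp only [b0, b1, b2, b3, b4, b5, Units.val_one, Int.cast_one, one_mul] at r2
    have h3 : 3 * S2 = 0 := by
      calc 3 * S2 = S2 + S2 + S2 := by ring
        _ = S2 + (∑ σ : Equiv.Perm (Fin 6), ((Equiv.Perm.sign σ : ℤ) : ℝ) *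
            (h p (bv (σ 1)) * fderiv ℝ b p (bv (σ 2)) (bv (σ 3)) (bv (σ 0)) *
              c p (bv (σ 4)) (bv (σ 5)))) +
            (∑ σ : Equiv.Perm (Fin 6), ((Equiv.Perm.sign σ : ℤ) : ℝ) *
            (h p (bv (σ 1)) * fderiv ℝ b p (bv (σ 3)) (bv (σ 0)) (bv (σ 2)) *
              c p (bv (σ 4)) (bv (σ 5)))) := by
            rw [← r1, ← r2]
        _ = 0 := by
            rw [hS2, ← Finset.sum_add_distrib, ← Finset.sum_add_distrib]
            refine Finset.sum_eq_zero fun σ _ => ?_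
            have := hb p (bv (σ 0)) (bv (σ 2)) (bv (σ 3))
            linear_combination (((Equiv.Perm.sign σ : ℤ) : ℝ) * h p (bv (σ 1)) *
              c p (bv (σ 4)) (bv (σ 5))) * this
    linarith
  have hS3z : S3 = 0 := by
    have r1 := sum_perm_reindex (Equiv.swap 0 4 * Equiv.swap 4 5)
      (fun f => h p (bv (f 1)) * b p (bv (f 2)) (bv (f 3)) *
        fderiv ℝ c p (bv (f 0)) (bv (f 4)) (bv (f 5)))
    have r2 := sum_perm_reindex (Equiv.swap 4 5 * Equiv.swap 0 4)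
      (fun f => h p (bv (f 1)) * b p (bv (f 2)) (bv (f 3)) *
        fderiv ℝ c p (bv (f 0)) (bv (f 4)) (bv (f 5)))
    have s1 : Equiv.Perm.sign ((Equiv.swap 0 4 * Equiv.swap 4 5 : Equiv.Perm (Fin 6))) = 1 := by
      decide
    have s2 : Equiv.Perm.sign ((Equiv.swap 4 5 * Equiv.swap 0 4 : Equiv.Perm (Fin 6))) = 1 := by
      decide
    rw [s1] at r1
    rw [s2] at r2
    have a0 : (Equiv.swap 0 4 * Equiv.swap 4 5 : Equiv.Perm (Fin 6)) 0 = 4 := by decide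
    have a1 : (Equiv.swap 0 4 * Equiv.swap 4 5 : Equiv.Perm (Fin 6)) 1 = 1 := by decide
    have a2 : (Equiv.swap 0 4 * Equiv.swap 4 5 : Equiv.Perm (Fin 6)) 2 = 2 := by decide
    have a3 : (Equiv.swap 0 4 * Equiv.swap 4 5 : Equiv.Perm (Fin 6)) 3 = 3 := by decide
    have a4 : (Equiv.swap 0 4 * Equiv.swap 4 5 : Equiv.Perm (Fin 6)) 4 = 5 := by decide
    have a5 : (Equiv.swap 0 4 * Equiv.swap 4 5 : Equiv.Perm (Fin 6)) 5 = 0 := by decide
    have b0 : (Equiv.swap 4 5 * Equiv.swap 0 4 : Equiv.Perm (Fin 6)) 0 = 5 := by decide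
    have b1 : (Equiv.swap 4 5 * Equiv.swap 0 4 : Equiv.Perm (Fin 6)) 1 = 1 := by decide
    have b2 : (Equiv.swap 4 5 * Equiv.swap 0 4 : Equiv.Perm (Fin 6)) 2 = 2 := by decide
    have b3 : (Equiv.swap 4 5 * Equiv.swap 0 4 : Equiv.Perm (Fin 6)) 3 = 3 := by decide
    have b4 : (Equiv.swap 4 5 * Equiv.swap 0 4 : Equiv.Perm (Fin 6)) 4 = 0 := by decide
    have b5 : (Equiv.swap 4 5 * Equiv.swap 0 4 : Equiv.Perm (Fin 6)) 5 = 4 := by decide
    simp only [a0, a1, a2, a3, a4, a5, Units.val_one, Int.cast_one, one_mul] at r1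
    simp only [b0, b1, b2, b3, b4, b5, Units.val_one, Int.cast_one, one_mul] at r2
    have h3 : 3 * S3 = 0 := by
      calc 3 * S3 = S3 + S3 + S3 := by ring
        _ = S3 + (∑ σ : Equiv.Perm (Fin 6), ((Equiv.Perm.sign σ : ℤ) : ℝ) *
            (h p (bv (σ 1)) * b p (bv (σ 2)) (bv (σ 3)) *
              fderiv ℝ c p (bv (σ 4)) (bv (σ 5)) (bv (σ 0)))) +
            (∑ σ : Equiv.Perm (Fin 6), ((Equiv.Perm.sign σ : ℤ) : ℝ) *
            (h p (bv (σ 1)) * b p (bv (σ 2)) (bv (σ 3)) *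
              fderiv ℝ c p (bv (σ 5)) (bv (σ 0)) (bv (σ 4)))) := by
            rw [← r1, ← r2]
        _ = 0 := by
            rw [hS3, ← Finset.sum_add_distrib, ← Finset.sum_add_distrib]
            refine Finset.sum_eq_zero fun σ _ => ?_
            have := hc p (bv (σ 0)) (bv (σ 4)) (bv (σ 5))
            linear_combination (((Equiv.Perm.sign σ : ℤ) : ℝ) * h p (bv (σ 1)) *
              b p (bv (σ 2)) (bv (σ 3))) * this
    linarith
  have hT : T (d1 h p) (b p) (c p) = 2 * S1 := by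
    rw [T_apply]
    have r1 := sum_perm_reindex (Equiv.swap 0 1)
      (fun f => fderiv ℝ h p (bv (f 0)) (bv (f 1)) * b p (bv (f 2)) (bv (f 3)) *
        c p (bv (f 4)) (bv (f 5)))
    have s1 : Equiv.Perm.sign ((Equiv.swap 0 1 : Equiv.Perm (Fin 6))) = -1 := by
      decide
    rw [s1] at r1
    have a0 : (Equiv.swap 0 1 : Equiv.Perm (Fin 6)) 0 = 1 := by decide
    have a1 : (Equiv.swap 0 1 : Equiv.Perm (Fin 6)) 1 = 0 := by decide
    have a2 : (Equiv.swap 0 1 : Equiv.Perm (Fin 6)) 2 = 2 := by decide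
    have a3 : (Equiv.swap 0 1 : Equiv.Perm (Fin 6)) 3 = 3 := by decide
    have a4 : (Equiv.swap 0 1 : Equiv.Perm (Fin 6)) 4 = 4 := by decide
    have a5 : (Equiv.swap 0 1 : Equiv.Perm (Fin 6)) 5 = 5 := by decide
    simp only [a0, a1, a2, a3, a4, a5] at r1
    have : ∑ σ : Equiv.Perm (Fin 6), ((Equiv.Perm.sign σ : ℤ) : ℝ) *
      ((d1 h p) (bv (σ 0)) (bv (σ 1)) * b p (bv (σ 2)) (bv (σ 3)) * c p (bv (σ 4)) (bv (σ 5))) =
      S1 - ∑ σ : Equiv.Perm (Fin 6), ((Equiv.Perm.sign σ : ℤ) : ℝ) *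
      (fderiv ℝ h p (bv (σ 1)) (bv (σ 0)) * b p (bv (σ 2)) (bv (σ 3)) *
        c p (bv (σ 4)) (bv (σ 5))) := by
      rw [hS1, ← Finset.sum_sub_distrib]
      refine Finset.sum_congr rfl fun σ _ => ?_
      rw [d1_apply]
      ring
    rw [this]
    push_cast at r1
    linarith
  rw [e2, hS2z, hS3z, hT]
  ring

end H711R4
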