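import Pool.Agent.H711R4.Box

/-!
Stokes' theorem on `S¹ × Y × S²` in the coordinates `(s, t, x, y, θ, φ)`.
-/

namespace H711R4

open Finset MeasureTheory Set Real

/-- the matrix of the gluing map `id × id × A × id × id`, `A = [[3,10],[5,17]]`. -/
def LM : Matrix (Fin 6) (Fin 6) ℝ :=
  !![1, 0, 0, 0, 0, 0; 0, 1, 0, 0, 0, 0; 0, 0, 3, 10, 0, 0; 0, 0, 5, 17, 0, 0;
     0, 0, 0, 0, 1, 0; 0, 0, 0, 0, 0, 1]

noncomputable def Lc : V →L[ℝ] V := LinearMap.toContinuousLinearMap (Matrix.toLin' LM)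

lemma Lc_apply (p : V) : Lc p = ![p 0, p 1, 3 * p 2 + 10 * p 3, 5 * p 2 + 17 * p 3, p 4, p 5] := by
  funext i
  simp only [Lc, LinearMap.coe_toContinuousLinearMap', Matrix.toLin'_apply]
  fin_cases i <;> simp [LM, Matrix.mulVec, dotProduct, Fin.sum_univ_six]

lemma det_LM : LM.det = 1 := by
  simp [LM, Matrix.det_succ_row_zero, Fin.sum_univ_succ, Fin.succAbove]
  norm_num

lemma det_Lc : LinearMap.det (Lc : V →ₗ[ℝ] V) = 1 := by
  have : (Lc : V →ₗ[ℝ] V) = Matrix.toLin' LM := by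
    rfl
  rw [this, LinearMap.det_toLin', det_LM]

structure Inv1 (h : V → Lin) : Prop where
  per0 : ∀ p, h (p + bv 0) = h p
  per2 : ∀ p, h (p + bv 2) = h p
  per3 : ∀ p, h (p + bv 3) = h p
  per4 : ∀ p, h (p + (2 * π) • bv 4) = h p
  tw : ∀ p v, h (Lc p + bv 1) (Lc v) = h p v
  pole : ∀ p : V, (p 5 = 0 ∨ p 5 = π) → h p (bv 4) = 0

structure Inv2 (b : V → Bil) : Prop where
  per0 : ∀ p, b (p + bv 0) = b p
  per2 : ∀ p, b (p + bv 2) = b p
  per3 : ∀ p, b (p + bv 3) = b p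
  per4 : ∀ p, b (p + (2 * π) • bv 4) = b p
  tw : ∀ p u v, b (Lc p + bv 1) (Lc u) (Lc v) = b p u v
  pole : ∀ p : V, (p 5 = 0 ∨ p 5 = π) → ∀ v, b p (bv 4) v = 0

/-- the upper corner of the fundamental box. -/
noncomputable def hi : V := ![1, 1, 1, 1, 2 * π, π]

lemma hi_nonneg : (0 : V) ≤ hi := by
  intro i
  have := Real.pi_pos
  fin_cases i <;> simp [hi, this.le]

/-- vanishing of the flux through the poles. -/
lemma U_pole (h : Lin) (b c : Bil) (hh : h (bv 4) = 0) (hb : ∀ v, b (bv 4) v = 0)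
    (hb' : ∀ v, b v (bv 4) = 0) (hc : ∀ v, c (bv 4) v = 0) (hc' : ∀ v, c v (bv 4) = 0) :
    U (pr 5) h b c = 0 := by
  rw [U_apply]
  refine Finset.sum_eq_zero fun σ _ => ?_
  by_cases h0 : σ 0 = 5
  · obtain ⟨k, hk⟩ := σ.surjective 4
    have hk0 : k ≠ 0 := by
      rintro rfl
      rw [h0] at hk
      exact absurd hk (by decide)
    fin_cases k
    · exact absurd rfl hk0
    · have : σ 1 = 4 := hk
      rw [this, hh]; ring
    · have : σ 2 = 4 := hk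
      rw [this, hb]; ring
    · have : σ 3 = 4 := hk
      rw [this, hb']; ring
    · have : σ 4 = 4 := hk
      rw [this, hc]; ring
    · have : σ 5 = 4 := hk
      rw [this, hc']; ring
  · rw [pr_bv, if_neg h0]
    ring

/-- invariance of the flux through the slices `t = const`. -/
lemma U_tw (h h' : Lin) (b b' c c' : Bil) (hh : ∀ v, h' (Lc v) = h v)
    (hb : ∀ u v, b' (Lc u) (Lc v) = b u v) (hc : ∀ u v, c' (Lc u) (Lc v) = c u v) :
    U (pr 1) h' b' c' = U (pr 1) h b c := by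
  have h1 := alt_comp (UA (pr 1) h' b' c') (Lc : V →ₗ[ℝ] V)
  rw [det_Lc, mul_one] at h1
  have h2 : UA (pr 1) h' b' c' (fun i => (Lc : V →ₗ[ℝ] V) (bv i)) = U (pr 1) h b c := by
    rw [UA_apply, U_apply]
    refine Finset.sum_congr rfl fun σ _ => ?_
    have e1 : pr 1 ((Lc : V →ₗ[ℝ] V) (bv (σ 0))) = pr 1 (bv (σ 0)) := by
      have : (Lc : V →ₗ[ℝ] V) (bv (σ 0)) = Lc (bv (σ 0)) := rfl
      rw [this, Lc_apply]
      simp [pr]
    rw [e1]
    have e2 : ∀ i, (Lc : V →ₗ[ℝ] V) (bv i) = Lc (bv i) := fun i => rfl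
    simp only [e2]
    rw [hh, hb, hc]
  rw [← h2, h1]
  rfl

end H711R4
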