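import Pool.Agent.H711R4.Stokes6

/-!
Stokes' theorem on `S¹ × Y × S²` in the coordinates `(s, t, x, y, θ, φ)`, conclusion.
-/

namespace H711R4

open Finset MeasureTheory Set Real

lemma per_nat {n : ℕ} (G : (Fin n → ℝ) → ℝ) (e : Fin n → ℝ) (h : ∀ x, G (x + e) = G x) (m : ℕ)
    (x : Fin n → ℝ) : G (x + (m : ℝ) • e) = G x := by
  induction m with
  | zero => simp
  | succ k ih =>
    have : x + ((k + 1 : ℕ) : ℝ) • e = (x + (k : ℝ) • e) + e := by
      push_cast
      rw [add_smul, one_smul, add_assoc]
    rw [this, h, ih]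

abbrev f1 : Fin 5 → ℝ := Pi.single 1 1
abbrev f2 : Fin 5 → ℝ := Pi.single 2 1

/-- invariance under the gluing map of the integral over the slice. -/
lemma slice_int (G : (Fin 5 → ℝ) → ℝ) (hG : Continuous G) (h1 : ∀ x, G (x + f1) = G x)
    (h2 : ∀ x, G (x + f2) = G x) (b : Fin 5 → ℝ) (hb : 0 ≤ b) (hb1 : b 1 = 1) (hb2 : b 2 = 1) :
    ∫ x in Icc 0 b, G ![x 0, 3 * x 1 + 10 * x 2, 5 * x 1 + 17 * x 2, x 3, x 4] =
      ∫ x in Icc 0 b, G x := by
  have hper : ∀ (m k : ℕ) x, G (x + (m : ℝ) • f1 + (k : ℝ) • f2) = G x := by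
    intro m k x
    rw [per_nat G f2 h2, per_nat G f1 h1]
  -- the shears
  set S1 : (Fin 5 → ℝ) → (Fin 5 → ℝ) := fun x => x + (3 * x 2) • f1 with hS1
  set S2 : (Fin 5 → ℝ) → (Fin 5 → ℝ) := fun x => x + (2 * x 1) • f2 with hS2
  set S3 : (Fin 5 → ℝ) → (Fin 5 → ℝ) := fun x => x + (x 2) • f1 with hS3
  set S4 : (Fin 5 → ℝ) → (Fin 5 → ℝ) := fun x => x + (x 1) • f2 with hS4
  have c1 : Continuous S1 := by fun_prop
  have c2 : Continuous S2 := by fun_prop
  have c3 : Continuous S3 := by fun_prop
  have c4 : Continuous S4 := by fun_prop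
  have hins1 : ∀ (u : ℝ) (y : Fin 4 → ℝ), (Fin.insertNth 1 u y : Fin 5 → ℝ) 2 =
      (Fin.insertNth 1 0 y : Fin 5 → ℝ) 2 := by
    intro u y
    have : (2 : Fin 5) = Fin.succAbove 1 (1 : Fin 4) := by decide
    rw [this, Fin.insertNth_apply_succAbove, Fin.insertNth_apply_succAbove]
  have hins2 : ∀ (u : ℝ) (y : Fin 4 → ℝ), (Fin.insertNth 2 u y : Fin 5 → ℝ) 1 =
      (Fin.insertNth 2 0 y : Fin 5 → ℝ) 1 := by
    intro u y
    have : (1 : Fin 5) = Fin.succAbove 2 (1 : Fin 4) := by decide
    rw [this, Fin.insertNth_apply_succAbove, Fin.insertNth_apply_succAbove]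
  have step4 : ∫ x in Icc 0 b, G (S4 x) = ∫ x in Icc 0 b, G x := by
    refine shear_int 2 0 b hb (by simp [hb2]) G hG h2 (fun x => x 1) (by fun_prop) ?_
    intro u y
    exact hins2 u y
  have step3 : ∫ x in Icc 0 b, G (S4 (S3 x)) = ∫ x in Icc 0 b, G (S4 x) := by
    refine shear_int 1 0 b hb (by simp [hb1]) (fun x => G (S4 x)) (hG.comp c4) ?_
      (fun x => x 2) (by fun_prop) ?_
    · intro x
      have : S4 (x + Pi.single 1 1) = S4 x + ((1 : ℕ) : ℝ) • f1 + ((1 : ℕ) : ℝ) • f2 := by
        rw [hS4]
        funext i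
        fin_cases i <;> simp <;> ring
      simp only [this]
      rw [hper]
    · intro u y
      exact hins1 u y
  have step2 : ∫ x in Icc 0 b, G (S4 (S3 (S2 x))) = ∫ x in Icc 0 b, G (S4 (S3 x)) := by
    refine shear_int 2 0 b hb (by simp [hb2]) (fun x => G (S4 (S3 x))) (hG.comp (c4.comp c3)) ?_
      (fun x => 2 * x 1) (by fun_prop) ?_
    · intro x
      have : S4 (S3 (x + Pi.single 2 1)) =
          S4 (S3 x) + ((1 : ℕ) : ℝ) • f1 + ((2 : ℕ) : ℝ) • f2 := by
        rw [hS4, hS3]
        funext i
        fin_cases i <;> simp <;> ring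
      simp only [this]
      rw [hper]
    · intro u y
      rw [hins2 u y]
  have step1 : ∫ x in Icc 0 b, G (S4 (S3 (S2 (S1 x)))) = ∫ x in Icc 0 b, G (S4 (S3 (S2 x))) := by
    refine shear_int 1 0 b hb (by simp [hb1]) (fun x => G (S4 (S3 (S2 x))))
      (hG.comp (c4.comp (c3.comp c2))) ?_
      (fun x => 3 * x 2) (by fun_prop) ?_
    · intro x
      have : S4 (S3 (S2 (x + Pi.single 1 1))) =
          S4 (S3 (S2 x)) + ((3 : ℕ) : ℝ) • f1 + ((5 : ℕ) : ℝ) • f2 := by
        rw [hS4, hS3, hS2]
        funext i
        fin_cases i <;> simp <;> ring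
      simp only [this]
      rw [hper]
    · intro u y
      rw [hins1 u y]
  rw [← step4, ← step3, ← step2, ← step1]
  refine setIntegral_congr_fun measurableSet_Icc fun x _ => ?_
  congr 1
  rw [hS4, hS3, hS2, hS1]
  funext i
  fin_cases i <;> simp <;> ring

/-- **Stokes' theorem** for admissible one-forms. -/
theorem stokes (h : V → Lin) (b c : V → Bil) (hh : ContDiff ℝ 1 h) (hb : ContDiff ℝ 1 b)
    (hc : ContDiff ℝ 1 c) (ih : Inv1 h) (ib : Inv2 b) (ic : Inv2 c) (sb : Skew b) (sc : Skew c)
    (cb : Closed2 b) (cc : Closed2 c) :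
    ∫ p in Icc 0 hi, T (d1 h p) (b p) (c p) = 0 := by
  set f : Fin 6 → V → ℝ := fun i p => U (pr i) (h p) (b p) (c p) with hf
  have hdh := hh.differentiable one_ne_zero
  have hdb := hb.differentiable one_ne_zero
  have hdc := hc.differentiable one_ne_zero
  have hder : ∀ i p, HasFDerivAt (f i) (dU (pr i) h b c p) p := fun i p =>
    hasFDerivAt_U (pr i) h b c p (hdh p) (hdb p) (hdc p)
  have hcont : ∀ i, Continuous (f i) := fun i =>
    continuous_iff_continuousAt.2 fun p => (hder i p).continuousAt
  have hTcont : Continuous (fun p => T (d1 h p) (b p) (c p)) := by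
    have e : (fun p => T (d1 h p) (b p) (c p)) = fun p =>
      ∑ σ : Equiv.Perm (Fin 6), ((Equiv.Perm.sign σ : ℤ) : ℝ) *
      ((fderiv ℝ h p (bv (σ 0)) (bv (σ 1)) - fderiv ℝ h p (bv (σ 1)) (bv (σ 0))) *
        b p (bv (σ 2)) (bv (σ 3)) * c p (bv (σ 4)) (bv (σ 5))) := by
      funext p
      rw [T_apply]
      refine Finset.sum_congr rfl fun σ _ => ?_
      rw [d1_apply]
    rw [e]
    have hfd : Continuous (fderiv ℝ h) := hh.continuous_fderiv one_ne_zero
    have hbc := hb.continuous
    have hcc := hc.continuous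
    refine continuous_finsetSum _ fun σ _ => ?_
    have a1 : ∀ u v : V, Continuous (fun p => fderiv ℝ h p u v) := fun u v =>
      (hfd.clm_apply continuous_const).clm_apply continuous_const
    have a2 : ∀ u v : V, Continuous (fun p => b p u v) := fun u v =>
      (hbc.clm_apply continuous_const).clm_apply continuous_const
    have a3 : ∀ u v : V, Continuous (fun p => c p u v) := fun u v =>
      (hcc.clm_apply continuous_const).clm_apply continuous_const
    exact continuous_const.mul ((((a1 _ _).sub (a1 _ _)).mul (a2 _ _)).mul (a3 _ _))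
  have hdiv : ∀ p, ∑ i : Fin 6, dU (pr i) h b c p (Pi.single i 1) =
      (1 / 2) * T (d1 h p) (b p) (c p) := by
    intro p
    have := div_eq h b c cb cc p
    unfold bv at this
    rw [← this]
    ring
  have key := integral_divergence_of_hasFDerivAt_off_countable' (n := 5) (0 : V) hi hi_nonneg
    f (fun i p => dU (pr i) h b c p) ∅ countable_empty (fun i => (hcont i).continuousOn)
    (fun x _ i => hder i x) (by
      simp_rw [hdiv]
      exact (continuous_const.mul hTcont).continuousOn.integrableOn_compact isCompact_Icc)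
  simp_rw [hdiv] at key
  rw [integral_const_mul] at key
  have hface : ∀ i : Fin 6,
      (∫ x in Icc ((0 : V) ∘ i.succAbove) (hi ∘ i.succAbove), f i (i.insertNth (hi i) x)) -
      ∫ x in Icc ((0 : V) ∘ i.succAbove) (hi ∘ i.succAbove), f i (i.insertNth ((0 : V) i) x) = 0 := by
    intro i
    rw [sub_eq_zero]
    have hshift : ∀ (r : ℝ) (x : Fin 5 → ℝ), (i.insertNth r x : V) =
        i.insertNth ((0 : V) i) x + r • bv i := by
      intro r x
      have := insertNth_add_single i 0 r x
      rw [zero_add] at this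
      rw [this]
      rfl
    by_cases hi1 : i = 1
    · subst hi1
      have htw : ∀ p, f 1 (Lc p + bv 1) = f 1 p := by
        intro p
        exact U_tw (h p) (h (Lc p + bv 1)) (b p) (b (Lc p + bv 1)) (c p) (c (Lc p + bv 1))
          (ih.tw p) (ib.tw p) (ic.tw p)
      have hG1 : Continuous (fun x : Fin 5 → ℝ => f 1 (Fin.insertNth 1 (hi 1) x)) :=
        (hcont 1).comp ((continuous_insertNth 1).comp (continuous_const.prodMk continuous_id))
      have hs := slice_int (fun x : Fin 5 → ℝ => f 1 (Fin.insertNth 1 (hi 1) x)) hG1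
        (by
          intro x
          have e : (Fin.insertNth 1 (hi 1) (x + f1) : V) = Fin.insertNth 1 (hi 1) x + bv 2 := by
            funext j
            refine Fin.succAboveCases 1 ?_ ?_ j
            · simp [bv]
            · intro k
              have hk : (Fin.succAbove (1 : Fin 6) k = 2) ↔ k = 1 := by
                revert k; decide
              rw [Pi.add_apply, Fin.insertNth_apply_succAbove, Fin.insertNth_apply_succAbove,
                Pi.add_apply]
              simp only [bv, f1, Pi.single_apply, hk]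
          rw [e]
          simp only [hf]
          rw [ih.per2, ib.per2, ic.per2])
        (by
          intro x
          have e : (Fin.insertNth 1 (hi 1) (x + f2) : V) = Fin.insertNth 1 (hi 1) x + bv 3 := by
            funext j
            refine Fin.succAboveCases 1 ?_ ?_ j
            · simp [bv]
            · intro k
              have hk : (Fin.succAbove (1 : Fin 6) k = 3) ↔ k = 2 := by
                revert k; decide
              rw [Pi.add_apply, Fin.insertNth_apply_succAbove, Fin.insertNth_apply_succAbove,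
                Pi.add_apply]
              simp only [bv, f2, Pi.single_apply, hk]
          rw [e]
          simp only [hf]
          rw [ih.per3, ib.per3, ic.per3])
        (hi ∘ Fin.succAbove 1) (fun k => hi_nonneg _) (by
          have : Fin.succAbove 1 (1 : Fin 5) = (2 : Fin 6) := by decide
          simp [this, hi]) (by
          have : Fin.succAbove 1 (2 : Fin 5) = (3 : Fin 6) := by decide
          simp [this, hi])
      have h0 : ((0 : V) ∘ Fin.succAbove 1) = (0 : Fin 5 → ℝ) := rfl
      rw [h0, ← hs]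
      refine setIntegral_congr_fun measurableSet_Icc fun x _ => ?_
      rw [← htw (Fin.insertNth 1 ((0 : V) 1) x)]
      congr 1
      rw [Lc_apply]
      have i0 : (Fin.insertNth 1 ((0 : V) 1) x : V) 0 = x 0 := by
        have : (0 : Fin 6) = Fin.succAbove 1 (0 : Fin 5) := by decide
        rw [this, Fin.insertNth_apply_succAbove]
      have i1 : (Fin.insertNth 1 ((0 : V) 1) x : V) 1 = 0 := by simp
      have i2 : (Fin.insertNth 1 ((0 : V) 1) x : V) 2 = x 1 := by
        have : (2 : Fin 6) = Fin.succAbove 1 (1 : Fin 5) := by decide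
        rw [this, Fin.insertNth_apply_succAbove]
      have i3 : (Fin.insertNth 1 ((0 : V) 1) x : V) 3 = x 2 := by
        have : (3 : Fin 6) = Fin.succAbove 1 (2 : Fin 5) := by decide
        rw [this, Fin.insertNth_apply_succAbove]
      have i4 : (Fin.insertNth 1 ((0 : V) 1) x : V) 4 = x 3 := by
        have : (4 : Fin 6) = Fin.succAbove 1 (3 : Fin 5) := by decide
        rw [this, Fin.insertNth_apply_succAbove]
      have i5 : (Fin.insertNth 1 ((0 : V) 1) x : V) 5 = x 4 := by
        have : (5 : Fin 6) = Fin.succAbove 1 (4 : Fin 5) := by decide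
        rw [this, Fin.insertNth_apply_succAbove]
      rw [i0, i1, i2, i3, i4, i5]
      funext j
      refine Fin.succAboveCases 1 ?_ ?_ j
      · simp [bv, hi]
      · intro k
        rw [Fin.insertNth_apply_succAbove]
        have hne : bv 1 (Fin.succAbove 1 k) = 0 := by
          simp [bv]
        rw [Pi.add_apply, hne, add_zero]
        fin_cases k <;> rfl
    · refine setIntegral_congr_fun measurableSet_Icc fun x _ => ?_
      simp only [hf]
      rw [hshift (hi i) x]
      have hcases : i = 0 ∨ i = 2 ∨ i = 3 ∨ i = 4 ∨ i = 5 := by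
        fin_cases i
        · left; rfl
        · exact absurd rfl hi1
        · right; left; rfl
        · right; right; left; rfl
        · right; right; right; left; rfl
        · right; right; right; right; rfl
      rcases hcases with rfl | rfl | rfl | rfl | rfl
      · have : hi 0 = 1 := by simp [hi]
        rw [this, one_smul, ih.per0, ib.per0, ic.per0]
      · have : hi 2 = 1 := by simp [hi]
        rw [this, one_smul, ih.per2, ib.per2, ic.per2]
      · have : hi 3 = 1 := by simp [hi]
        rw [this, one_smul, ih.per3, ib.per3, ic.per3]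
      · have : hi 4 = 2 * π := by simp [hi]
        rw [this, ih.per4, ib.per4, ic.per4]
      · have hz : ∀ p : V, (p 5 = 0 ∨ p 5 = π) → U (pr 5) (h p) (b p) (c p) = 0 := by
          intro p hp
          refine U_pole _ _ _ (ih.pole p hp) (ib.pole p hp) ?_ (ic.pole p hp) ?_
          · intro v
            rw [sb, ib.pole p hp, neg_zero]
          · intro v
            rw [sc, ic.pole p hp, neg_zero]
        rw [hz, hz]
        · left
          simp
        · right
          rw [← hshift]
          simp [hi]
  have hsum : ∑ i : Fin 6,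
      ((∫ x in Icc ((0 : V) ∘ i.succAbove) (hi ∘ i.succAbove), f i (i.insertNth (hi i) x)) -
      ∫ x in Icc ((0 : V) ∘ i.succAbove) (hi ∘ i.succAbove), f i (i.insertNth ((0 : V) i) x)) = 0 :=
    Finset.sum_eq_zero fun i _ => hface i
  have : (1 / 2 : ℝ) * ∫ p in Icc 0 hi, T (d1 h p) (b p) (c p) = 0 := by
    rw [key]
    exact hsum
  linarith

end H711R4
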